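import Pool.Agent.Lib.MP_610fe3_an.FT.Spec

/-!
# The factor theorem: the abstract theorem from its modules
-/

open Set Filter Function
open scoped Topology

namespace Pool.Agent.Lib.MP610fe3.FT

open TM N3

universe u v

/-- The abstract theorem. -/
def SpecAbs : Prop := ∀ (X : Type u) [MetricSpace X] [CompactSpace X] (f : X ≃ₜ X) (U : Set X)
  (e C a c : ℝ) (G : Type v) [MetricSpace G] [CompactSpace G] [Group G] [IsTopologicalGroup G]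
  (L : G ≃ₜ G) (c₀ : ℝ) (h : X → G), Base f e C a c → Trap f U → (frontier U).Nonempty →
  TransOn f (Att f U) → (∀ a b, L (a * b) = L a * L b) → 0 < c₀ →
  (∀ u : G, (∀ n : ℤ, dist (ev L n u) 1 ≤ c₀) → u = 1) → Fac f (Att f U) L h →
  (∀ x ∈ Att f U, ∀ ε : ℝ, 0 < ε → ∃ K : Set X, IsCompact K ∧ IsConnected K ∧ K.Nontrivial ∧
    K ⊆ Att f U ∧ (∀ y ∈ K, y ∈ Sp f.symm ε x) ∧ ∀ y ∈ K, ∀ z ∈ K, h y = h z) ∧
  (∃ (l : ℕ) (t : G) (Z : (ℤ → Bool) → X), 0 < l ∧ L^[l] t = t ∧ Continuous Z ∧ Injective Z ∧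
    ∀ σ, Z σ ∈ Att f U ∧ h (Z σ) = t ∧ f^[l] (Z σ) = Z (fun k => σ (k + 1))) ∧
  Dynamics.coverEntropy L (h '' (Att f U)) < Dynamics.coverEntropy f (Att f U)

theorem specAbs (hGex : SpecGex.{v}) (hHol : SpecHol.{u, v}) (hStpA : SpecStpA.{u, v})
    (hLimA : SpecLimA.{u, v}) (hDia : SpecDia.{u, v}) (hHrs : SpecHrs.{u, v})
    (hDns : SpecDns.{u, v}) (hGap : SpecGap.{u, v}) : SpecAbs.{u, v} := by
  intro X _ _ f U e C a c G _ _ _ _ L c₀ h B hT hfr hTr hmul hc₀ hexp hF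
  have he : 0 < e := (B.rates U).e0
  obtain ⟨c', hc', hLc⟩ := hGex G L c₀ hmul hc₀ hexp
  obtain ⟨ε, hε, hol⟩ := hHol X f (Att f U) G L h c₀ (isClosed_att hT)
    (fun x hx k => att_ev hT hx k) hmul hc₀ hexp hF
  obtain ⟨c₁, hc₁, hK⟩ := hStpA X f U e C a c G L h ε (e / 8) B hT hfr hF hε hol (by positivity)
    (by linarith)
  obtain ⟨K, hCl, hKh⟩ := hLimA X f (Att f U) G h (e / 8) c₁ (isClosed_att hT) hF.cont hc₁ hK
  obtain ⟨y, w, hD⟩ := hDia X f U e C a c G L c' h (e / 8) c₁ K B hT hc' hLc hF (by linarith) hc₁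
    hCl hKh
  exact ⟨hDns X f U e C a c G L c' h (e / 8) c₁ K B hT hTr hc' hLc hF (by linarith) hc₁ hCl hKh,
    hHrs X f U e C a c G L c' h y w B hT hTr hc' hLc hF hD,
    hGap X f U G L c' h y w B.shad hT hTr hc' hLc hF hD⟩

/-- Existence of a transitive attractor. -/
def SpecMin : Prop := ∀ (X : Type u) [MetricSpace X] [CompactSpace X] (f : X ≃ₜ X) (U : Set X)
  (c : ℝ), 0 < c → ExpConst f c → Shadowing f → Trap f U → (Att f U).Nonempty →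
  ∃ U' : Set X, U' ⊆ U ∧ U'.Nonempty ∧ Trap f U' ∧ TransOn f (Att f U')

theorem specMin (hMnr : SpecMnr.{u}) (hMnu : SpecMnu.{u}) (hMnt : SpecMnt.{u}) :
    SpecMin.{u} := by
  intro X _ _ f U c hc0 hc hsh hT hne
  obtain ⟨y₀, hy₀, hy₀O, hmin⟩ := hMnr X f U c hc0 hc hsh hT hne
  obtain ⟨U', hU', hT', hA⟩ := hMnu X f U c y₀ hc0 hc hsh hT hy₀ hy₀O hmin
  have hy : Reach f y₀ y₀ := reach_self_of_mem_Om hy₀O
  have hyA : y₀ ∈ Att f U' := by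
    rw [hA]
    exact hy
  refine ⟨U', hU', ⟨y₀, att_sub hyA⟩, hT', hMnt X f U' c hc0 hc hsh hT' fun x hx y hy' => ?_⟩
  rw [hA] at hx hy'
  exact (hmin x hx).trans hy'

end Pool.Agent.Lib.MP610fe3.FT
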