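import Pool.Agent.Lib.MP_610fe3_an.FT.Spec

/-!
# MP_610fe3_an, FT, module CHS: points of a connected set are joined by chains of bounded length
-/

namespace Pool.Agent.Lib.MP610fe3.FT

universe u v

namespace CHSM

open Topology Filter

/-- `s` is a `δ`-chain of `k` steps in `S` from `x` to `y`. -/
def DChain {X : Type u} [MetricSpace X] (δ : ℝ) (S : Set X) (x y : X) (k : ℕ) (s : ℕ → X) : Prop :=
  s 0 = x ∧ s k = y ∧ (∀ i ≤ k, s i ∈ S) ∧ ∀ i < k, dist (s i) (s (i + 1)) < δ

/-- two chains can be composed. -/
theorem trans {X : Type u} [MetricSpace X] {δ : ℝ} {S : Set X} {x y z : X} {k l : ℕ} {s t : ℕ → X}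
    (h : DChain δ S x y k s) (h' : DChain δ S y z l t) :
    DChain δ S x z (k + l) (fun i => if i ≤ k then s i else t (i - k)) := by
  obtain ⟨h1, h2, h3, h4⟩ := h
  obtain ⟨k1, k2, k3, k4⟩ := h'
  refine ⟨?_, ?_, ?_, ?_⟩
  · simp [h1]
  · by_cases hl : l = 0
    · subst hl
      simp only [add_zero, le_refl, if_true]
      rw [h2, ← k2, k1]
    · beta_reduce
      rw [if_neg (by omega), Nat.add_sub_cancel_left, k2]
  · intro i hi
    by_cases hik : i ≤ k
    · simp only [hik, if_true]
      exact h3 i hik
    · simp only [hik, if_false]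
      exact k3 _ (by omega)
  · intro i hi
    by_cases hik : i + 1 ≤ k
    · simp only [hik, if_true, show i ≤ k by omega]
      exact h4 i (by omega)
    · by_cases hik' : i ≤ k
      · have hik2 : i = k := by omega
        subst hik2
        simp only [hik, if_false, le_refl, if_true]
        rw [h2, ← k1, Nat.add_sub_cancel_left]
        exact k4 0 (by omega)
      · simp only [hik, hik', if_false]
        have h5 : i + 1 - k = i - k + 1 := by omega
        rw [h5]
        exact k4 _ (by omega)

/-- chains exist in preconnected sets. -/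
theorem exists_chain {X : Type u} [MetricSpace X] {δ : ℝ} (hδ : 0 < δ) {S : Set X}
    (hS : IsPreconnected S) {x y : X} (hx : x ∈ S) (hy : y ∈ S) : ∃ k s, DChain δ S x y k s := by
  refine hS.induction₂' (fun a b => ∃ k s, DChain δ S a b k s) ?_ ?_ hx hy
  · intro a ha
    have h1 : ∀ᶠ b in 𝓝[S] a, b ∈ Metric.ball a δ :=
      mem_nhdsWithin_of_mem_nhds (Metric.ball_mem_nhds a hδ)
    have h2 : ∀ᶠ b in 𝓝[S] a, b ∈ S := eventually_mem_nhdsWithin
    filter_upwards [h1, h2] with b hb hbS
    rw [Metric.mem_ball] at hb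
    refine ⟨⟨1, fun i => if i = 0 then a else b, by simp, by simp, ?_, ?_⟩,
      ⟨1, fun i => if i = 0 then b else a, by simp, by simp, ?_, ?_⟩⟩
    · intro i _
      by_cases hi : i = 0
      · simp [hi, ha]
      · simp [hi, hbS]
    · intro i hi
      have hi0 : i = 0 := by omega
      subst hi0
      simpa [dist_comm] using hb
    · intro i _
      by_cases hi : i = 0
      · simp [hi, hbS]
      · simp [hi, ha]
    · intro i hi
      have hi0 : i = 0 := by omega
      subst hi0
      simpa using hb
  · rintro a b c - - - ⟨k, s, h⟩ ⟨l, t, h'⟩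
    exact ⟨k + l, _, trans h h'⟩

/-- a long chain can be shortened. -/
theorem shorten {X : Type u} [MetricSpace X] {δ : ℝ} {S : Set X} {x y : X} {k : ℕ} {s : ℕ → X}
    (h : DChain δ S x y k s) {a b : ℕ} (hab : a + 2 ≤ b) (hbk : b ≤ k)
    (hd : dist (s a) (s b) < δ) :
    DChain δ S x y (k - (b - a - 1)) (fun i => if i ≤ a then s i else s (i + (b - a - 1))) := by
  obtain ⟨h1, h2, h3, h4⟩ := h
  refine ⟨?_, ?_, ?_, ?_⟩
  · simp [h1]
  · beta_reduce
    rw [if_neg (by omega), show k - (b - a - 1) + (b - a - 1) = k by omega, h2]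
  · intro i hi
    by_cases hia : i ≤ a
    · simp only [hia, if_true]
      exact h3 i (by omega)
    · simp only [hia, if_false]
      exact h3 _ (by omega)
  · intro i hi
    by_cases hia : i + 1 ≤ a
    · simp only [hia, if_true, show i ≤ a by omega]
      exact h4 i (by omega)
    · by_cases hia' : i ≤ a
      · have hia2 : i = a := by omega
        subst hia2
        simp only [hia, if_false, le_refl, if_true]
        rw [show i + 1 + (b - i - 1) = b by omega]
        exact hd
      · simp only [hia, hia', if_false]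
        rw [show i + 1 + (b - a - 1) = i + (b - a - 1) + 1 by omega]
        exact h4 _ (by omega)

end CHSM

open CHSM in
theorem specChs : SpecChs.{u} := by
  intro X _ _ δ hδ
  classical
  obtain ⟨t, -, htf, ht⟩ := finite_cover_balls_of_compact (isCompact_univ (X := X))
    (half_pos hδ)
  have hfin : Fintype t := htf.fintype
  have hg : ∀ x : X, ∃ c : t, dist x c < δ / 2 := by
    intro x
    have h := ht (Set.mem_univ x)
    simp only [Set.mem_iUnion, Metric.mem_ball] at h
    obtain ⟨c, hc, hcx⟩ := h
    exact ⟨⟨c, hc⟩, hcx⟩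
  choose g hg using hg
  refine ⟨2 * Fintype.card t, ?_⟩
  intro S hS x hx y hy
  have hex : ∃ k, ∃ s, DChain δ S x y k s := exists_chain hδ hS hx hy
  obtain ⟨s, hs⟩ := Nat.find_spec hex
  refine ⟨Nat.find hex, ?_, s, hs⟩
  by_contra hlt
  obtain ⟨i, j, hij, hgij⟩ := Fintype.exists_ne_map_eq_of_card_lt
    (fun i : Fin (Fintype.card t + 1) => g (s (2 * i.1))) (by simp)
  have key : ∀ i j : Fin (Fintype.card t + 1), i.1 < j.1 →
      g (s (2 * i.1)) = g (s (2 * j.1)) → False := by
    intro i j hij hgij
    have hd : dist (s (2 * i.1)) (s (2 * j.1)) < δ := by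
      have h1 := hg (s (2 * i.1))
      have h2 := hg (s (2 * j.1))
      rw [hgij] at h1
      have h3 := dist_triangle_right (s (2 * i.1)) (s (2 * j.1)) (g (s (2 * j.1)) : X)
      linarith
    have hj := j.2
    have hc := shorten hs (a := 2 * i.1) (b := 2 * j.1) (by omega) (by omega) hd
    have hmin := Nat.find_min' hex ⟨_, hc⟩
    omega
  rcases lt_or_gt_of_ne (fun h : i.1 = j.1 => hij (Fin.ext h)) with h | h
  · exact key i j h hgij
  · exact key j i h hgij.symm

end Pool.Agent.Lib.MP610fe3.FT
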