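import Pool.Agent.Lib.MP_610fe3_an.FT.Mfd

/-!
# The factor theorem: periodic points in the horseshoe
-/

open Set Filter Function
open scoped Topology Uniformity

namespace Pool.Agent.Lib.MP610fe3.FT

/-- The sequence which is true at the multiples of `n`. -/
def mult (n : ℕ) : ℤ → Bool := fun k => decide ((n : ℤ) ∣ k)

theorem mult_shift (n : ℕ) : (fun k => mult n (k + n)) = mult n := by
  funext k
  simp only [mult]
  congr 1
  simp

theorem mult_injOn {n m : ℕ} (h : mult (n + 1) = mult (m + 1)) : n = m := by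
  have h1 : mult (m + 1) ((n + 1 : ℕ) : ℤ) = true := by
    rw [← h]
    simp [mult]
  have h2 : mult (n + 1) ((m + 1 : ℕ) : ℤ) = true := by
    rw [h]
    simp [mult]
  simp only [mult, decide_eq_true_eq] at h1 h2
  have h3 : m + 1 ∣ n + 1 := Int.natCast_dvd_natCast.1 h1
  have h4 : n + 1 ∣ m + 1 := Int.natCast_dvd_natCast.1 h2
  have := Nat.dvd_antisymm h3 h4
  omega

variable {M : Type*} [TopologicalSpace M] {f : M → M} {A : Set M} {Y : Type*} {L : Y → Y}
  {h : M → Y}

/-- The fibre which contains the horseshoe contains infinitely many periodic points. -/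
theorem Horseshoe.infinite (H : Horseshoe f A L h) : ∃ (l : ℕ) (t : Y), 0 < l ∧ L^[l] t = t ∧
    ({x | x ∈ A ∧ h x = t} ∩ periodicPts f).Infinite := by
  obtain ⟨l, t, Z, hl, ht, -, hinj, hZ⟩ := H
  refine ⟨l, t, hl, ht, ?_⟩
  have key : ∀ (n : ℕ) (σ : ℤ → Bool), f^[l * n] (Z σ) = Z (fun k => σ (k + n)) := by
    intro n
    induction n with
    | zero => intro σ; simp
    | succ n ih =>
      intro σ
      rw [Nat.mul_succ, add_comm, iterate_add_apply, ih, (hZ _).2.2]
      congr 1
      funext k
      push_cast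
      congr 1
      ring
  refine infinite_of_injective_forall_mem (f := fun n : ℕ => Z (mult (n + 1))) ?_ fun n => ?_
  · intro n m hnm
    exact mult_injOn (hinj hnm)
  · refine ⟨⟨(hZ _).1, (hZ _).2.1⟩, l * (n + 1), Nat.mul_pos hl (Nat.succ_pos n), ?_⟩
    show f^[l * (n + 1)] (Z (mult (n + 1))) = Z (mult (n + 1))
    rw [key, mult_shift]

end Pool.Agent.Lib.MP610fe3.FT
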