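import Pool.Agent.Lib.MP_610fe3_an.FT.Spec

/-!
# The factor theorem, module CSA: many passages close to `y`
-/

open Set Filter Function
open scoped Topology

namespace Pool.Agent.Lib.MP610fe3.FT

open TM N3

universe u v

namespace CsaM

/-- The common shape of the points produced by SWI. -/
structure Pt {X : Type u} [MetricSpace X] (f : X ≃ₜ X) (U : Set X) {Y : Type v} [MetricSpace Y]
    (h : X → Y) (w : X) (N : ℕ) (κ εB : ℝ) (x : X) (σ : Finset ℕ) (z : X) : Prop where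
  mem : z ∈ Att f U
  hit : ∀ s ∈ σ, dist (f^[s] z) w < κ / 8
  off : ∀ t : ℕ, (∀ s ∈ σ, (N : ℤ) ≤ |(t : ℤ) - s|) → dist (f^[t] z) (f^[t] x) < κ / 8
  fac : ∀ t : ℕ, dist (h (f^[t] z)) (h (f^[t] x)) < εB / 4

variable {X : Type u} [MetricSpace X] {f : X ≃ₜ X} {U : Set X} {Y : Type v} [MetricSpace Y]
  {h : X → Y}

theorem sub_of_close {w y x z z' : X} {N n : ℕ} {κ εB ρ εA : ℝ} (hκ : κ = dist y w) (hκ0 : 0 < κ)
    (hρ : ρ ≤ κ / 8) (hεA : εA ≤ κ / 4) {T σ σ' : Finset ℕ} (hσ : σ ⊆ T) (hσ' : σ' ⊆ T)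
    (hT1 : ∀ t ∈ T, t < n ∧ dist (f^[t] x) y < ρ)
    (hT2 : ∀ s ∈ T, ∀ t ∈ T, s < t → s + 2 * N ≤ t)
    (P : Pt f U h w N κ εB x σ z) (P' : Pt f U h w N κ εB x σ' z')
    (hcl : ∀ t < n, dist (f^[t] z) (f^[t] z') < εA) : σ ⊆ σ' := by
  intro s hs
  by_contra hs'
  have hsT := hσ hs
  obtain ⟨hsn, hsy⟩ := hT1 s hsT
  have h1 := P.hit s hs
  have h2 := P'.off s (by
    intro r hr
    have hrT := hσ' hr
    have hne : s ≠ r := by
      rintro rfl
      exact hs' hr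
    rcases lt_or_gt_of_ne hne with hlt | hlt
    · have h5 := hT2 s hsT r hrT hlt
      rw [abs_sub_comm, abs_of_nonneg (by omega)]
      omega
    · have h5 := hT2 r hrT s hsT hlt
      rw [abs_of_nonneg (by omega)]
      omega)
  have h3 := hcl s hsn
  have h4 : dist y w ≤ dist (f^[s] x) y + dist (f^[s] z') (f^[s] x) + dist (f^[s] z) (f^[s] z') +
      dist (f^[s] z) w := by
    have e1 := dist_triangle y (f^[s] x) w
    have e2 := dist_triangle (f^[s] x) (f^[s] z') w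
    have e3 := dist_triangle (f^[s] z') (f^[s] z) w
    rw [dist_comm y (f^[s] x)] at e1
    rw [dist_comm (f^[s] x) (f^[s] z')] at e2
    rw [dist_comm (f^[s] z') (f^[s] z)] at e3
    linarith
  rw [← hκ] at h4
  linarith

end CsaM

open CsaM in
/-- **CSA**. -/
theorem specCsa (hSwi : SpecSwi.{u, v}) : SpecCsa.{u, v} := by
  classical
  intro X _ _ f U Y _ g h y w εB hsh hT F D hεB
  haveI : Nonempty X := ⟨y⟩
  have hκ0 : 0 < dist y w := dist_pos.2 D.ne
  obtain ⟨ε₁, hε₁, hun⟩ := F.unif (isClosed_att hT) (ε := εB / 4) (by positivity)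
  obtain ⟨N, hN, ρ', hρ', H⟩ := hSwi X f U Y g h y w (min (dist y w / 8) (εB / 4)) hsh hT F D
    (lt_min (by positivity) (by positivity))
  refine ⟨N, hN, min ρ' (dist y w / 8), lt_min hρ' (by positivity), min (dist y w / 4) ε₁,
    lt_min (by positivity) hε₁, ?_⟩
  intro n k S hS hsep hTT
  choose! T hT1 hT2 hT3 using hTT
  have key : ∀ p : X × Finset ℕ, p.1 ∈ S → p.2 ⊆ T p.1 →
      ∃ z, Pt f U h w N (dist y w) εB p.1 p.2 z := by
    rintro ⟨x, σ⟩ hx hσ
    simp only at hx hσ ⊢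
    obtain ⟨z, hz, z1, z2, z3⟩ := H x (hS hx) ((fun s : ℕ => (s : ℤ)) '' (σ : Set ℕ)) (by
      rintro _ ⟨s, hs, rfl⟩
      rw [ev_nat]
      exact ((hT2 x hx s (hσ hs)).2).trans_le (min_le_left _ _)) (by
      rintro _ ⟨s, hs, rfl⟩ _ ⟨t, ht, rfl⟩ hst
      have hst' : s < t := by simpa using hst
      have := hT3 x hx s (hσ hs) t (hσ ht) hst'
      show (s : ℤ) + 2 * (N : ℤ) ≤ (t : ℤ)
      exact_mod_cast this)
    refine ⟨z, hz, ?_, ?_, ?_⟩
    · intro s hs
      have h1 := z1 (s : ℤ) ⟨s, hs, rfl⟩ (s : ℤ) (by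
        rw [sub_self, abs_zero]
        exact_mod_cast hN)
      rw [sub_self, ev_zero, ev_nat] at h1
      exact h1.trans_le (min_le_left _ _)
    · intro t ht
      have h1 := z2 (t : ℤ) (by
        rintro _ ⟨s, hs, rfl⟩
        exact ht s hs)
      rw [ev_nat, ev_nat] at h1
      exact h1.trans_le (min_le_left _ _)
    · intro t
      have h1 := z3 (t : ℤ)
      rw [ev_nat, ev_nat] at h1
      exact h1.trans_le (min_le_right _ _)
  choose! Z hZ using key
  have claim : ∀ p : X × Finset ℕ, p.1 ∈ S → p.2 ⊆ T p.1 → ∀ p' : X × Finset ℕ, p'.1 ∈ S →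
      p'.2 ⊆ T p'.1 → (∀ t < n, dist (f^[t] (Z p)) (f^[t] (Z p')) < min (dist y w / 4) ε₁) →
      p = p' := by
    rintro ⟨x, σ⟩ hx hσ ⟨x', σ'⟩ hx' hσ' hcl
    simp only at hx hσ hx' hσ'
    have P := hZ ⟨x, σ⟩ hx hσ
    have P' := hZ ⟨x', σ'⟩ hx' hσ'
    simp only at P P'
    have hxx : x = x' := by
      apply hsep x hx x' hx'
      intro t ht
      have h1 := P.fac t
      have h2 := P'.fac t
      have hm : f^[t] (Z (x, σ)) ∈ Att f U := by
        rw [← ev_nat]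
        exact att_ev hT P.mem _
      have hm' : f^[t] (Z (x', σ')) ∈ Att f U := by
        rw [← ev_nat]
        exact att_ev hT P'.mem _
      have h3 := hun _ hm _ hm' ((hcl t ht).trans_le (min_le_right _ _))
      have e1 := dist_triangle (h (f^[t] x)) (h (f^[t] (Z (x, σ)))) (h (f^[t] x'))
      have e2 := dist_triangle (h (f^[t] (Z (x, σ)))) (h (f^[t] (Z (x', σ')))) (h (f^[t] x'))
      rw [dist_comm (h (f^[t] x)) (h (f^[t] (Z (x, σ))))] at e1
      linarith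
    subst hxx
    have s1 : σ ⊆ σ' := sub_of_close rfl hκ0 (min_le_right _ _) (min_le_left _ _) hσ hσ'
      (hT2 x hx) (hT3 x hx) P P' hcl
    have s2 : σ' ⊆ σ := sub_of_close rfl hκ0 (min_le_right _ _) (min_le_left _ _) hσ' hσ
      (hT2 x hx) (hT3 x hx) P' P (fun t ht => by rw [dist_comm]; exact hcl t ht)
    rw [s1.antisymm s2]
  let Q : Finset (Σ _ : X, Finset ℕ) := S.sigma fun x => (T x).powerset
  have hQ : ∀ q ∈ Q, q.1 ∈ S ∧ q.2 ⊆ T q.1 := by
    intro q hq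
    rw [Finset.mem_sigma, Finset.mem_powerset] at hq
    exact hq
  have hinj : Set.InjOn (fun q : (Σ _ : X, Finset ℕ) => Z (q.1, q.2)) (Q : Set (Σ _ : X, Finset ℕ)) := by
    intro q hq q' hq' hqq
    simp only at hqq
    have h1 := claim (q.1, q.2) (hQ q hq).1 (hQ q hq).2 (q'.1, q'.2) (hQ q' hq').1 (hQ q' hq').2
      (fun t _ => by
        rw [hqq, dist_self]
        exact lt_min (by positivity) hε₁)
    rw [Prod.mk.injEq] at h1
    obtain ⟨a, b⟩ := q
    obtain ⟨a', b'⟩ := q'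
    simp only at h1
    obtain ⟨h2, h3⟩ := h1
    subst h2 h3
    rfl
  refine ⟨Q.image (fun q => Z (q.1, q.2)), ?_, ?_, ?_⟩
  · intro z hz
    rw [Finset.mem_coe, Finset.mem_image] at hz
    obtain ⟨q, hq, rfl⟩ := hz
    exact (hZ (q.1, q.2) (hQ q hq).1 (hQ q hq).2).mem
  · intro z hz z' hz' hcl
    rw [Finset.mem_image] at hz hz'
    obtain ⟨q, hq, rfl⟩ := hz
    obtain ⟨q', hq', rfl⟩ := hz'
    have h1 := claim (q.1, q.2) (hQ q hq).1 (hQ q hq).2 (q'.1, q'.2) (hQ q' hq').1 (hQ q' hq').2 hcl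
    rw [h1]
  · rw [Finset.card_image_of_injOn hinj, Finset.card_sigma, ← smul_eq_mul, ← Finset.sum_const]
    refine Finset.sum_le_sum fun x hx => ?_
    rw [Finset.card_powerset]
    exact Nat.pow_le_pow_right (by norm_num) (hT1 x hx)

end Pool.Agent.Lib.MP610fe3.FT
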