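import Pool.Agent.Lib.MP_610fe3_an.FT.Spec

/-!
# Module CSB: few passages close to a point, insertions of loops
-/

open Set Filter Function
open scoped Topology

namespace Pool.Agent.Lib.MP610fe3.FT

open TM N3

universe u v

namespace CsbM

variable {X : Type*} [MetricSpace X] {Y : Type*} [MetricSpace Y]

/-- A maximal separated subset of a finite set is spanning. -/
theorem exists_max_sep (f : X → X) (n : ℕ) {ε : ℝ} (hε : 0 < ε) (W : Finset X) :
    ∃ S : Finset X, S ⊆ W ∧ Sep f n ε S ∧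
      ∀ z ∈ W, ∃ ζ ∈ S, ∀ t < n, dist (f^[t] ζ) (f^[t] z) < ε := by
  classical
  obtain ⟨S, hS, hmax⟩ := Finset.exists_max_image (W.powerset.filter (fun S => Sep f n ε S))
    Finset.card ⟨∅, by
      rw [Finset.mem_filter]
      exact ⟨Finset.empty_mem_powerset _, fun x hx => absurd hx (Finset.notMem_empty x)⟩⟩
  rw [Finset.mem_filter, Finset.mem_powerset] at hS
  refine ⟨S, hS.1, hS.2, fun z hz => ?_⟩
  by_contra hcon
  push Not at hcon
  have hzS : z ∉ S := by
    intro hzS
    obtain ⟨t, _, ht⟩ := hcon z hzS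
    rw [dist_self] at ht
    exact absurd ht (not_le.2 hε)
  have h1 : insert z S ∈ W.powerset.filter (fun S => Sep f n ε S) := by
    rw [Finset.mem_filter, Finset.mem_powerset]
    refine ⟨Finset.insert_subset hz hS.1, ?_⟩
    intro a ha b hb hab
    rw [Finset.mem_insert] at ha hb
    rcases ha with rfl | ha
    · rcases hb with rfl | hb
      · rfl
      · exfalso
        obtain ⟨t, ht, ht'⟩ := hcon b hb
        have := hab t ht
        rw [dist_comm] at this
        exact absurd ht' (not_le.2 this)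
    · rcases hb with rfl | hb
      · exfalso
        obtain ⟨t, ht, ht'⟩ := hcon a ha
        exact absurd ht' (not_le.2 (hab t ht))
      · exact hS.2 a ha b hb hab
  have h2 := hmax _ h1
  rw [Finset.card_insert_of_notMem hzS] at h2
  omega

/-- The extension of a function on `Fin m` by zero. -/
def ext {m : ℕ} (J : Fin m → ℕ) (i : ℕ) : ℕ := if hi : i < m then J ⟨i, hi⟩ else 0

theorem ext_lt {m : ℕ} (J : Fin m → ℕ) {i : ℕ} (hi : i < m) : ext J i = J ⟨i, hi⟩ := by
  simp [ext, hi]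

/-- The functions supported on the set `I`, with values `< K`. -/
noncomputable def box (K m : ℕ) (I : Finset ℕ) : Finset (Fin m → ℕ) := by
  classical
  exact Fintype.piFinset (fun i : Fin m => if (i : ℕ) ∈ I then Finset.range K else {0})

theorem mem_box {K m : ℕ} {I : Finset ℕ} {J : Fin m → ℕ} :
    J ∈ box K m I ↔ ∀ i : Fin m, ((i : ℕ) ∈ I → J i < K) ∧ ((i : ℕ) ∉ I → J i = 0) := by
  classical
  unfold box
  rw [Fintype.mem_piFinset]
  refine forall_congr' fun i => ?_
  by_cases hi : (i : ℕ) ∈ I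
  · simp [hi]
  · simp [hi]

theorem card_box {K m m' : ℕ} {I : Finset ℕ} (hK : 0 < K) (hm : m' ≤ I.card)
    (hI : ∀ i ∈ I, i < m) : K ^ m' ≤ (box K m I).card := by
  classical
  have h1 : (box K m I).card = K ^ I.card := by
    unfold box
    rw [Fintype.card_piFinset]
    have h2 : ∀ i : Fin m, (if (i : ℕ) ∈ I then Finset.range K else {0}).card =
        if (i : ℕ) ∈ I then K else 1 := by
      intro i
      split_ifs
      · exact Finset.card_range K
      · rfl
    rw [Finset.prod_congr rfl fun i _ => h2 i, Finset.prod_ite, Finset.prod_const,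
      Finset.prod_const_one, mul_one]
    congr 1
    refine Finset.card_bij (fun i _ => (i : ℕ)) ?_ ?_ ?_
    · intro i hi
      exact (Finset.mem_filter.1 hi).2
    · intro i _ j _ hij
      exact Fin.ext hij
    · intro i hi
      exact ⟨⟨i, hI i hi⟩, Finset.mem_filter.2 ⟨Finset.mem_univ _, hi⟩, rfl⟩
  rw [h1]
  exact Nat.pow_le_pow_right hK hm

/-- The first time in the block `i` at which the orbit is close to `y`. -/
noncomputable def tau (f : X → X) (y : X) (r : ℝ) (L i : ℕ) (ζ : X) : ℕ :=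
  sInf {s | dist (f^[i * L + s] ζ) y < r}

theorem tau_bounds {f : X → X} {y x z ζ : X} {ρ ε εA : ℝ} {K l m i j r : ℕ} (hi : i < m)
    (hj : j < K) (hr : r < l) (hε : ε ≤ ρ / 4) (hεA : εA ≤ ρ / 4)
    (h1 : dist (f^[i * (K + l) + j + r] z) y < ε)
    (h2 : ∀ s < j, dist (f^[i * (K + l) + s] z) (f^[i * K + s] x) < ε)
    (h3 : ∀ s < K, ρ ≤ dist (f^[i * K + s] x) y)
    (h4 : ∀ t < m * (K + l), dist (f^[t] ζ) (f^[t] z) < εA) :
    j ≤ tau f y (ρ / 2) (K + l) i ζ ∧ tau f y (ρ / 2) (K + l) i ζ < j + l := by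
  have hT : ∀ s, s < K + l → i * (K + l) + s < m * (K + l) := by
    intro s hs
    have : (i + 1) * (K + l) ≤ m * (K + l) := Nat.mul_le_mul_right _ hi
    have h5 : (i + 1) * (K + l) = i * (K + l) + (K + l) := by ring
    omega
  have h6 : j + r ∈ {s | dist (f^[i * (K + l) + s] ζ) y < ρ / 2} := by
    show dist (f^[i * (K + l) + (j + r)] ζ) y < ρ / 2
    have h7 := h4 _ (hT (j + r) (by omega))
    rw [← add_assoc] at h7 ⊢
    have h8 := dist_triangle (f^[i * (K + l) + j + r] ζ) (f^[i * (K + l) + j + r] z) y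
    linarith
  constructor
  · by_contra hcon
    push Not at hcon
    have h9 : dist (f^[i * (K + l) + tau f y (ρ / 2) (K + l) i ζ] ζ) y < ρ / 2 :=
      Nat.sInf_mem (s := {s | dist (f^[i * (K + l) + s] ζ) y < ρ / 2}) ⟨_, h6⟩
    set s := tau f y (ρ / 2) (K + l) i ζ with hs
    have h10 := h2 s hcon
    have h11 := h3 s (by omega)
    have h12 := h4 _ (hT s (by omega))
    have h13 := dist_triangle (f^[i * K + s] x) (f^[i * (K + l) + s] z) y
    have h14 := dist_triangle (f^[i * (K + l) + s] z) (f^[i * (K + l) + s] ζ) y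
    rw [dist_comm (f^[i * K + s] x) (f^[i * (K + l) + s] z)] at h13
    rw [dist_comm (f^[i * (K + l) + s] z) (f^[i * (K + l) + s] ζ)] at h14
    linarith
  · have h15 : tau f y (ρ / 2) (K + l) i ζ ≤ j + r := Nat.sInf_le h6
    omega

/-- Two points with the same inserted orbit have images which are close. -/
theorem close_of {f : X → X} {A : Set X} {h : X → Y} {x x' z z' ζ : X} {ε₁ ε εA εB : ℝ}
    {K l m : ℕ} {J : ℕ → ℕ} (hA : ∀ x ∈ A, ∀ t : ℕ, f^[t] x ∈ A)
    (hu : ∀ x ∈ A, ∀ y ∈ A, dist x y < ε₁ → dist (h x) (h y) < εB / 4) (hεB : 0 < εB)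
    (hε : ε ≤ ε₁) (hεA : εA ≤ ε₁ / 2) (hx : x ∈ A) (hx' : x' ∈ A) (hz : z ∈ A) (hz' : z' ∈ A)
    (h2 : ∀ i < m, ∀ s < J i, dist (f^[i * (K + l) + s] z) (f^[i * K + s] x) < ε)
    (h3 : ∀ i < m, ∀ s, J i ≤ s → s < K →
      dist (f^[i * (K + l) + s + l] z) (f^[i * K + s] x) < ε)
    (h2' : ∀ i < m, ∀ s < J i, dist (f^[i * (K + l) + s] z') (f^[i * K + s] x') < ε)
    (h3' : ∀ i < m, ∀ s, J i ≤ s → s < K →
      dist (f^[i * (K + l) + s + l] z') (f^[i * K + s] x') < ε)
    (h4 : ∀ t < m * (K + l), dist (f^[t] ζ) (f^[t] z) < εA)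
    (h4' : ∀ t < m * (K + l), dist (f^[t] ζ) (f^[t] z') < εA) :
    ∀ t < m * K, dist (h (f^[t] x)) (h (f^[t] x')) < εB := by
  intro t ht
  have hK : 0 < K := by
    rcases Nat.eq_zero_or_pos K with h0 | h0
    · rw [h0, Nat.mul_zero] at ht
      exact absurd ht (Nat.not_lt_zero t)
    · exact h0
  have hi : t / K < m := (Nat.div_lt_iff_lt_mul hK).2 ht
  have hs : t % K < K := Nat.mod_lt _ hK
  have hts : t / K * K + t % K = t := by
    rw [mul_comm]
    exact Nat.div_add_mod t K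
  have hT : ∀ s, s < K + l → t / K * (K + l) + s < m * (K + l) := by
    intro s hs
    have : (t / K + 1) * (K + l) ≤ m * (K + l) := Nat.mul_le_mul_right _ hi
    have h5 : (t / K + 1) * (K + l) = t / K * (K + l) + (K + l) := by ring
    omega
  obtain ⟨T, hTm, e1, e2⟩ : ∃ T < m * (K + l), dist (f^[T] z) (f^[t] x) < ε ∧
      dist (f^[T] z') (f^[t] x') < ε := by
    rcases lt_or_ge (t % K) (J (t / K)) with hlt | hge
    · refine ⟨t / K * (K + l) + t % K, hT _ (by omega), ?_, ?_⟩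
      · have := h2 _ hi _ hlt
        rwa [hts] at this
      · have := h2' _ hi _ hlt
        rwa [hts] at this
    · refine ⟨t / K * (K + l) + t % K + l, ?_, ?_, ?_⟩
      · have := hT (t % K + l) (by omega)
        omega
      · have := h3 _ hi _ hge hs
        rwa [hts] at this
      · have := h3' _ hi _ hge hs
        rwa [hts] at this
  have e3 := h4 T hTm
  have e4 := h4' T hTm
  have e5 : dist (f^[T] z) (f^[T] z') < ε₁ := by
    have := dist_triangle (f^[T] z) (f^[T] ζ) (f^[T] z')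
    rw [dist_comm (f^[T] z) (f^[T] ζ)] at this
    linarith
  have g1 := hu _ (hA z hz T) _ (hA x hx t) (e1.trans_le hε)
  have g2 := hu _ (hA z hz T) _ (hA z' hz' T) e5
  have g3 := hu _ (hA z' hz' T) _ (hA x' hx' t) (e2.trans_le hε)
  have g4 := dist_triangle (h (f^[t] x)) (h (f^[T] z)) (h (f^[t] x'))
  have g5 := dist_triangle (h (f^[T] z)) (h (f^[T] z')) (h (f^[t] x'))
  rw [dist_comm (h (f^[t] x)) (h (f^[T] z))] at g4
  linarith

end CsbM

open CsbM

theorem specCsb (hPsb : SpecPsb.{u}) : SpecCsb.{u, v} := by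
  classical
  intro X _ _ f U Y _ g h y ρ εB hs hT htr F hy hρ hεB
  obtain ⟨ε₁, hε₁, hu⟩ := F.unif (isClosed_att hT) (ε := εB / 4) (by positivity)
  have hε : 0 < min (ρ / 4) ε₁ := lt_min (by positivity) hε₁
  have hεA : 0 < min (ρ / 4) (ε₁ / 2) := lt_min (by positivity) (by positivity)
  obtain ⟨l, hl, hins⟩ := hPsb X f U y (min (ρ / 4) ε₁) hs hT htr hy hε
  have hA : ∀ x ∈ Att f U, ∀ t : ℕ, f^[t] x ∈ Att f U := by
    intro x hx t
    have := att_ev hT hx t
    rwa [ev_nat] at this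
  set ε := min (ρ / 4) ε₁ with hεdef
  set εA := min (ρ / 4) (ε₁ / 2) with hεAdef
  refine ⟨l, hl, εA, hεA, fun K m m' S hK hSA hsep hI => ?_⟩
  have hI' : ∀ x, ∃ I : Finset ℕ, x ∈ S → (m' ≤ I.card ∧ (∀ i ∈ I, i < m) ∧
      ∀ i ∈ I, ∀ s < K, ρ ≤ dist (f^[i * K + s] x) y) := by
    intro x
    by_cases hx : x ∈ S
    · obtain ⟨I, hI⟩ := hI x hx
      exact ⟨I, fun _ => hI⟩
    · exact ⟨∅, fun hx' => absurd hx' hx⟩
  choose I hIp using hI'
  have hZ' : ∀ (x : X) (J : Fin m → ℕ), ∃ z, x ∈ S → J ∈ box K m (I x) → (z ∈ Att f U ∧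
      (∀ i < m, ∃ r < l, dist (f^[i * (K + l) + ext J i + r] z) y < ε) ∧
      (∀ i < m, ∀ s < ext J i, dist (f^[i * (K + l) + s] z) (f^[i * K + s] x) < ε) ∧
      (∀ i < m, ∀ s, ext J i ≤ s → s < K →
        dist (f^[i * (K + l) + s + l] z) (f^[i * K + s] x) < ε)) := by
    intro x J
    by_cases hx : x ∈ S
    · by_cases hJ : J ∈ box K m (I x)
      · have hJK : ∀ i < m, ext J i < K := by
          intro i hi
          rw [ext_lt J hi]
          rw [mem_box] at hJ
          have h1 := hJ ⟨i, hi⟩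
          by_cases hiI : i ∈ I x
          · exact h1.1 hiI
          · rw [h1.2 hiI]
            exact hK
        obtain ⟨z, hz, hz'⟩ := hins K m (ext J) hJK x (hSA hx)
        exact ⟨z, fun _ _ => ⟨hz, hz'⟩⟩
      · exact ⟨y, fun _ h => absurd h hJ⟩
    · exact ⟨y, fun h => absurd h hx⟩
  choose Z hZ using hZ'
  set P : Finset (Σ _ : X, (Fin m → ℕ)) := S.sigma fun x => box K m (I x) with hP
  obtain ⟨S', hS'W, hS'sep, hS'⟩ := exists_max_sep (⇑f) (m * (K + l)) hεA
    (P.image fun p => Z p.1 p.2)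
  have hcode' : ∀ p : (Σ _ : X, (Fin m → ℕ)), ∃ ζ, p ∈ P → (ζ ∈ S' ∧
      ∀ t < m * (K + l), dist (f^[t] ζ) (f^[t] (Z p.1 p.2)) < εA) := by
    intro p
    by_cases hp : p ∈ P
    · obtain ⟨ζ, hζ, hζ'⟩ := hS' _ (Finset.mem_image_of_mem (fun p => Z p.1 p.2) hp)
      exact ⟨ζ, fun _ => ⟨hζ, hζ'⟩⟩
    · exact ⟨y, fun h => absurd h hp⟩
  choose ζ hζ using hcode'
  refine ⟨S', ?_, hS'sep, ?_⟩
  · intro z hz
    have h1 := hS'W hz
    rw [Finset.mem_image] at h1
    obtain ⟨p, hp, rfl⟩ := h1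
    rw [hP, Finset.mem_sigma] at hp
    exact (hZ p.1 p.2 hp.1 hp.2).1
  · have hPcard : S.card * K ^ m' ≤ P.card := by
      rw [hP, Finset.card_sigma, ← smul_eq_mul, ← Finset.sum_const]
      refine Finset.sum_le_sum fun x hx => ?_
      exact card_box hK (hIp x hx).1 (hIp x hx).2.1
    refine hPcard.trans ?_
    have hQ : (S' ×ˢ Fintype.piFinset (fun _ : Fin m => Finset.range (2 * l))).card =
        S'.card * (2 * l) ^ m := by
      rw [Finset.card_product, Fintype.card_piFinset]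
      simp
    rw [← hQ]
    set code : (Σ _ : X, (Fin m → ℕ)) → X × (Fin m → ℕ) := fun p =>
      (ζ p, fun i => if (i : ℕ) ∈ I p.1 then
        tau (⇑f) y (ρ / 2) (K + l) (i : ℕ) (ζ p) - p.2 i else l) with hcodedef
    have htau : ∀ p ∈ P, ∀ i : Fin m, (i : ℕ) ∈ I p.1 →
        p.2 i ≤ tau (⇑f) y (ρ / 2) (K + l) (i : ℕ) (ζ p) ∧
          tau (⇑f) y (ρ / 2) (K + l) (i : ℕ) (ζ p) < p.2 i + l := by
      intro p hp i hi
      have hp' := hp
      rw [hP, Finset.mem_sigma] at hp'
      obtain ⟨q1, q2, q3, q4⟩ := hZ p.1 p.2 hp'.1 hp'.2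
      obtain ⟨r, hr, hr'⟩ := q2 i i.2
      have e1 : ext p.2 (i : ℕ) = p.2 i := by
        rw [ext_lt _ i.2]
      rw [e1] at hr'
      have q5 := q3 i i.2
      rw [e1] at q5
      exact tau_bounds i.2 ((mem_box.1 hp'.2 i).1 hi) hr (min_le_left _ _) (min_le_left _ _)
        hr' q5 ((hIp p.1 hp'.1).2.2 i hi) (hζ p hp).2
    refine Finset.card_le_card_of_injOn code ?_ ?_
    · intro p hp
      have hp1 : p ∈ P := hp
      rw [Finset.mem_coe, Finset.mem_product]
      refine ⟨(hζ p hp1).1, ?_⟩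
      rw [Fintype.mem_piFinset]
      intro i
      rw [Finset.mem_range]
      simp only [hcodedef]
      split_ifs with hi
      · have := htau p hp1 i hi
        omega
      · omega
    · intro p hp p' hp' hpp
      have hp1 : p ∈ P := hp
      have hp1' : p' ∈ P := hp'
      have hζeq : ζ p = ζ p' := (Prod.ext_iff.1 hpp).1
      have hc : ∀ i : Fin m, (if (i : ℕ) ∈ I p.1 then
          tau (⇑f) y (ρ / 2) (K + l) (i : ℕ) (ζ p) - p.2 i else l) =
          (if (i : ℕ) ∈ I p'.1 then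
            tau (⇑f) y (ρ / 2) (K + l) (i : ℕ) (ζ p') - p'.2 i else l) := fun i =>
        congrFun (Prod.ext_iff.1 hpp).2 i
      have hp2 := hp1
      rw [hP, Finset.mem_sigma] at hp2
      have hp2' := hp1'
      rw [hP, Finset.mem_sigma] at hp2'
      have hJ : p.2 = p'.2 := by
        funext i
        have h1 := hc i
        by_cases hi : (i : ℕ) ∈ I p.1
        · have h2 := htau p hp1 i hi
          rw [if_pos hi] at h1
          by_cases hi' : (i : ℕ) ∈ I p'.1
          · have h3 := htau p' hp1' i hi'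
            rw [if_pos hi', ← hζeq] at h1
            rw [← hζeq] at h3
            omega
          · rw [if_neg hi'] at h1
            omega
        · rw [if_neg hi] at h1
          by_cases hi' : (i : ℕ) ∈ I p'.1
          · have h3 := htau p' hp1' i hi'
            rw [if_pos hi'] at h1
            omega
          · rw [(mem_box.1 hp2.2 i).2 hi, (mem_box.1 hp2'.2 i).2 hi']
      obtain ⟨x, J⟩ := p
      obtain ⟨x', J'⟩ := p'
      simp only at hJ
      subst hJ
      obtain ⟨q1, q2, q3, q4⟩ := hZ x J hp2.1 hp2.2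
      obtain ⟨q1', q2', q3', q4'⟩ := hZ x' J hp2'.1 hp2'.2
      have h4 := (hζ _ hp1).2
      have h4' := (hζ _ hp1').2
      rw [← hζeq] at h4'
      have hclose := close_of hA hu hεB (min_le_right _ _) (min_le_right _ _) (hSA hp2.1)
        (hSA hp2'.1) q1 q1' q3 q4 q3' q4' h4 h4'
      have hxx : x = x' := hsep x hp2.1 x' hp2'.1 hclose
      subst hxx
      rfl

end Pool.Agent.Lib.MP610fe3.FT
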