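import Pool.Agent.Lib.MP_610fe3_an.TC.Stp
import Pool.Agent.Lib.MP_610fe3_an.TD.Final
import Pool.Agent.Lib.MP_610fe3_an.EQ.Final

/-!
# The factor theorem: definitions and simple facts

`A` is the attractor of a trapping region of an Anosov diffeomorphism, `h` a semiconjugacy of `A`
to an expansive homeomorphism `g`.
-/

open Set Filter Function
open scoped Topology

namespace Pool.Agent.Lib.MP610fe3.FT

open TM N3

/-- The standing hypotheses on `f`: hyperbolicity, expansivity, shadowing, chains in the local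
sets, and local sets are locally connected in the sense that close points are contained in small
continua. -/
structure Base {X : Type*} [MetricSpace X] (f : X ≃ₜ X) (e C a c : ℝ) : Prop where
  rates : ∀ U : Set X, Rates f U e C a a a
  c0 : 0 < c
  exp : ExpConst f c
  shad : Shadowing f
  reach : ∃ e₁ : ℝ, 0 < e₁ ∧ Reaches₀ f e₁ ∧ Reaches₀ f.symm e₁
  plaq : ∀ η : ℝ, 0 < η → ∃ r : ℝ, 0 < r ∧ ∀ x : X, ∀ y ∈ Sp f.symm r x, ∃ K : Set X,
    IsCompact K ∧ IsConnected K ∧ x ∈ K ∧ y ∈ K ∧ ∀ z ∈ K, z ∈ Sp f.symm η x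

/-- `h` is a semiconjugacy from the restriction of `f` to `A` to `g`. -/
structure Fac {X : Type*} [MetricSpace X] (f : X ≃ₜ X) (A : Set X) {Y : Type*} [MetricSpace Y]
    (g : Y ≃ₜ Y) (h : X → Y) : Prop where
  cont : ContinuousOn h A
  eq : ∀ x ∈ A, h (f x) = g (h x)

/-- Topological transitivity of `f` on the invariant set `A`. -/
def TransOn {X : Type*} [TopologicalSpace X] (f : X → X) (A : Set X) : Prop :=
  ∀ V W : Set X, IsOpen V → IsOpen W → (V ∩ A).Nonempty → (W ∩ A).Nonempty →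
    ∃ n : ℕ, ∃ z ∈ V ∩ A, f^[n] z ∈ W

/-- There is a `δ`-chain of length `m` from `x` to `y` inside `A`. -/
def ChOn {X : Type*} [MetricSpace X] (f : X → X) (A : Set X) (δ : ℝ) (m : ℕ) (x y : X) : Prop :=
  ∃ s : ℕ → X, s 0 = x ∧ s m = y ∧ (∀ i ≤ m, s i ∈ A) ∧ ∀ i < m, dist (f (s i)) (s (i + 1)) < δ

/-- The pair `(y, w)` is a diamond: two points of `A` with the same image, asymptotic in the future
and in the past. -/
structure Diam {X : Type*} [MetricSpace X] (f : X ≃ₜ X) (A : Set X) {Y : Type*} (h : X → Y)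
    (y w : X) : Prop where
  y_mem : y ∈ A
  w_mem : w ∈ A
  ne : y ≠ w
  eq : h y = h w
  fwd : FwdAsymp f y w
  bwd : FwdAsymp f.symm y w

/-- The finite set `S` is separated by the scale `ε` up to time `n`. -/
def Sep {X : Type*} [MetricSpace X] (f : X → X) (n : ℕ) (ε : ℝ) (S : Finset X) : Prop :=
  ∀ x ∈ S, ∀ y ∈ S, (∀ t < n, dist (f^[t] x) (f^[t] y) < ε) → x = y

variable {X : Type*} [MetricSpace X] {f : X ≃ₜ X} {A U : Set X} {Y : Type*} [MetricSpace Y]
  {g : Y ≃ₜ Y} {h : X → Y} {e C a c : ℝ}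

theorem Fac.ev (F : Fac f A g h) (hA : ∀ x ∈ A, ∀ k : ℤ, ev f k x ∈ A) {x : X} (hx : x ∈ A)
    (k : ℤ) : h (TM.ev f k x) = TM.ev g k (h x) := by
  have key : ∀ (n : ℕ), ∀ x ∈ A, h (TM.ev f n x) = TM.ev g n (h x) := by
    intro n
    induction n with
    | zero => intro x _; simp
    | succ n ih =>
      intro x hx
      have e1 : TM.ev f ((n + 1 : ℕ) : ℤ) x = f (TM.ev f n x) := by
        rw [Nat.cast_succ, add_comm, ev_add, ev_one]
      have e2 : TM.ev g ((n + 1 : ℕ) : ℤ) (h x) = g (TM.ev g n (h x)) := by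
        rw [Nat.cast_succ, add_comm, ev_add, ev_one]
      rw [e1, e2, F.eq _ (hA x hx n), ih x hx]
  rcases Int.eq_nat_or_neg k with ⟨n, rfl | rfl⟩
  · exact key n x hx
  · have h1 := key n _ (hA x hx (-n))
    rw [ev_ev_neg] at h1
    rw [h1, ev_neg_ev]

theorem exp_ev (hc : ExpConst g c) {u v : Y} (huv : ∀ n : ℤ, dist (ev g n u) (ev g n v) ≤ c) :
    u = v := by
  apply hc
  · intro k
    have := huv k
    rwa [ev_nat, ev_nat] at this
  · intro k
    have := huv (-k)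
    rwa [ev_neg_nat, ev_neg_nat] at this

theorem isClosed_att (hT : Trap f U) : IsClosed (Att f U) := by
  have h1 : Att f U = ⋂ n : ℕ, ev f (-(n : ℤ)) ⁻¹' closure U := by
    ext x
    simp only [Att, mem_ofPred_eq, mem_iInter, mem_preimage]
    constructor
    · exact fun h n => subset_closure (h n)
    · intro h n
      have h2 := hT.maps _ (h (n + 1))
      rwa [← ev_one (f := f), ← ev_add, show (1 : ℤ) + -((n + 1 : ℕ) : ℤ) = -(n : ℤ) by
        push_cast; ring] at h2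
  rw [h1]
  exact isClosed_iInter fun n => isClosed_closure.preimage (continuous_ev _)

/-- Uniform continuity of a map on a compact set. -/
theorem Fac.unif [CompactSpace X] (F : Fac f A g h) (hA : IsClosed A) {ε : ℝ} (hε : 0 < ε) :
    ∃ δ : ℝ, 0 < δ ∧ ∀ x ∈ A, ∀ y ∈ A, dist x y < δ → dist (h x) (h y) < ε := by
  have h1 := hA.isCompact.uniformContinuousOn_of_continuous F.cont
  rw [Metric.uniformContinuousOn_iff] at h1
  exact h1 ε hε

/-- Points whose past orbit stays close to the attractor belong to the attractor. -/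
theorem exists_near_att [CompactSpace X] (hT : Trap f U) :
    ∃ ε : ℝ, 0 < ε ∧ ∀ z : X, (∀ n : ℕ, ∃ x ∈ Att f U, dist (ev f (-(n : ℤ)) z) x < ε) →
      z ∈ Att f U := by
  obtain ⟨δ, hδ, hd⟩ := (isClosed_att hT).isCompact.exists_thickening_subset_open hT.isOpen
    (fun x hx => att_sub hx)
  refine ⟨δ, hδ, fun z hz n => ?_⟩
  obtain ⟨x, hx, hzx⟩ := hz n
  exact hd (Metric.mem_thickening_iff.2 ⟨x, hx, hzx⟩)

theorem ev_succ (t : ℤ) (x : X) : ev f (t + 1) x = f (ev f t x) := by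
  rw [add_comm, ev_add, ev_one]

/-- Shadowing in terms of `ev`. -/
theorem shad_ev [CompactSpace X] (hs : Shadowing f) {ε : ℝ} (hε : 0 < ε) : ∃ δ : ℝ, 0 < δ ∧ ∀ P : ℤ → X,
    (∀ t, dist (f (P t)) (P (t + 1)) < δ) → ∃ z : X, ∀ t : ℤ, dist (ev f t z) (P t) < ε := by
  obtain ⟨δ, hδ, H⟩ := hs ε hε
  refine ⟨δ, hδ, fun P hP => ?_⟩
  obtain ⟨y, hy, hd⟩ := H P hP
  refine ⟨y 0, fun t => ?_⟩
  have e1 : ev f t (y 0) = y t := by
    rcases Int.eq_nat_or_neg t with ⟨n, rfl | rfl⟩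
    · rw [ev_nat, iterate_of_orbit hy 0 n, zero_add]
    · rw [ev_neg_nat, symm_iterate_of_orbit hy 0 n, zero_sub]
  rw [e1]
  exact hd t

/-- Shadowing inside an attractor. -/
theorem shad_att [CompactSpace X] (hs : Shadowing f) (hT : Trap f U) {ε : ℝ} (hε : 0 < ε) :
    ∃ δ : ℝ, 0 < δ ∧ ∀ P : ℤ → X, (∀ t, P t ∈ Att f U) →
      (∀ t, dist (f (P t)) (P (t + 1)) < δ) →
      ∃ z ∈ Att f U, ∀ t : ℤ, dist (ev f t z) (P t) < ε := by
  obtain ⟨ε₁, hε₁, hn⟩ := exists_near_att hT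
  obtain ⟨δ, hδ, H⟩ := shad_ev hs (lt_min hε hε₁)
  refine ⟨δ, hδ, fun P hPA hP => ?_⟩
  obtain ⟨z, hz⟩ := H P hP
  refine ⟨z, hn z fun n => ⟨P (-n), hPA _, (hz _).trans_le (min_le_right _ _)⟩, fun t => ?_⟩
  exact (hz t).trans_le (min_le_left _ _)

end Pool.Agent.Lib.MP610fe3.FT
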