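import Pool.Agent.Lib.MP_610fe3_an.FT.Spec

/-!
# Module DIA: a collapsed continuum gives a diamond
-/

open Set Filter Function
open scoped Topology

namespace Pool.Agent.Lib.MP610fe3.FT

open TM N3

universe u v

theorem specDia (hChs : SpecChs.{u}) : SpecDia.{u, v} := by
  intro X _ _ f U e C a c Y _ g c' h E c₁ K B hT hc' hexp F hE hc₁ hK hconst
  have R : Rates f U e C a a a := B.rates U
  have hA : ∀ x ∈ Att f U, ∀ k : ℤ, TM.ev f k x ∈ Att f U := fun x hx k => att_ev hT hx k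
  obtain ⟨δu, hδu, hunif⟩ := F.unif (isClosed_att hT) hc'
  obtain ⟨ε₃, hε₃, hε₃e, hε₃u⟩ : ∃ ε₃ : ℝ, 0 < ε₃ ∧ ε₃ ≤ e ∧ ε₃ < δu :=
    ⟨min e (δu / 2), lt_min R.e0 (half_pos hδu), min_le_left _ _,
      (min_le_right _ _).trans_lt (half_lt_self hδu)⟩
  obtain ⟨δ, hδ, hbr⟩ := R.br ε₃ hε₃
  obtain ⟨Q, hQ⟩ := hChs X δ hδ
  obtain ⟨k₁, hk₁, k₂, hk₂, hbig⟩ := hK.big
  -- the claim
  obtain ⟨n, k, hk, k', hk', hd, hns⟩ : ∃ n : ℕ, ∃ k ∈ K, ∃ k' ∈ K,
      dist (TM.ev f n k') (TM.ev f n k) < δ ∧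
        TM.ev f n k' ∉ Sp f.symm ε₃ (TM.ev f n k) := by
    by_contra hcon
    push Not at hcon
    have hbound : ∀ n : ℕ, c₁ ≤ Q * (C * ε₃) * Real.exp (-(a * n)) := by
      intro n
      have hpre : IsPreconnected (TM.ev f n '' K) :=
        hK.conn.isPreconnected.image _ (TM.continuous_ev _).continuousOn
      obtain ⟨j, hj, s, hs0, hsj, hsmem, hsd⟩ := hQ (TM.ev f n '' K) hpre (TM.ev f n k₁)
        ⟨k₁, hk₁, rfl⟩ (TM.ev f n k₂) ⟨k₂, hk₂, rfl⟩
      have hC := R.C1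
      have hstep : ∀ i < j, dist (TM.ev f (-(n : ℤ)) (s i)) (TM.ev f (-(n : ℤ)) (s (i + 1))) ≤
          (C * ε₃) * Real.exp (-(a * n)) := by
        intro i hi
        obtain ⟨u, hu, hus⟩ := hsmem i hi.le
        obtain ⟨u', hu', hus'⟩ := hsmem (i + 1) hi
        have h1 : dist (TM.ev f n u') (TM.ev f n u) < δ := by
          rw [hus, hus', dist_comm]
          exact hsd i hi
        have h2 := hcon n u hu u' hu' h1
        rw [hus, hus'] at h2
        have h3 := R.un _ _ (Sp_mono hε₃e h2) n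
        have h4 := Sp_dist h2
        rw [dist_comm]
        have h5 : 0 ≤ C * Real.exp (-(a * n)) := by positivity
        calc dist (TM.ev f (-(n : ℤ)) (s (i + 1))) (TM.ev f (-(n : ℤ)) (s i))
            ≤ C * Real.exp (-(a * n)) * dist (s (i + 1)) (s i) := h3
          _ ≤ C * Real.exp (-(a * n)) * ε₃ := mul_le_mul_of_nonneg_left h4 h5
          _ = (C * ε₃) * Real.exp (-(a * n)) := by ring
      have hsum := dist_le_range_sum_dist (fun i => TM.ev f (-(n : ℤ)) (s i)) j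
      have h6 : ∑ i ∈ Finset.range j, dist (TM.ev f (-(n : ℤ)) (s i))
          (TM.ev f (-(n : ℤ)) (s (i + 1))) ≤ ∑ _i ∈ Finset.range j,
            (C * ε₃) * Real.exp (-(a * n)) :=
        Finset.sum_le_sum (fun i hi => hstep i (Finset.mem_range.1 hi))
      rw [Finset.sum_const, Finset.card_range, nsmul_eq_mul] at h6
      simp only [hs0, hsj, TM.ev_neg_ev] at hsum
      have h7 : (j : ℝ) * ((C * ε₃) * Real.exp (-(a * n))) ≤
          (Q : ℝ) * ((C * ε₃) * Real.exp (-(a * n))) := by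
        apply mul_le_mul_of_nonneg_right (by exact_mod_cast hj)
        positivity
      calc c₁ ≤ dist k₁ k₂ := hbig
        _ ≤ _ := hsum
        _ ≤ _ := h6
        _ ≤ _ := h7
        _ = _ := by ring
    have hlim : Tendsto (fun n : ℕ => Q * (C * ε₃) * Real.exp (-(a * n))) atTop (𝓝 0) := by
      have h2 : Tendsto (fun n : ℕ => a * (n : ℝ)) atTop atTop :=
        Tendsto.const_mul_atTop R.a0 tendsto_natCast_atTop_atTop
      have h3 := (Real.tendsto_exp_neg_atTop_nhds_zero.comp h2)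
      have h4 := h3.const_mul (Q * (C * ε₃))
      simpa using h4
    have h8 := ge_of_tendsto hlim (Eventually.of_forall hbound)
    linarith
  -- the diamond
  set y := TM.ev f n k' with hy
  set z := TM.ev f n k with hz
  obtain ⟨w, hwy, hwz⟩ := hbr y z hd
  have hyA : y ∈ Att f U := hA _ (hK.sub hk') n
  have hzA : z ∈ Att f U := hA _ (hK.sub hk) n
  have hwz' := Sp_mono hε₃e hwz
  have hwy' := Sp_mono hε₃e hwy
  have hwA : w ∈ Att f U := att_sat hT hzA (R.un_tendsto hwz')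
  have hyz : h y = h z := by
    rw [hy, hz, F.ev hA (hK.sub hk'), F.ev hA (hK.sub hk), hconst k' hk' k hk]
  refine ⟨y, w, hyA, hwA, ?_, ?_, ?_, ?_⟩
  · intro hyw
    exact hns (by rw [hyw]; exact hwz)
  · apply exp_ev hexp
    intro j
    rcases Int.eq_nat_or_neg j with ⟨i, rfl | rfl⟩
    · rw [← F.ev hA hyA, ← F.ev hA hwA, dist_comm]
      exact (hunif _ (hA _ hwA _) _ (hA _ hyA _) ((hwy i).trans_lt hε₃u)).le
    · rw [hyz, ← F.ev hA hzA, ← F.ev hA hwA, dist_comm]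
      exact (hunif _ (hA _ hwA _) _ (hA _ hzA _) ((mem_Sp_symm.1 hwz i).trans_lt hε₃u)).le
  · have h1 := R.st_tendsto hwy'
    refine h1.congr (fun j => ?_)
    rw [ev_nat, ev_nat, dist_comm]
  · have h1 := R.un_tendsto hwz'
    have h2 : k' ∈ Sp f.symm e k := Sp_mono hE (hK.sz k hk k' hk')
    have h3 := R.un_tendsto h2
    have h4 : Tendsto (fun j : ℕ => dist (TM.ev f (-(j : ℤ)) y) (TM.ev f (-(j : ℤ)) z)) atTop
        (𝓝 0) := by
      rw [← tendsto_add_atTop_iff_nat n]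
      refine h3.congr (fun j => ?_)
      rw [hy, hz, ← ev_add, ← ev_add]
      have h5 : -((j + n : ℕ) : ℤ) + (n : ℤ) = -(j : ℤ) := by
        push_cast
        ring
      rw [h5]
    have h6 := h4.add h1
    rw [add_zero] at h6
    refine squeeze_zero (fun _ => dist_nonneg) (fun j => ?_) h6
    rw [← ev_neg_nat, ← ev_neg_nat, dist_comm (TM.ev f (-(j : ℤ)) w)]
    exact dist_triangle _ _ _

end Pool.Agent.Lib.MP610fe3.FT
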