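import Pool.Agent.Lib.MP_610fe3_an.FT.Spec

/-!
# FT, module DIC: the dichotomy
-/

set_option autoImplicit false

open Set Filter Function
open scoped Topology

namespace Pool.Agent.Lib.MP610fe3.FT

open TM N3

universe u v

namespace DICM

/-- one of the two parity classes is large -/
theorem parity (V : Finset ℕ) : ∃ W ⊆ V, V.card / 2 ≤ W.card ∧
    ∀ i ∈ W, ∀ j ∈ W, i < j → i + 2 ≤ j := by
  have h1 : (V.filter fun i => i % 2 = 0).card + (V.filter fun i => ¬ i % 2 = 0).card = V.card :=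
    Finset.card_filter_add_card_filter_not _
  rcases le_total (V.filter fun i => i % 2 = 0).card (V.filter fun i => ¬ i % 2 = 0).card with h | h
  · refine ⟨V.filter fun i => ¬ i % 2 = 0, Finset.filter_subset _ _, by omega, ?_⟩
    intro i hi j hj hij
    rw [Finset.mem_filter] at hi hj
    omega
  · refine ⟨V.filter fun i => i % 2 = 0, Finset.filter_subset _ _, by omega, ?_⟩
    intro i hi j hj hij
    rw [Finset.mem_filter] at hi hj
    omega

/-- passage times in the blocks -/
theorem times {P : ℕ → Prop} {K m N : ℕ} (hK : 2 * N + 1 ≤ K) (V : Finset ℕ)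
    (hV : ∀ i ∈ V, i < m ∧ ∃ s < K, P (i * K + s)) :
    ∃ T : Finset ℕ, V.card / 2 ≤ T.card ∧ (∀ t ∈ T, t < m * K ∧ P t) ∧
      ∀ s ∈ T, ∀ t ∈ T, s < t → s + 2 * N ≤ t := by
  classical
  obtain ⟨W, hWV, hW, hgap⟩ := parity V
  have h1 : ∀ i : ℕ, ∃ s : ℕ, i ∈ V → s < K ∧ P (i * K + s) := by
    intro i
    by_cases hi : i ∈ V
    · obtain ⟨s, h2, h3⟩ := (hV i hi).2
      exact ⟨s, fun _ => ⟨h2, h3⟩⟩
    · exact ⟨0, fun h => absurd h hi⟩
  choose s hs using h1
  have hlt : ∀ i ∈ W, ∀ j, i < j → i * K + s i < j * K := by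
    intro i hi j hij
    have h2 := (hs i (hWV hi)).1
    have h3 : (i + 1) * K ≤ j * K := Nat.mul_le_mul_right _ hij
    rw [Nat.add_mul, one_mul] at h3
    omega
  have hinj : Set.InjOn (fun i => i * K + s i) (W : Set ℕ) := by
    intro i hi j hj hij
    have hij' : i * K + s i = j * K + s j := hij
    rcases lt_trichotomy i j with h2 | h2 | h2
    · have := hlt i hi j h2
      omega
    · exact h2
    · have := hlt j hj i h2
      omega
  refine ⟨W.image fun i => i * K + s i, ?_, ?_, ?_⟩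
  · rw [Finset.card_image_of_injOn hinj]
    exact hW
  · intro t ht
    obtain ⟨i, hi, rfl⟩ := Finset.mem_image.1 ht
    exact ⟨hlt i hi m (hV i (hWV hi)).1, (hs i (hWV hi)).2⟩
  · intro a ha b hb hab
    obtain ⟨i, hi, rfl⟩ := Finset.mem_image.1 ha
    obtain ⟨j, hj, rfl⟩ := Finset.mem_image.1 hb
    have hij : i < j := by
      rcases lt_trichotomy i j with h2 | h2 | h2
      · exact h2
      · subst h2
        exact absurd hab (lt_irrefl _)
      · have := hlt j hj i h2
        omega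
    have h3 := hgap i hi j hj hij
    have h4 : (i + 2) * K ≤ j * K := Nat.mul_le_mul_right _ h3
    rw [Nat.add_mul] at h4
    have h5 := (hs i (hWV hi)).1
    omega

end DICM

open DICM in
theorem specDic (hCsa : SpecCsa.{u, v}) (hCsb : SpecCsb.{u, v}) : SpecDic.{u, v} := by
  classical
  intro X _ _ f U Y _ g h y w εB hs hT hTr F D hεB
  obtain ⟨N, hN, ρ, hρ, εA₁, hεA₁, HA⟩ := hCsa X f U Y g h y w εB hs hT F D hεB
  obtain ⟨l, hl, εA₂, hεA₂, HB⟩ := hCsb X f U Y g h y ρ εB hs hT hTr F D.y_mem hρ hεB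
  refine ⟨l, 2 * N + 1, hl, min εA₁ εA₂, lt_min hεA₁ hεA₂, ?_⟩
  intro K m T hK hK0 hTsub hTsep
  -- the lift
  have hlift : ∀ u : Y, ∃ x : X, u ∈ T → x ∈ Att f U ∧ h x = u := by
    intro u
    by_cases hu : u ∈ T
    · obtain ⟨x, h1, h2⟩ := hTsub hu
      exact ⟨x, fun _ => ⟨h1, h2⟩⟩
    · exact ⟨y, fun h => absurd h hu⟩
  choose L hL using hlift
  have hLinj : Set.InjOn L (T : Set Y) := by
    intro u hu u' hu' he
    rw [← (hL u hu).2, ← (hL u' hu').2, he]
  have hScard : (T.image L).card = T.card := Finset.card_image_of_injOn hLinj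
  have hSA : ∀ x ∈ T.image L, x ∈ Att f U := by
    intro x hx
    obtain ⟨u, hu, rfl⟩ := Finset.mem_image.1 hx
    exact (hL u hu).1
  have hF : ∀ x ∈ Att f U, ∀ t : ℕ, h (f^[t] x) = g^[t] (h x) := by
    intro x hx t
    have h1 := F.ev (fun x hx k => att_ev hT hx k) hx (t : ℤ)
    rwa [ev_nat, ev_nat] at h1
  have hSsep : ∀ x ∈ T.image L, ∀ x' ∈ T.image L,
      (∀ t < m * K, dist (h (f^[t] x)) (h (f^[t] x')) < εB) → x = x' := by
    intro x hx x' hx' hd
    obtain ⟨u, hu, rfl⟩ := Finset.mem_image.1 hx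
    obtain ⟨u', hu', rfl⟩ := Finset.mem_image.1 hx'
    have h1 : u = u' := by
      refine hTsep u hu u' hu' fun t ht => ?_
      have h2 := hd t ht
      rw [hF _ (hL u hu).1, hF _ (hL u' hu').1, (hL u hu).2, (hL u' hu').2] at h2
      exact h2
    rw [h1]
  generalize hSdef : T.image L = S at *
  let V : X → Finset ℕ := fun x => (Finset.range m).filter fun i =>
    ∃ s < K, dist (f^[i * K + s] x) y < ρ
  have hVm : ∀ x, ∀ i ∈ V x, i < m ∧ ∃ s < K, dist (f^[i * K + s] x) y < ρ := by
    intro x i hi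
    rw [Finset.mem_filter, Finset.mem_range] at hi
    exact hi
  have hsum : (S.filter fun x => m / 2 ≤ (V x).card).card +
      (S.filter fun x => ¬ m / 2 ≤ (V x).card).card = S.card :=
    Finset.card_filter_add_card_filter_not _
  rcases le_or_gt S.card (2 * (S.filter fun x => m / 2 ≤ (V x).card).card) with hc | hc
  · obtain ⟨S', h1, h2, h3⟩ := HA (m * K) (m / 4) (S.filter fun x => m / 2 ≤ (V x).card)
      (fun x hx => hSA x (Finset.mem_filter.1 hx).1)
      (fun x hx x' hx' => hSsep x (Finset.mem_filter.1 hx).1 x' (Finset.mem_filter.1 hx').1)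
      (fun x hx => by
        have hcx := (Finset.mem_filter.1 hx).2
        obtain ⟨T', h4, h5, h6⟩ := times (P := fun t => dist (f^[t] x) y < ρ) hK (V x) (hVm x)
        exact ⟨T', by omega, h5, h6⟩)
    refine ⟨S', h1, Or.inl ⟨?_, ?_⟩⟩
    · intro x hx x' hx' hd
      exact h2 x hx x' hx' fun t ht => (hd t ht).trans_le (min_le_left _ _)
    · rw [← hScard]
      calc S.card * 2 ^ (m / 4)
          ≤ 2 * (S.filter fun x => m / 2 ≤ (V x).card).card * 2 ^ (m / 4) :=
            Nat.mul_le_mul_right _ hc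
        _ = 2 * ((S.filter fun x => m / 2 ≤ (V x).card).card * 2 ^ (m / 4)) := mul_assoc _ _ _
        _ ≤ 2 * S'.card := Nat.mul_le_mul_left _ h3
  · obtain ⟨S', h1, h2, h3⟩ := HB K m (m / 2) (S.filter fun x => ¬ m / 2 ≤ (V x).card) hK0
      (fun x hx => hSA x (Finset.mem_filter.1 hx).1)
      (fun x hx x' hx' => hSsep x (Finset.mem_filter.1 hx).1 x' (Finset.mem_filter.1 hx').1)
      (fun x hx => by
        have hcx := (Finset.mem_filter.1 hx).2
        refine ⟨Finset.range m \ V x, ?_, ?_, ?_⟩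
        · have h4 := Finset.le_card_sdiff (V x) (Finset.range m)
          rw [Finset.card_range] at h4
          omega
        · intro i hi
          exact Finset.mem_range.1 (Finset.mem_sdiff.1 hi).1
        · intro i hi s hs'
          rw [Finset.mem_sdiff, Finset.mem_filter, Finset.mem_range] at hi
          by_contra hcon
          push Not at hcon
          exact hi.2 ⟨hi.1, s, hs', hcon⟩)
    refine ⟨S', h1, Or.inr ⟨?_, ?_⟩⟩
    · intro x hx x' hx' hd
      exact h2 x hx x' hx' fun t ht => (hd t ht).trans_le (min_le_right _ _)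
    · rw [← hScard]
      have hc2 : S.card ≤ 2 * (S.filter fun x => ¬ m / 2 ≤ (V x).card).card := by omega
      calc S.card * K ^ (m / 2)
          ≤ 2 * (S.filter fun x => ¬ m / 2 ≤ (V x).card).card * K ^ (m / 2) :=
            Nat.mul_le_mul_right _ hc2
        _ = 2 * ((S.filter fun x => ¬ m / 2 ≤ (V x).card).card * K ^ (m / 2)) := mul_assoc _ _ _
        _ ≤ 2 * (S'.card * (2 * l) ^ m) := Nat.mul_le_mul_left _ h3
        _ = 2 * S'.card * (2 * l) ^ m := (mul_assoc _ _ _).symm

end Pool.Agent.Lib.MP610fe3.FT
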