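import Pool.Agent.Lib.MP_610fe3_an.FT.Spec

/-!
# The factor theorem: module DNS (helper68), collapsed continua are dense
-/

open Set Filter Function
open scoped Topology

namespace Pool.Agent.Lib.MP610fe3.FT

open TM N3

universe u v

namespace DNSM

theorem small {C a E η : ℝ} (ha : 0 < a) (hη : 0 < η) :
    ∃ n : ℕ, C * Real.exp (-(a * n)) * E < η := by
  have h2 : Tendsto (fun n : ℕ => a * (n : ℝ)) atTop atTop :=
    Tendsto.const_mul_atTop ha tendsto_natCast_atTop_atTop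
  have h3 := (Real.tendsto_exp_neg_atTop_nhds_zero.comp h2)
  have h4 : Tendsto (fun n : ℕ => C * Real.exp (-(a * n)) * E) atTop (𝓝 (C * 0 * E)) :=
    (h3.const_mul C).mul_const E
  rw [mul_zero, zero_mul] at h4
  exact (h4.eventually (gt_mem_nhds hη)).exists

variable {X : Type u} [MetricSpace X] [CompactSpace X] {f : X ≃ₜ X} {U : Set X}
  {e C a c c' ε₃ : ℝ} {Y : Type v} [MetricSpace Y] {g : Y ≃ₜ Y} {h : X → Y}

/-- transport of a collapsed continuum to a nearby local unstable set -/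
theorem transport (R : Rates f U e C a a a) (hT : Trap f U) (hg : ExpConst g c')
    (F : Fac f (Att f U) g h) (hε₃ : 0 < ε₃) (he : 8 * ε₃ ≤ e)
    (hF : ∀ x ∈ Att f U, ∀ y ∈ Att f U, dist x y ≤ ε₃ → dist (h x) (h y) < c' / 2)
    {K₀ : Set X} (hc : IsCompact K₀) (hconn : IsConnected K₀) (hsub : K₀ ⊆ Att f U)
    (hsz : ∀ x ∈ K₀, ∀ y ∈ K₀, y ∈ Sp f.symm ε₃ x) (hnt : K₀.Nontrivial)
    (hh : ∀ x ∈ K₀, ∀ y ∈ K₀, h x = h y) {v : X} (hv : v ∈ Att f U)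
    (hbr : ∀ k ∈ K₀, ∃ z, z ∈ Sp f ε₃ k ∧ z ∈ Sp f.symm ε₃ v) :
    ∃ K₁ : Set X, IsCompact K₁ ∧ IsConnected K₁ ∧ K₁.Nontrivial ∧ K₁ ⊆ Att f U ∧
      (∀ y ∈ K₁, y ∈ Sp f.symm ε₃ v) ∧ ∀ y ∈ K₁, ∀ z ∈ K₁, h y = h z := by
  classical
  have hb' : ∀ k, ∃ z, k ∈ K₀ → z ∈ Sp f ε₃ k ∧ z ∈ Sp f.symm ε₃ v := by
    intro k
    by_cases hk : k ∈ K₀
    · obtain ⟨z, hz⟩ := hbr k hk
      exact ⟨z, fun _ => hz⟩
    · exact ⟨k, fun h => absurd h hk⟩
  choose b hb using hb'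
  have hcont : ContinuousOn b K₀ := by
    intro y hy
    refine (tendsto_iff_ultrafilter _ _ _).2 fun G hG => ?_
    obtain ⟨hG1, hG2⟩ := le_inf_iff.1 hG
    have hGK : ∀ᶠ x in (G : Filter X), x ∈ K₀ := hG2 (mem_principal_self K₀)
    obtain ⟨z, -, hz⟩ := isCompact_univ.ultrafilter_le_nhds (G.map b) (by simp)
    have hz' : Tendsto b G (𝓝 z) := hz
    have h1 : z ∈ Sp f ε₃ y := by
      have h2 : Tendsto (fun x : X => x) G (𝓝 y) := hG1
      exact (isClosed_rel f ε₃).mem_of_tendsto (h2.prodMk_nhds hz')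
        (hGK.mono fun x hx => (hb x hx).1)
    have h2 : z ∈ Sp f.symm ε₃ v :=
      (isClosed_Sp f.symm ε₃ v).mem_of_tendsto hz' (hGK.mono fun x hx => (hb x hx).2)
    have h3 : z = b y := EQ.uni R
      (Sp_mono (ε := ε₃ + ε₃) (by linarith) (Sp_trans (Sp_comm (hb y hy).1) h1))
      (Sp_mono (ε := ε₃ + ε₃) (by linarith) (Sp_trans (Sp_comm (hb y hy).2) h2))
    rw [← h3]
    exact hz'
  have hA : ∀ k ∈ K₀, b k ∈ Att f U := fun k hk =>
    att_sat hT hv (R.un_tendsto (Sp_mono (by linarith) (hb k hk).2))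
  have hev : ∀ x ∈ Att f U, ∀ n : ℤ, h (ev f n x) = ev g n (h x) := fun x hx n =>
    F.ev (fun x hx k => att_ev hT hx k) hx n
  refine ⟨b '' K₀, hc.image_of_continuousOn hcont, hconn.image _ hcont, ?_, ?_, ?_, ?_⟩
  · obtain ⟨x, hx, y, hy, hxy⟩ := hnt
    refine ⟨b x, ⟨x, hx, rfl⟩, b y, ⟨y, hy, rfl⟩, fun hbb => hxy ?_⟩
    have h1 := Sp_comm (hb y hy).1
    rw [← hbb] at h1
    exact (EQ.uni R (Sp_mono (ε := ε₃ + ε₃) (by linarith) (Sp_trans (hb x hx).1 h1))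
      (Sp_mono (by linarith) (hsz x hx y hy))).symm
  · rintro _ ⟨k, hk, rfl⟩
    exact hA k hk
  · rintro _ ⟨k, hk, rfl⟩
    exact (hb k hk).2
  · rintro _ ⟨k, hk, rfl⟩ _ ⟨k', hk', rfl⟩
    apply exp_ev hg
    intro n
    rw [← hev _ (hA k hk), ← hev _ (hA k' hk')]
    rcases Int.eq_nat_or_neg n with ⟨i, rfl | rfl⟩
    · have h1 := hF _ (att_ev hT (hA k hk) i) _ (att_ev hT (hsub hk) i) ((hb k hk).1 i)
      have h2 := hF _ (att_ev hT (hA k' hk') i) _ (att_ev hT (hsub hk') i) ((hb k' hk').1 i)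
      have h3 : h (ev f i k) = h (ev f i k') := by
        rw [hev _ (hsub hk), hev _ (hsub hk'), hh k hk k' hk']
      rw [h3] at h1
      have h4 := dist_triangle_right (h (ev f i (b k))) (h (ev f i (b k'))) (h (ev f i k'))
      linarith
    · have h1 := hF _ (att_ev hT (hA k hk) (-i)) _ (att_ev hT hv (-i))
        (mem_Sp_symm.1 (hb k hk).2 i)
      have h2 := hF _ (att_ev hT (hA k' hk') (-i)) _ (att_ev hT hv (-i))
        (mem_Sp_symm.1 (hb k' hk').2 i)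
      have h4 := dist_triangle_right (h (ev f (-i) (b k))) (h (ev f (-i) (b k')))
        (h (ev f (-i) v))
      linarith

end DNSM

open DNSM in
theorem specDns (hTch : SpecTch.{u}) : SpecDns.{u, v} := by
  intro X _ _ f U e C a c Y _ g c' h E c₁ K B hT htr hc' hg F hE hc₁ hK hcst x hx ε hε
  have R := B.rates U
  have he := R.e0
  have hC := R.C1
  have ha := R.a0
  have hev : ∀ x ∈ Att f U, ∀ n : ℤ, h (ev f n x) = ev g n (h x) := fun x hx n =>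
    F.ev (fun x hx k => att_ev hT hx k) hx n
  obtain ⟨δF, hδF, hFu⟩ := F.unif (isClosed_att hT) (half_pos hc')
  -- constants
  obtain ⟨ε₃, hε₃, he3, hF3⟩ : ∃ ε₃ : ℝ, 0 < ε₃ ∧ 8 * ε₃ ≤ e ∧ ε₃ < δF :=
    ⟨min (e / 8) (δF / 2), lt_min (by linarith) (by linarith),
      by linarith [min_le_left (e / 8) (δF / 2)],
      (min_le_right _ _).trans_lt (by linarith)⟩
  have hF : ∀ x ∈ Att f U, ∀ y ∈ Att f U, dist x y ≤ ε₃ → dist (h x) (h y) < c' / 2 :=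
    fun x hx y hy hxy => hFu x hx y hy (hxy.trans_lt hF3)
  obtain ⟨δ, hδ, hbr⟩ := R.br ε₃ hε₃
  obtain ⟨j, hj⟩ := small (C := C) (E := E) ha (lt_min (show 0 < δ / 4 by linarith) hε₃)
  -- the small continuum
  let K₀ : Set X := ev f (-(j : ℤ)) '' K
  have hsz0 : ∀ y ∈ K₀, ∀ z ∈ K₀, z ∈ Sp f.symm (min (δ / 4) ε₃) y := by
    rintro _ ⟨y, hy, rfl⟩ _ ⟨z, hz, rfl⟩
    exact Sp_mono hj.le (EQ.contr (by linarith) ha.le R.un hE (hK.sz y hy z hz) j)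
  have hsub0 : K₀ ⊆ Att f U := by
    rintro _ ⟨y, hy, rfl⟩
    exact att_ev hT (hK.sub hy) _
  have hh0 : ∀ y ∈ K₀, ∀ z ∈ K₀, h y = h z := by
    rintro _ ⟨y, hy, rfl⟩ _ ⟨z, hz, rfl⟩
    rw [hev _ (hK.sub hy), hev _ (hK.sub hz), hcst y hy z hz]
  have hnt0 : K₀.Nontrivial := by
    obtain ⟨y, hy, z, hz, hyz⟩ := hK.big
    refine ⟨_, ⟨y, hy, rfl⟩, _, ⟨z, hz, rfl⟩, fun hc => ?_⟩
    rw [ev_injective _ hc, dist_self] at hyz
    linarith
  have hcp0 : IsCompact K₀ := hK.cpt.image (continuous_ev _)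
  have hcn0 : IsConnected K₀ := hK.conn.image _ (continuous_ev _).continuousOn
  obtain ⟨k₀, hk₀⟩ := hcn0.nonempty
  -- the chain
  obtain ⟨ε', hε', hε'3, hε'δ⟩ : ∃ ε' : ℝ, 0 < ε' ∧ ε' ≤ ε₃ ∧ ε' ≤ δ / 4 :=
    ⟨min ε₃ (δ / 4), lt_min hε₃ (by linarith), min_le_left _ _, min_le_right _ _⟩
  obtain ⟨δ', hδ', hch⟩ := chainShadow B.shad hε'
  obtain ⟨n₀, hn₀⟩ := small (C := C) (E := ε₃) ha (half_pos hε)
  have hmap : ∀ x ∈ Att f U, f x ∈ Att f U := fun x hx => by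
    have := att_ev hT hx 1
    rwa [ev_one] at this
  obtain ⟨m, hm, s, hs0, hsm, hsA, hsd⟩ := hTch X f (Att f U) δ' hmap htr hδ'
    (ev f n₀ x) (att_ev hT hx n₀) k₀ (hsub0 hk₀)
  obtain ⟨z, hz1, hz2⟩ := hch m s hsd
  rw [hs0] at hz1
  rw [hsm] at hz2
  have hzA : z ∈ Att f U :=
    att_sat hT (att_ev hT hx n₀) (R.un_tendsto (Sp_mono (by linarith) hz1))
  have hvA : ev f m z ∈ Att f U := att_ev hT hzA m
  have hvk : dist (ev f m z) k₀ ≤ δ / 4 := (Sp_dist hz2).trans hε'δ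
  obtain ⟨K₁, hcp1, hcn1, hnt1, hsub1, hsz1, hh1⟩ := transport R hT hg F hε₃ he3 hF hcp0 hcn0
    hsub0 (fun y hy z hz => Sp_mono (min_le_right _ _) (hsz0 y hy z hz)) hnt0 hh0 hvA
    (fun k hk => by
      apply hbr
      have h1 := (Sp_dist (hsz0 k₀ hk₀ k hk)).trans (min_le_left _ _)
      have h2 := dist_triangle_right k (ev f m z) k₀
      linarith)
  -- back in time
  refine ⟨ev f (-((n₀ + m : ℕ) : ℤ)) '' K₁, hcp1.image (continuous_ev _),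
    hcn1.image _ (continuous_ev _).continuousOn, ?_, ?_, ?_, ?_⟩
  · exact hnt1.image (ev_injective _)
  · rintro _ ⟨y, hy, rfl⟩
    exact att_ev hT (hsub1 hy) _
  · rintro _ ⟨y, hy, rfl⟩
    have h1 := EQ.contr (by linarith) ha.le R.un (by linarith) (hsz1 y hy) (n₀ + m)
    have h2 := EQ.contr (by linarith) ha.le R.un (by linarith) hz1 n₀
    rw [ev_neg_ev] at h2
    have h3 : ev f (-((n₀ + m : ℕ) : ℤ)) (ev f m z) = ev f (-(n₀ : ℤ)) z := by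
      rw [← ev_add]
      congr 1
      push_cast
      ring
    rw [h3] at h1
    refine Sp_mono ?_ (Sp_trans h2 h1)
    have h4 : Real.exp (-(a * ((n₀ + m : ℕ) : ℝ))) ≤ Real.exp (-(a * n₀)) := by
      apply Real.exp_le_exp.2
      push_cast
      have : 0 ≤ a * (m : ℝ) := by positivity
      linarith
    have h5 : C * Real.exp (-(a * ((n₀ + m : ℕ) : ℝ))) * ε₃ ≤ C * Real.exp (-(a * n₀)) * ε₃ :=
      mul_le_mul_of_nonneg_right (mul_le_mul_of_nonneg_left h4 (by linarith)) hε₃.le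
    have h6 : C * Real.exp (-(a * n₀)) * ε' ≤ C * Real.exp (-(a * n₀)) * ε₃ :=
      mul_le_mul_of_nonneg_left hε'3 (by positivity)
    linarith
  · rintro _ ⟨y, hy, rfl⟩ _ ⟨w, hw, rfl⟩
    rw [hev _ (hsub1 hy), hev _ (hsub1 hw), hh1 y hy w hw]

end Pool.Agent.Lib.MP610fe3.FT
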