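import Pool.Agent.Lib.MP_610fe3_an.FT.Spec

/-!
# The factor theorem: module ENL (helper9), lower bound for the entropy
-/

open Set Filter Function
open scoped Topology

namespace Pool.Agent.Lib.MP610fe3.FT

open TM N3

universe u

namespace ENLM

theorem isNet {X : Type u} [MetricSpace X] (f : X → X) (A : Set X) (ε : ℝ) (n : ℕ)
    (S : Finset X) (hSA : ↑S ⊆ A) (hS : Sep f n ε S) :
    Dynamics.IsDynNetIn f A {p : X × X | dist p.1 p.2 < ε / 2} n (S : Set X) := by
  refine ⟨hSA, fun x hx y hy hxy => ?_⟩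
  rw [Function.onFun, Set.disjoint_left]
  intro z hz1 hz2
  rw [Dynamics.mem_ball_dynEntourage] at hz1 hz2
  apply hxy
  apply hS x (Finset.mem_coe.1 hx) y (Finset.mem_coe.1 hy)
  intro t ht
  have h1 : dist (f^[t] x) (f^[t] z) < ε / 2 := hz1 t ht
  have h2 : dist (f^[t] y) (f^[t] z) < ε / 2 := hz2 t ht
  rw [dist_comm] at h2
  calc dist (f^[t] x) (f^[t] y) ≤ dist (f^[t] x) (f^[t] z) + dist (f^[t] z) (f^[t] y) :=
        dist_triangle _ _ _
    _ < ε := by linarith

end ENLM

theorem specEnl : SpecEnl.{u} := by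
  intro X _ f A ε H hε hfr
  have hV : {p : X × X | dist p.1 p.2 < ε / 2} ∈ uniformity X :=
    Metric.dist_mem_uniformity (half_pos hε)
  refine le_trans ?_ (Dynamics.netEntropyEntourage_le_coverEntropy (T := f) (F := A) hV)
  refine Frequently.le_expGrowthSup (hfr.mono ?_)
  rintro n ⟨S, hSA, hS, hcard⟩
  have hnet := ENLM.isNet f A ε n S hSA hS
  have h1 : ((S.card : ℕ∞) : ENNReal) ≤
      ((Dynamics.netMaxcard f A {p : X × X | dist p.1 p.2 < ε / 2} n : ℕ∞) : ENNReal) :=
    ENat.toENNReal_mono hnet.card_le_netMaxcard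
  refine le_trans ?_ h1
  have h2 : (H : EReal) * (n : EReal) = ((n * H : ℝ) : EReal) := by
    rw [mul_comm (n : ℝ) H, EReal.coe_mul]
    rfl
  rw [h2, EReal.exp_coe, ENat.toENNReal_coe, ← ENNReal.ofReal_natCast]
  exact ENNReal.ofReal_le_ofReal hcard

end Pool.Agent.Lib.MP610fe3.FT
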