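import Pool.Agent.Lib.MP_610fe3_an.FT.Spec

/-!
# MODULE ENU: separated sets for expansive homeomorphisms, from the topological entropy
-/

open Set Filter Function
open scoped Topology Uniformity

namespace Pool.Agent.Lib.MP610fe3.FT

open TM N3

universe u v

namespace EnuM

variable {Y : Type*} [MetricSpace Y] [CompactSpace Y] {g : Y ≃ₜ Y} {c : ℝ}

theorem unif_exp (hc : ExpConst g c) {ε : ℝ} (hε : 0 < ε) : ∃ k : ℕ, ∀ u v : Y,
    (∀ j : ℤ, |j| ≤ k → dist (TM.ev g j u) (TM.ev g j v) < c) → dist u v < ε := by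
  by_contra hcon
  push Not at hcon
  choose u v huv he using hcon
  obtain ⟨⟨a, b⟩, -, φ, hφ, hlim⟩ :=
    (isCompact_univ (X := Y × Y)).tendsto_subseq (x := fun k => (u k, v k)) (fun _ => mem_univ _)
  have ha : Tendsto (fun k => u (φ k)) atTop (𝓝 a) := (continuous_fst.tendsto _).comp hlim
  have hb : Tendsto (fun k => v (φ k)) atTop (𝓝 b) := (continuous_snd.tendsto _).comp hlim
  have hab : a = b := by
    refine exp_ev hc fun j => ?_
    have h1 : Tendsto (fun k => dist (TM.ev g j (u (φ k))) (TM.ev g j (v (φ k)))) atTop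
        (𝓝 (dist (TM.ev g j a) (TM.ev g j b))) :=
      Tendsto.dist (((continuous_ev j).tendsto a).comp ha) (((continuous_ev j).tendsto b).comp hb)
    refine le_of_tendsto h1 ?_
    filter_upwards [eventually_ge_atTop j.natAbs] with k hk
    refine (huv (φ k) j ?_).le
    have h2 : j.natAbs ≤ φ k := hk.trans (hφ.id_le k)
    have h3 : ((j.natAbs : ℕ) : ℤ) ≤ (φ k : ℤ) := by exact_mod_cast h2
    rwa [Int.natCast_natAbs] at h3
  have h4 : Tendsto (fun k => dist (u (φ k)) (v (φ k))) atTop (𝓝 (dist a b)) := ha.dist hb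
  have h5 : ε ≤ dist a b := ge_of_tendsto h4 (Eventually.of_forall fun k => he (φ k))
  rw [hab, dist_self] at h5
  exact absurd hε (not_lt.2 h5)

omit [CompactSpace Y] in
theorem sep_of_net [DecidableEq Y] (hc0 : 0 < c) {V : SetRel Y Y} {k : ℕ}
    (hV : ∀ u v : Y, (∀ j : ℤ, |j| ≤ k → dist (TM.ev g j u) (TM.ev g j v) < c) → (u, v) ∈ V)
    {B : Set Y} {n : ℕ} {S : Finset Y} (hS : Dynamics.IsDynNetIn g B V n (S : Set Y)) :
    Sep g (n + 2 * k + 1) c (S.image (TM.ev g (-(k : ℤ)))) := by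
  intro x hx y hy hxy
  obtain ⟨u, hu, rfl⟩ := Finset.mem_image.1 hx
  obtain ⟨v, hv, rfl⟩ := Finset.mem_image.1 hy
  by_cases huv : u = v
  · rw [huv]
  exfalso
  have hd := hS.2 (Finset.mem_coe.2 hu) (Finset.mem_coe.2 hv) huv
  have h1 : v ∈ UniformSpace.ball u (Dynamics.dynEntourage g V n) := by
    rw [Dynamics.mem_ball_dynEntourage]
    intro t ht
    refine hV _ _ fun j hj => ?_
    have hj' := abs_le.1 hj
    have h2 := hxy (t + k + j).toNat (by omega)
    have e : (((t + k + j).toNat : ℕ) : ℤ) + -(k : ℤ) = j + t := by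
      rw [Int.toNat_of_nonneg (by omega)]
      ring
    rw [← ev_nat, ← ev_nat, ← ev_add, ← ev_add, e] at h2
    rw [← ev_nat, ← ev_nat, ← ev_add, ← ev_add]
    exact h2
  have h2 : v ∈ UniformSpace.ball v (Dynamics.dynEntourage g V n) := by
    rw [Dynamics.mem_ball_dynEntourage]
    intro t ht
    refine hV _ _ fun j hj => ?_
    rw [dist_self]
    exact hc0
  exact Set.disjoint_left.1 hd h1 h2

theorem freq (hc0 : 0 < c) (hc : ExpConst g c) {B : Set Y} (hB : ∀ u ∈ B, g.symm u ∈ B) {H : ℝ}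
    (hH : (H : EReal) < Dynamics.coverEntropy g B) :
    ∃ᶠ n : ℕ in atTop, ∃ S : Finset Y, ↑S ⊆ B ∧ Sep g n c S ∧ Real.exp (n * H) ≤ S.card := by
  classical
  rw [Dynamics.coverEntropy_eq_iSup_netEntropyEntourage] at hH
  obtain ⟨V, hH⟩ := lt_iSup_iff.1 hH
  obtain ⟨hV, hH⟩ := lt_iSup_iff.1 hH
  obtain ⟨H', hH1, hH2⟩ := EReal.lt_iff_exists_real_btwn.1 hH
  have hHH : H < H' := EReal.coe_lt_coe_iff.1 hH1
  obtain ⟨ε', hε', hV'⟩ := Metric.mem_uniformity_dist.1 hV
  obtain ⟨k, hk⟩ := unif_exp hc hε'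
  have hf := ExpGrowth.frequently_exp_le hH2
  have hBk : ∀ k : ℕ, ∀ u ∈ B, TM.ev g (-(k : ℤ)) u ∈ B := by
    intro k
    induction k with
    | zero => intro u hu; simpa using hu
    | succ k ih =>
      intro u hu
      rw [ev_neg_nat, iterate_succ_apply, ← ev_neg_nat]
      exact ih _ (hB u hu)
  rw [frequently_atTop] at hf ⊢
  intro N
  obtain ⟨n₀, hn₀⟩ := exists_nat_ge ((2 * k + 1) * |H| / (H' - H))
  obtain ⟨n, hn, hexp⟩ := hf (max N n₀)
  have hcard : ∃ S : Finset Y, Dynamics.IsDynNetIn g B V n (S : Set Y) ∧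
      Real.exp (n * H') ≤ S.card := by
    by_cases htop : Dynamics.netMaxcard g B V n = ⊤
    · obtain ⟨m, hm⟩ := exists_nat_ge (Real.exp (n * H'))
      obtain ⟨S, hS, hSm⟩ := (Dynamics.netMaxcard_infinite_iff g B V n).1 htop m
      exact ⟨S, hS, hm.trans (by exact_mod_cast hSm)⟩
    · obtain ⟨S, hS, hSm⟩ := (Dynamics.netMaxcard_finite_iff g B V n).1 (lt_top_iff_ne_top.2 htop)
      refine ⟨S, hS, ?_⟩
      rw [← hSm] at hexp
      have e1 : ((H' : EReal) * (n : EReal)) = ((n * H' : ℝ) : EReal) := by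
        rw [mul_comm]
        push_cast
        rfl
      rw [e1, EReal.exp_coe] at hexp
      have e2 : (((S.card : ℕ∞)) : ENNReal) = ENNReal.ofReal (S.card : ℝ) := by
        simp
      rw [e2] at hexp
      exact (ENNReal.ofReal_le_ofReal_iff (Nat.cast_nonneg _)).1 hexp
  obtain ⟨S, hS, hSc⟩ := hcard
  refine ⟨n + 2 * k + 1, by have := le_of_max_le_left hn; omega,
    S.image (TM.ev g (-(k : ℤ))), ?_, sep_of_net hc0 (fun u v huv => hV' (hk u v huv)) hS, ?_⟩
  · intro x hx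
    obtain ⟨u, hu, rfl⟩ := Finset.mem_image.1 (Finset.mem_coe.1 hx)
    exact hBk k u (hS.1 (Finset.mem_coe.2 hu))
  · rw [Finset.card_image_of_injective _ (ev_injective _)]
    refine le_trans (Real.exp_le_exp.2 ?_) hSc
    have h1 : (n₀ : ℝ) ≤ n := by exact_mod_cast le_of_max_le_right hn
    have h2 : (2 * k + 1) * |H| ≤ n * (H' - H) := by
      have := hn₀.trans h1
      rwa [div_le_iff₀ (by linarith)] at this
    have h3 : (2 * k + 1 : ℝ) * H ≤ (2 * k + 1) * |H| :=
      mul_le_mul_of_nonneg_left (le_abs_self H) (by positivity)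
    push_cast
    nlinarith

omit [CompactSpace Y] in
theorem card_le (P : Finset Y) (hP : ∀ y : Y, ∃ q ∈ P, dist y q < c / 2) {n : ℕ} {S : Finset Y}
    (hS : Sep g n c S) : S.card ≤ P.card ^ n := by
  classical
  choose q hq hd using hP
  have h1 : S.card ≤ (Finset.univ : Finset (Fin n → P)).card := by
    refine Finset.card_le_card_of_injOn (fun x t => ⟨q (g^[t] x), hq _⟩)
      (fun _ _ => Finset.mem_coe.2 (Finset.mem_univ _)) ?_
    intro x hx y hy hxy
    refine hS x (Finset.mem_coe.1 hx) y (Finset.mem_coe.1 hy) fun t ht => ?_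
    have h2 := congrFun hxy ⟨t, ht⟩
    have h3 : q (g^[t] x) = q (g^[t] y) := congrArg Subtype.val h2
    have h4 := hd (g^[t] x)
    have h5 := hd (g^[t] y)
    rw [← h3] at h5
    have h6 := dist_triangle_right (g^[t] x) (g^[t] y) (q (g^[t] x))
    linarith
  rwa [Finset.card_univ, Fintype.card_fun, Fintype.card_fin, Fintype.card_coe] at h1

end EnuM

open EnuM in
/-- ENU. -/
theorem specEnu : SpecEnu.{v} := by
  intro Y _ _ g c hc0 hc
  refine ⟨c, hc0, fun B hB => ⟨?_, fun H hH => freq hc0 hc hB hH⟩⟩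
  by_contra htop
  have htop' : Dynamics.coverEntropy g B = ⊤ := not_lt_top_iff.1 htop
  obtain ⟨T, -, hTf, hT⟩ := (isCompact_univ (X := Y)).finite_cover_balls (e := c / 2) (by linarith)
  have hP : ∀ y : Y, ∃ q ∈ hTf.toFinset, dist y q < c / 2 := by
    intro y
    have := hT (mem_univ y)
    simp only [mem_iUnion, Metric.mem_ball, exists_prop] at this
    obtain ⟨q, hq, hd⟩ := this
    exact ⟨q, hTf.mem_toFinset.2 hq, hd⟩
  have hfr := freq hc0 hc hB (H := Real.log (hTf.toFinset.card + 1))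
    (by rw [htop']; exact EReal.coe_lt_top _)
  obtain ⟨n, ⟨S, -, hSep, hcard⟩, hn⟩ := (hfr.and_eventually (eventually_ge_atTop 1)).exists
  have h1 := card_le _ hP hSep
  rw [Real.exp_nat_mul, Real.exp_log (by positivity)] at hcard
  have h2 : (S.card : ℝ) ≤ (hTf.toFinset.card : ℝ) ^ n := by exact_mod_cast h1
  have h3 : (hTf.toFinset.card : ℝ) ^ n < ((hTf.toFinset.card : ℝ) + 1) ^ n :=
    pow_lt_pow_left₀ (by linarith) (Nat.cast_nonneg _) (by omega)
  linarith

end Pool.Agent.Lib.MP610fe3.FT
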