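import Pool.Agent.Lib.MP_610fe3_an.FT.Mfd

/-!
# The factor theorem: assembly
-/

open Set Filter Function Bundle
open scoped Manifold ContDiff Topology Uniformity

namespace Pool.Agent.Lib.MP610fe3.FT

universe v w

variable {V : Type*} [NormedAddCommGroup V] [NormedSpace ℝ V] [FiniteDimensional ℝ V]
  {M : Type v} [UniformSpace M] [CompactSpace M] [T2Space M] [ConnectedSpace M]
  [ChartedSpace V M] [IsManifold 𝓘(ℝ, V) ∞ M]
  [RiemannianBundle (fun x : M => TangentSpace 𝓘(ℝ, V) x)]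
  [IsContinuousRiemannianBundle V (fun x : M => TangentSpace 𝓘(ℝ, V) x)]

/-- The theorem from its modules. -/
theorem final_of (hAbs : SpecAbs.{v, w}) (hMin : SpecMin.{v})
    (f : M ≃ₘ^1⟮𝓘(ℝ, V), 𝓘(ℝ, V)⟯ M) (hf : Gen.IsAnosov f) :
    (TopTransitive f ∨ ∃ U : Set M, IsOpen U ∧ U.Nonempty ∧ U ≠ univ ∧ f '' closure U ⊆ U ∧
      TransOn f {x | ∀ n : ℕ, (⇑f.symm)^[n] x ∈ U}) ∧
    ∀ U : Set M, IsOpen U → U.Nonempty → U ≠ univ → f '' closure U ⊆ U →
      TransOn f {x | ∀ n : ℕ, (⇑f.symm)^[n] x ∈ U} →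
      ∀ (G : Type w) [MetricSpace G] [CompactSpace G] [Group G] [IsTopologicalGroup G]
        (L : G ≃* G) (h : M → G), GroupFactor f {x | ∀ n : ℕ, (⇑f.symm)^[n] x ∈ U} L h →
        Collapses f.symm {x | ∀ n : ℕ, (⇑f.symm)^[n] x ∈ U} h ∧
        Horseshoe f {x | ∀ n : ℕ, (⇑f.symm)^[n] x ∈ U} L h ∧
        Dynamics.coverEntropy L (h '' {x | ∀ n : ℕ, (⇑f.symm)^[n] x ∈ U}) <
          Dynamics.coverEntropy f {x | ∀ n : ℕ, (⇑f.symm)^[n] x ∈ U} := by
  obtain ⟨Es, Eu, hA⟩ := hf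
  obtain ⟨N, e, he, hemb, hinj⟩ := exists_embedding_euclidean_of_compact (I := 𝓘(ℝ, V)) (M := M)
  have hue : IsUniformEmbedding e := TD.isUniformEmbedding_of_compact hemb.isEmbedding
  let _ : MetricSpace M := hue.comapMetricSpace e
  have hiso : Isometry e := Isometry.of_dist_eq fun x y => rfl
  exact mfd hAbs hMin e hiso he hinj f Es Eu hA

end Pool.Agent.Lib.MP610fe3.FT
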