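import Pool.Agent.Lib.MP_610fe3_an.FT.Spec

/-!
# FT, module GAP: the entropy gap
-/

set_option autoImplicit false

open Set Filter Function
open scoped Topology

namespace Pool.Agent.Lib.MP610fe3.FT

open TM N3

universe u v

namespace GAPM

theorem alt1 {K m n cT cS : ℕ} {HA HB η : ℝ} (hmn : (m : ℝ) * K ≤ n + K)
    (hnm : (n : ℝ) ≤ m * K) (hHB : 0 ≤ HB) (hAB : HA ≤ HB) (hη : 0 ≤ η)
    (h1 : 2 * K * η ≤ Real.log 2 / 8) (hm : K * HB + 2 * Real.log 2 ≤ m * (Real.log 2 / 8))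
    (hT : Real.exp (n * (HB - η)) ≤ cT) (h2 : cT * 2 ^ (m / 4) ≤ 2 * cS) :
    Real.exp (((m * K : ℕ) : ℝ) * (HA + η)) ≤ cS := by
  have hl2 : 0 < Real.log 2 := Real.log_pos (by norm_num)
  have e1 : (m : ℝ) ≤ 4 * ((m / 4 : ℕ) : ℝ) + 3 := by
    have : m ≤ 4 * (m / 4) + 3 := by omega
    exact_mod_cast this
  have hexp : ((m * K : ℕ) : ℝ) * (HA + η) ≤
      n * (HB - η) + ((m / 4 : ℕ) : ℝ) * Real.log 2 - Real.log 2 := by
    push_cast
    have a1 : (m : ℝ) * K * HA ≤ m * K * HB := mul_le_mul_of_nonneg_left hAB (by positivity)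
    have a2 : ((m : ℝ) * K) * HB ≤ (n + K) * HB := mul_le_mul_of_nonneg_right hmn hHB
    have a3 : (n : ℝ) * η ≤ m * K * η := mul_le_mul_of_nonneg_right hnm hη
    have a4 : (m : ℝ) * (2 * K * η) ≤ m * (Real.log 2 / 8) :=
      mul_le_mul_of_nonneg_left h1 (by positivity)
    have a5 : (m : ℝ) * Real.log 2 ≤ (4 * ((m / 4 : ℕ) : ℝ) + 3) * Real.log 2 :=
      mul_le_mul_of_nonneg_right e1 hl2.le
    nlinarith
  have h3 : (cT : ℝ) * 2 ^ (m / 4) ≤ 2 * cS := by exact_mod_cast h2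
  have e2 : Real.exp (n * (HB - η) + ((m / 4 : ℕ) : ℝ) * Real.log 2 - Real.log 2) =
      Real.exp (n * (HB - η)) * 2 ^ (m / 4) / 2 := by
    have p1 : Real.exp (((m / 4 : ℕ) : ℝ) * Real.log 2) = 2 ^ (m / 4) := by
      rw [Real.exp_nat_mul, Real.exp_log (by norm_num)]
    rw [Real.exp_sub, Real.exp_add, p1, Real.exp_log (by norm_num)]
  calc Real.exp (((m * K : ℕ) : ℝ) * (HA + η))
      ≤ Real.exp (n * (HB - η) + ((m / 4 : ℕ) : ℝ) * Real.log 2 - Real.log 2) :=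
        Real.exp_le_exp.2 hexp
    _ = Real.exp (n * (HB - η)) * 2 ^ (m / 4) / 2 := e2
    _ ≤ cT * 2 ^ (m / 4) / 2 := by gcongr
    _ ≤ 2 * cS / 2 := by gcongr
    _ = cS := by ring

theorem alt2 {K l m n cT cS : ℕ} {HA HB η : ℝ} (hK : 0 < K) (hl : 0 < l)
    (hmn : (m : ℝ) * K ≤ n + K)
    (hnm : (n : ℝ) ≤ m * K) (hHB : 0 ≤ HB) (hAB : HA ≤ HB) (hη : 0 ≤ η)
    (h1 : (2 * K + l) * η ≤ 1)
    (hlK : 2 * (Real.log (2 * l) + l * HB + 3) ≤ Real.log K)
    (hm : K * HB + Real.log K / 2 + Real.log 2 ≤ 2 * m)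
    (hT : Real.exp (n * (HB - η)) ≤ cT) (h2 : cT * K ^ (m / 2) ≤ 2 * cS * (2 * l) ^ m) :
    Real.exp (((m * (K + l) : ℕ) : ℝ) * (HA + η)) ≤ cS := by
  have hl2 : 0 < Real.log 2 := Real.log_pos (by norm_num)
  have hK' : (0 : ℝ) < K := by exact_mod_cast hK
  have hl' : (0 : ℝ) < l := by exact_mod_cast hl
  have hlK0 : 0 ≤ Real.log K := Real.log_natCast_nonneg K
  have e1 : (m : ℝ) ≤ 2 * ((m / 2 : ℕ) : ℝ) + 1 := by
    have : m ≤ 2 * (m / 2) + 1 := by omega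
    exact_mod_cast this
  have hexp : ((m * (K + l) : ℕ) : ℝ) * (HA + η) ≤
      n * (HB - η) + ((m / 2 : ℕ) : ℝ) * Real.log K - (Real.log 2 + m * Real.log (2 * l)) := by
    push_cast
    have a1 : (m : ℝ) * (K + l) * HA ≤ m * (K + l) * HB :=
      mul_le_mul_of_nonneg_left hAB (by positivity)
    have a2 : ((m : ℝ) * K) * HB ≤ (n + K) * HB := mul_le_mul_of_nonneg_right hmn hHB
    have a3 : (n : ℝ) * η ≤ m * K * η := mul_le_mul_of_nonneg_right hnm hη
    have a4 : (m : ℝ) * ((2 * K + l) * η) ≤ m * 1 :=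
      mul_le_mul_of_nonneg_left h1 (by positivity)
    have a5 : (m : ℝ) * Real.log K ≤ (2 * ((m / 2 : ℕ) : ℝ) + 1) * Real.log K :=
      mul_le_mul_of_nonneg_right e1 hlK0
    have a6 : (m : ℝ) * (2 * (Real.log (2 * l) + l * HB + 3)) ≤ m * Real.log K :=
      mul_le_mul_of_nonneg_left hlK (by positivity)
    nlinarith
  have h3 : (cT : ℝ) * K ^ (m / 2) ≤ 2 * cS * (2 * l) ^ m := by exact_mod_cast h2
  have e2 : Real.exp (n * (HB - η) + ((m / 2 : ℕ) : ℝ) * Real.log K -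
      (Real.log 2 + m * Real.log (2 * l))) =
      Real.exp (n * (HB - η)) * K ^ (m / 2) / (2 * (2 * l) ^ m) := by
    have p1 : Real.exp (((m / 2 : ℕ) : ℝ) * Real.log K) = K ^ (m / 2) := by
      rw [Real.exp_nat_mul, Real.exp_log hK']
    have p2 : Real.exp ((m : ℝ) * Real.log (2 * l)) = (2 * l) ^ m := by
      rw [Real.exp_nat_mul, Real.exp_log (by positivity)]
    rw [Real.exp_sub, Real.exp_add, p1, Real.exp_add, p2, Real.exp_log (by norm_num)]
  have hpos : (0 : ℝ) < 2 * (2 * l) ^ m := by positivity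
  calc Real.exp (((m * (K + l) : ℕ) : ℝ) * (HA + η))
      ≤ Real.exp (n * (HB - η) + ((m / 2 : ℕ) : ℝ) * Real.log K -
        (Real.log 2 + m * Real.log (2 * l))) := Real.exp_le_exp.2 hexp
    _ = Real.exp (n * (HB - η)) * K ^ (m / 2) / (2 * (2 * l) ^ m) := e2
    _ ≤ cT * K ^ (m / 2) / (2 * (2 * l) ^ m) := by gcongr
    _ ≤ 2 * cS * (2 * l) ^ m / (2 * (2 * l) ^ m) := by gcongr
    _ = cS := by
      rw [show (2 : ℝ) * cS * (2 * l) ^ m = cS * (2 * (2 * l) ^ m) by ring]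
      exact mul_div_cancel_right₀ _ hpos.ne'

end GAPM

open GAPM in
theorem specGap (hEnl : SpecEnl.{u}) (hEnu : SpecEnu.{v}) (hDic : SpecDic.{u, v}) :
    SpecGap.{u, v} := by
  classical
  intro X _ _ f U Y _ _ g c' h y w hs hT hTr hc' hexp F D
  have hinv : ∀ u ∈ h '' Att f U, g.symm u ∈ h '' Att f U := by
    rintro u ⟨x, hx, rfl⟩
    have h1 : f.symm x ∈ Att f U := by
      have h2 := att_ev hT hx (-((1 : ℕ) : ℤ))
      rwa [ev_neg_nat, iterate_one] at h2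
    refine ⟨f.symm x, h1, ?_⟩
    have h2 := F.eq _ h1
    rw [Homeomorph.apply_symm_apply] at h2
    rw [h2, Homeomorph.symm_apply_apply]
  obtain ⟨εB, hεB, HE⟩ := hEnu Y g c' hc' hexp
  obtain ⟨hfin, HE2⟩ := HE (h '' Att f U) hinv
  obtain ⟨l, K₀, hl, εA, hεA, HD⟩ := hDic X f U Y g h y w εB hs hT hTr F D hεB
  by_contra hcon
  rw [not_lt] at hcon
  have hAne : (Att f U).Nonempty := ⟨y, D.y_mem⟩
  have hA0 : 0 ≤ Dynamics.coverEntropy f (Att f U) := Dynamics.coverEntropy_nonneg f hAne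
  have hB0 : 0 ≤ Dynamics.coverEntropy g (h '' Att f U) :=
    Dynamics.coverEntropy_nonneg g (hAne.image h)
  obtain ⟨HB, hHB⟩ : ∃ r : ℝ, Dynamics.coverEntropy g (h '' Att f U) = (r : EReal) :=
    ⟨_, (EReal.coe_toReal hfin.ne (ne_bot_of_le_ne_bot EReal.zero_ne_bot hB0)).symm⟩
  obtain ⟨HA, hHA⟩ : ∃ r : ℝ, Dynamics.coverEntropy f (Att f U) = (r : EReal) :=
    ⟨_, (EReal.coe_toReal (hcon.trans_lt hfin).ne
      (ne_bot_of_le_ne_bot EReal.zero_ne_bot hA0)).symm⟩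
  rw [hHB] at hcon HE2 hB0
  rw [hHA] at hcon hA0
  have hAB : HA ≤ HB := EReal.coe_le_coe_iff.1 hcon
  have hHB0 : 0 ≤ HB := EReal.coe_nonneg.1 hB0
  have hl2 : 0 < Real.log 2 := Real.log_pos (by norm_num)
  -- the choice of `K`
  obtain ⟨K, hKK₀, hK0, hKlog⟩ : ∃ K : ℕ, K₀ ≤ K ∧ 0 < K ∧
      2 * (Real.log (2 * l) + l * HB + 3) ≤ Real.log K := by
    obtain ⟨K₁, hK₁⟩ := exists_nat_ge (Real.exp (2 * (Real.log (2 * l) + l * HB + 3)))
    refine ⟨max K₀ (max K₁ 1), le_max_left _ _, by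
      exact lt_of_lt_of_le one_pos ((le_max_right _ _).trans (le_max_right _ _)), ?_⟩
    rw [Real.le_log_iff_exp_le (by positivity)]
    refine hK₁.trans ?_
    exact_mod_cast (le_max_left _ _).trans (le_max_right _ _)
  -- the choice of `η`
  obtain ⟨η, hη, hη1, hη2⟩ : ∃ η : ℝ, 0 < η ∧ 2 * K * η ≤ Real.log 2 / 8 ∧
      (2 * K + l) * η ≤ 1 := by
    have hpos : (0 : ℝ) < 2 * K + l := by positivity
    refine ⟨min (Real.log 2 / 8) 1 / (2 * K + l), by positivity, ?_, ?_⟩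
    · have h1 : 2 * (K : ℝ) * (min (Real.log 2 / 8) 1 / (2 * K + l)) ≤
          (2 * K + l) * (min (Real.log 2 / 8) 1 / (2 * K + l)) := by
        refine mul_le_mul_of_nonneg_right ?_ (by positivity)
        have : (0 : ℝ) ≤ l := by positivity
        linarith
      rw [mul_div_cancel₀ _ hpos.ne'] at h1
      exact h1.trans (min_le_left _ _)
    · rw [mul_div_cancel₀ _ hpos.ne']
      exact min_le_right _ _
  have hfr := HE2 (HB - η) (by
    rw [EReal.coe_lt_coe_iff]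
    linarith)
  have hcontra : ((HA + η : ℝ) : EReal) ≤ Dynamics.coverEntropy f (Att f U) := by
    refine hEnl X f (Att f U) εA (HA + η) hεA ?_
    rw [Filter.frequently_atTop] at hfr ⊢
    intro a
    obtain ⟨M, hM⟩ := exists_nat_ge (max ((K * HB + 2 * Real.log 2) / (Real.log 2 / 8))
      ((K * HB + Real.log K / 2 + Real.log 2) / 2))
    obtain ⟨n, hn, T, hTB, hTsep, hTcard⟩ := hfr (max a (K * M))
    have hna : a ≤ n := (le_max_left _ _).trans hn
    have hnM : K * M ≤ n := (le_max_right _ _).trans hn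
    have hn1 : n ≤ (n / K + 1) * K := by
      have := Nat.lt_div_mul_add (a := n) hK0
      rw [Nat.add_mul, one_mul]
      exact this.le
    have hn2 : (n / K + 1) * K ≤ n + K := by
      rw [Nat.add_mul, one_mul]
      exact Nat.add_le_add_right (Nat.div_mul_le_self n K) K
    have hMm : M ≤ n / K + 1 := by
      have h1 : M ≤ n / K := (Nat.le_div_iff_mul_le hK0).2 (by rw [mul_comm]; exact hnM)
      omega
    generalize n / K + 1 = m at *
    have hmn : (m : ℝ) * K ≤ n + K := by exact_mod_cast hn2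
    have hnm : (n : ℝ) ≤ m * K := by exact_mod_cast hn1
    have hMm' : (M : ℝ) ≤ m := by exact_mod_cast hMm
    have hm1 : K * HB + 2 * Real.log 2 ≤ m * (Real.log 2 / 8) := by
      have h1 := ((le_max_left _ _).trans hM).trans hMm'
      rwa [div_le_iff₀ (by positivity)] at h1
    have hm2 : K * HB + Real.log K / 2 + Real.log 2 ≤ 2 * m := by
      have h1 := ((le_max_right _ _).trans hM).trans hMm'
      rw [div_le_iff₀ (by norm_num)] at h1
      linarith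
    have hTsep' : Sep g (m * K) εB T := fun x hx x' hx' hd =>
      hTsep x hx x' hx' fun t ht => hd t (lt_of_lt_of_le ht hn1)
    obtain ⟨S', hS'A, ⟨h1, h2⟩ | ⟨h1, h2⟩⟩ := HD K m T hKK₀ hK0 hTB hTsep'
    · exact ⟨m * K, hna.trans hn1, S', hS'A, h1,
        alt1 hmn hnm hHB0 hAB hη.le hη1 hm1 hTcard h2⟩
    · refine ⟨m * (K + l), ?_, S', hS'A, h1,
        alt2 hK0 hl hmn hnm hHB0 hAB hη.le hη2 hKlog hm2 hTcard h2⟩
      rw [Nat.mul_add]
      omega
  rw [hHA, EReal.coe_le_coe_iff] at hcontra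
  linarith

end Pool.Agent.Lib.MP610fe3.FT
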