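import Pool.Agent.Lib.MP_610fe3_an.FT.Spec

/-! # Module GEX. -/

open Set Filter Function
open scoped Topology

namespace Pool.Agent.Lib.MP610fe3.FT

open TM N3

universe u v

namespace GEXM

variable {G : Type v} [MetricSpace G] [Group G] {L : G ≃ₜ G}

omit [MetricSpace G] in
theorem iter_mul {φ : G → G} (hφ : ∀ a b, φ (a * b) = φ a * φ b) (n : ℕ) (a b : G) :
    φ^[n] (a * b) = φ^[n] a * φ^[n] b := by
  induction n with
  | zero => rfl
  | succ n ih => rw [iterate_succ_apply', iterate_succ_apply', iterate_succ_apply', ih, hφ]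

theorem symm_mul (hL : ∀ a b, L (a * b) = L a * L b) (a b : G) :
    L.symm (a * b) = L.symm a * L.symm b := by
  apply L.injective
  rw [hL, L.apply_symm_apply, L.apply_symm_apply, L.apply_symm_apply]

theorem ev_mul (hL : ∀ a b, L (a * b) = L a * L b) (n : ℤ) (a b : G) :
    ev L n (a * b) = ev L n a * ev L n b := by
  rcases Int.eq_nat_or_neg n with ⟨k, rfl | rfl⟩
  · rw [ev_nat, ev_nat, ev_nat]
    exact iter_mul hL k a b
  · rw [ev_neg_nat, ev_neg_nat, ev_neg_nat]
    exact iter_mul (symm_mul hL) k a b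

theorem ev_one' (hL : ∀ a b, L (a * b) = L a * L b) (n : ℤ) : ev L n (1 : G) = 1 := by
  have h := ev_mul hL n 1 1
  rw [mul_one] at h
  exact left_eq_mul.1 h

theorem ev_inv (hL : ∀ a b, L (a * b) = L a * L b) (n : ℤ) (a : G) :
    ev L n a⁻¹ = (ev L n a)⁻¹ := by
  rw [eq_inv_iff_mul_eq_one, ← ev_mul hL, inv_mul_cancel, ev_one' hL]

end GEXM

open GEXM in
theorem specGex : SpecGex.{v} := by
  intro G _ _ _ _ L c hL hc hexp
  have hcont : Continuous fun p : G × G => p.1⁻¹ * p.2 := by fun_prop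
  have huc := CompactSpace.uniformContinuous_of_continuous hcont
  rw [Metric.uniformContinuous_iff] at huc
  obtain ⟨δ, hδ, H⟩ := huc c hc
  refine ⟨δ / 2, half_pos hδ, ?_⟩
  intro x y h1 h2
  have h3 : ∀ n : ℤ, dist (ev L n x) (ev L n y) ≤ δ / 2 := by
    intro n
    rcases Int.eq_nat_or_neg n with ⟨k, rfl | rfl⟩
    · rw [ev_nat, ev_nat]
      exact h1 k
    · rw [ev_neg_nat, ev_neg_nat]
      exact h2 k
  have h4 : x⁻¹ * y = 1 := by
    apply hexp
    intro n
    rw [ev_mul hL, ev_inv hL]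
    have h5 : dist ((ev L n x, ev L n y) : G × G) (ev L n x, ev L n x) < δ := by
      rw [Prod.dist_eq]
      simp only [dist_self]
      rw [max_lt_iff]
      refine ⟨hδ, ?_⟩
      rw [dist_comm]
      exact (h3 n).trans_lt (half_lt_self hδ)
    have h6 := H h5
    simp only [inv_mul_cancel] at h6
    exact h6.le
  exact inv_mul_eq_one.1 h4

end Pool.Agent.Lib.MP610fe3.FT
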