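import Pool.Agent.Lib.MP_610fe3_an.FT.Gex

/-! # Module HOL. -/

open Set Filter Function
open scoped Topology

namespace Pool.Agent.Lib.MP610fe3.FT

open TM N3

universe u v

open GEXM in
theorem specHol : SpecHol.{u, v} := by
  intro X _ _ f A G _ _ _ _ L h c hA hinv hL hc hexp F
  have hcont : Continuous fun p : (G × G) × (G × G) =>
      (p.1.1⁻¹ * p.1.2) * (p.2.1⁻¹ * p.2.2)⁻¹ := by fun_prop
  have huc := CompactSpace.uniformContinuous_of_continuous hcont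
  rw [Metric.uniformContinuous_iff] at huc
  obtain ⟨δ, hδ, H⟩ := huc c hc
  obtain ⟨ε, hε, hu⟩ := F.unif hA hδ
  refine ⟨ε / 2, half_pos hε, ?_⟩
  intro p hp q hq p' hp' q' hq' h1 h2 h3 h4
  have k1 : ∀ a b a' b' : G, dist a' a < δ → dist b' b < δ →
      dist ((a⁻¹ * b) * (a'⁻¹ * b')⁻¹) 1 ≤ c := by
    intro a b a' b' ha hb
    have h5 : dist (((a, b), (a', b')) : (G × G) × (G × G)) ((a, b), (a, b)) < δ := by
      rw [Prod.dist_eq, Prod.dist_eq, Prod.dist_eq]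
      simp only [dist_self]
      rw [max_lt_iff, max_lt_iff, max_lt_iff]
      exact ⟨⟨hδ, hδ⟩, ha, hb⟩
    have h6 := H h5
    simp only [mul_inv_cancel] at h6
    exact h6.le
  have k2 : ∀ a b a' b' : G, dist b a < δ → dist b' a' < δ →
      dist ((a⁻¹ * b) * (a'⁻¹ * b')⁻¹) 1 ≤ c := by
    intro a b a' b' ha hb
    have h5 : dist (((a, b), (a', b')) : (G × G) × (G × G)) ((a, a), (a', a')) < δ := by
      rw [Prod.dist_eq, Prod.dist_eq, Prod.dist_eq]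
      simp only [dist_self]
      rw [max_lt_iff, max_lt_iff, max_lt_iff]
      exact ⟨⟨hδ, ha⟩, hδ, hb⟩
    have h6 := H h5
    simp only [inv_mul_cancel, mul_inv_cancel] at h6
    exact h6.le
  have hd : ∀ (k : ℤ) (x y : X), x ∈ A → y ∈ A → dist (ev f k x) (ev f k y) ≤ ε / 2 →
      dist (ev L k (h x)) (ev L k (h y)) < δ := by
    intro k x y hx hy hxy
    rw [← F.ev hinv hx k, ← F.ev hinv hy k]
    exact hu _ (hinv x hx k) _ (hinv y hy k) (hxy.trans_lt (half_lt_self hε))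
  have h7 : ((h p)⁻¹ * h q) * ((h p')⁻¹ * h q')⁻¹ = 1 := by
    apply hexp
    intro n
    rw [ev_mul hL, ev_mul hL, ev_inv hL, ev_inv hL, ev_mul hL, ev_inv hL]
    rcases Int.eq_nat_or_neg n with ⟨k, rfl | rfl⟩
    · exact k1 _ _ _ _ (hd _ _ _ hp' hp (mem_Sp.1 h3 k)) (hd _ _ _ hq' hq (mem_Sp.1 h4 k))
    · exact k2 _ _ _ _ (hd _ _ _ hq hp (mem_Sp_symm.1 h1 k))
        (hd _ _ _ hq' hp' (mem_Sp_symm.1 h2 k))
  exact mul_inv_eq_one.1 h7

end Pool.Agent.Lib.MP610fe3.FT
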