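import Pool.Agent.Lib.MP_610fe3_an.FT.Spec

/-!
# MODULE HRS: a diamond gives a horseshoe in a fibre over a periodic point
-/

open Set Filter Function
open scoped Topology

namespace Pool.Agent.Lib.MP610fe3.FT

open TM N3

universe u v

namespace HrsM

variable {X : Type*} [MetricSpace X] {f : X ≃ₜ X}

theorem ev_mul_fix {p : X} {m : ℤ} (h : TM.ev f m p = p) (k : ℤ) : TM.ev f (k * m) p = p := by
  have h' : TM.ev f (-m) p = p := by
    have := ev_neg_ev (f := f) m p
    rwa [h] at this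
  induction k with
  | zero => simp
  | succ i ih => rw [show ((i : ℤ) + 1) * m = m + i * m by ring, ev_add, ih, h]
  | pred i ih => rw [show (-(i : ℤ) - 1) * m = -m + -i * m by ring, ev_add, ih, h']

/-- The reference points. -/
def Q (f : X ≃ₜ X) (p w : X) (N l : ℤ) (σ : ℤ → Bool) (j : ℤ) (x : X) : Prop :=
  (∃ k : ℤ, |j - k * l| < N ∧ σ k = true ∧ x = TM.ev f (j - k * l) w) ∨
    ((∀ k : ℤ, σ k = true → N ≤ |j - k * l|) ∧ x = TM.ev f j p)

theorem exists_Q (f : X ≃ₜ X) (p w : X) (N l : ℤ) (σ : ℤ → Bool) (j : ℤ) :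
    ∃ x, Q f p w N l σ j x := by
  by_cases h : ∃ k : ℤ, |j - k * l| < N ∧ σ k = true
  · obtain ⟨k, h1, h2⟩ := h
    exact ⟨_, Or.inl ⟨k, h1, h2, rfl⟩⟩
  · refine ⟨_, Or.inr ⟨fun k hk => ?_, rfl⟩⟩
    by_contra hlt
    exact h ⟨k, not_le.1 hlt, hk⟩

theorem Q_shift {p w : X} {N l : ℤ} (hp : TM.ev f l p = p) {σ : ℤ → Bool} {j : ℤ} {x : X}
    (h : Q f p w N l (fun k => σ (k + 1)) j x) : Q f p w N l σ (j + l) x := by
  rcases h with ⟨k, h1, h2, h3⟩ | ⟨h1, h2⟩
  · have e : j + l - (k + 1) * l = j - k * l := by ring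
    refine Or.inl ⟨k + 1, by rwa [e], h2, by rwa [e]⟩
  · refine Or.inr ⟨fun k hk => ?_, ?_⟩
    · have := h1 (k - 1) (by simpa using hk)
      have e : j - (k - 1) * l = j + l - k * l := by ring
      rwa [e] at this
    · rw [ev_add, hp, h2]

theorem abs_le_window {N l : ℤ} (hl : 1 ≤ l) {j k : ℤ} (h : |j - k * l| < N) : |k| ≤ |j| + N := by
  have h1 : |k| ≤ |k * l| := by
    rw [abs_mul, abs_of_pos (by omega : 0 < l)]
    nlinarith [abs_nonneg k]
  have h2 : |k * l| ≤ |j| + |j - k * l| := by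
    have := abs_sub j (j - k * l)
    rwa [sub_sub_cancel] at this
  omega

theorem Q_agree {p w : X} {N l : ℤ} (hl : 1 ≤ l) {σ σ' : ℤ → Bool} {j : ℤ} {x : X}
    (hσ : ∀ k, |k| ≤ |j| + N → σ' k = σ k) (h : Q f p w N l σ j x) : Q f p w N l σ' j x := by
  rcases h with ⟨k, h1, h2, h3⟩ | ⟨h1, h2⟩
  · exact Or.inl ⟨k, h1, by rw [hσ k (abs_le_window hl h1), h2], h3⟩
  · refine Or.inr ⟨fun k hk => ?_, h2⟩
    by_contra hlt
    have hlt' := not_le.1 hlt
    rw [hσ k (abs_le_window hl hlt')] at hk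
    exact hlt (h1 k hk)

end HrsM

open HrsM in
/-- HRS. -/
theorem specHrs (hPer : SpecPer.{u}) (hSwi : SpecSwi.{u, v}) : SpecHrs.{u, v} := by
  intro X _ _ f U e C a c Y _ g c' h y w B hT hTr hc' hg F D
  have hκ : 0 < dist y w := dist_pos.2 D.ne
  obtain ⟨ε, hε, he1, he2, he3⟩ : ∃ ε : ℝ, 0 < ε ∧ ε ≤ dist y w / 4 ∧ 2 * ε ≤ c ∧ ε ≤ c' := by
    refine ⟨min (dist y w / 4) (min (c / 2) c'), lt_min (by linarith)
      (lt_min (by linarith [B.c0]) hc'), min_le_left _ _, ?_, ?_⟩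
    · have := (min_le_right (dist y w / 4) (min (c / 2) c')).trans (min_le_left _ _)
      linarith
    · exact (min_le_right _ _).trans (min_le_right _ _)
  obtain ⟨N, hN, ρ, hρ, HS⟩ := hSwi X f U Y g h y w ε B.shad hT F D hε
  obtain ⟨p, hpA, m, hm, hpm, hpy⟩ := hPer X f U e C a c B hT hTr y D.y_mem
    (min ρ (dist y w / 4)) (lt_min hρ (by linarith))
  have hAev : ∀ x ∈ Att f U, ∀ k : ℤ, TM.ev f k x ∈ Att f U := fun x hx k => att_ev hT hx k
  have hpm' : TM.ev f (m : ℤ) p = p := by rw [ev_nat, hpm]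
  set l : ℕ := 2 * N * m with hldef
  have hl0 : 0 < l := by positivity
  have hl1 : (1 : ℤ) ≤ (l : ℤ) := by exact_mod_cast hl0
  have hlN : 2 * (N : ℤ) ≤ (l : ℤ) := by
    have : 2 * N * 1 ≤ l := Nat.mul_le_mul_left _ hm
    push_cast [hldef]
    have h1 : (1 : ℤ) ≤ m := by exact_mod_cast hm
    nlinarith [(Nat.cast_nonneg N : (0 : ℤ) ≤ N)]
  have hN' : (0 : ℤ) < N := by exact_mod_cast hN
  have hpk : ∀ k : ℤ, TM.ev f (k * l) p = p := by
    intro k
    have e1 : k * (l : ℤ) = k * (2 * N) * m := by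
      rw [hldef]
      push_cast
      ring
    rw [e1]
    exact ev_mul_fix hpm' _
  have hpl : TM.ev f (l : ℤ) p = p := by
    have := hpk 1
    rwa [one_mul] at this
  have hex : ∀ σ : ℤ → Bool, ∃ z ∈ Att f U,
      (∀ j x, Q f p w N l σ j x → dist (TM.ev f j z) x < ε) ∧
      ∀ t : ℤ, dist (h (TM.ev f t z)) (h (TM.ev f t p)) < ε := by
    intro σ
    obtain ⟨z, hzA, hz1, hz2, hz3⟩ := HS p hpA {s | ∃ k : ℤ, s = k * l ∧ σ k = true}
      (by
        rintro s ⟨k, rfl, -⟩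
        rw [hpk k]
        exact hpy.trans_le (min_le_left _ _))
      (by
        rintro s ⟨k, rfl, -⟩ t ⟨k', rfl, -⟩ hlt
        have h1 : k < k' := lt_of_mul_lt_mul_right hlt (by omega)
        nlinarith)
    refine ⟨z, hzA, ?_, hz3⟩
    rintro j x (⟨k, h1, h2, rfl⟩ | ⟨h1, rfl⟩)
    · exact hz1 _ ⟨k, rfl, h2⟩ j h1
    · refine hz2 j ?_
      rintro s ⟨k, rfl, hk⟩
      exact h1 k hk
  choose Z hZA hZQ hZh using hex
  have hfix : ∀ σ, h (Z σ) = h p := by
    intro σ
    refine exp_ev hg fun n => ?_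
    rw [← F.ev hAev (hZA σ), ← F.ev hAev hpA]
    exact ((hZh σ n).le).trans he3
  refine ⟨l, h p, Z, hl0, ?_, ?_, ?_, fun σ => ⟨hZA σ, hfix σ, ?_⟩⟩
  · rw [← ev_nat, ← F.ev hAev hpA, hpl]
  · rw [continuous_iff_continuousAt]
    intro σ
    refine (tendsto_iff_ultrafilter _ _ _).2 fun G hG => ?_
    obtain ⟨z, -, hz⟩ := isCompact_univ.ultrafilter_le_nhds (G.map Z) (by simp)
    have hz' : Tendsto Z G (𝓝 z) := hz
    have hzσ : z = Z σ := by
      refine exp_ev B.exp fun j => ?_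
      obtain ⟨x, hx⟩ := exists_Q f p w N l σ j
      have h1 : ∀ᶠ σ' in (G : Filter (ℤ → Bool)), dist (TM.ev f j (Z σ')) x < ε := by
        have h2 : ∀ᶠ σ' in 𝓝 σ, ∀ k ∈ Finset.Icc (-(|j| + (N : ℤ))) (|j| + N), σ' k = σ k := by
          rw [Filter.eventually_all_finset]
          intro k _
          have h20 : Continuous fun τ : ℤ → Bool => τ k := continuous_apply k
          have h21 : {b : Bool | b = σ k} ∈ 𝓝 (σ k) :=
            IsOpen.mem_nhds (isOpen_discrete _) rfl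
          exact h20.continuousAt h21
        filter_upwards [hG h2] with σ' hσ'
        refine hZQ σ' j x (Q_agree hl1 (fun k hk => ?_) hx)
        rw [abs_le] at hk
        exact hσ' k (Finset.mem_Icc.2 hk)
      have h3 : dist (TM.ev f j z) x ≤ ε := by
        have h30 : Tendsto (fun σ' => dist (TM.ev f j (Z σ')) x) (G : Filter (ℤ → Bool))
            (𝓝 (dist (TM.ev f j z) x)) :=
          Tendsto.dist (((continuous_ev j).tendsto z).comp hz') tendsto_const_nhds
        exact le_of_tendsto h30 (h1.mono fun σ' hσ' => hσ'.le)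
      have h4 := hZQ σ j x hx
      have h5 := dist_triangle_right (TM.ev f j z) (TM.ev f j (Z σ)) x
      linarith
    rw [← hzσ]
    exact hz'
  · have key : ∀ σ σ' : ℤ → Bool, Z σ = Z σ' → ∀ k, σ k = true → σ' k = true := by
      intro σ σ' hZ k hk
      by_contra hk'
      have h1 := hZQ σ (k * l) w (Or.inl ⟨k, by simpa using hN', hk, by simp⟩)
      have h2 := hZQ σ' (k * l) (TM.ev f (k * l) p) (Or.inr ⟨fun k' hk2 => ?_, rfl⟩)
      · rw [hpk k, ← hZ] at h2
        have h3 := dist_triangle_left w p (TM.ev f (k * l) (Z σ))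
        have h4 := dist_triangle y p w
        have h5 := hpy.trans_le (min_le_right _ _)
        rw [dist_comm] at h5
        rw [dist_comm w p] at h3
        linarith
      · have hne : k' ≠ k := fun h => hk' (h ▸ hk2)
        have h6 : (1 : ℤ) ≤ |k - k'| := Int.one_le_abs (sub_ne_zero.2 hne.symm)
        rw [← sub_mul, abs_mul, abs_of_pos (by omega : (0 : ℤ) < l)]
        nlinarith
    intro σ σ' hZ
    funext k
    rcases hb : σ k with _ | _
    · rcases hb' : σ' k with _ | _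
      · rfl
      · have := key σ' σ hZ.symm k hb'
        rw [hb] at this
        exact absurd this (by decide)
    · rw [key σ σ' hZ k hb]
  · rw [← ev_nat]
    refine exp_ev B.exp fun j => ?_
    obtain ⟨x, hx⟩ := exists_Q f p w N l (fun k => σ (k + 1)) j
    have h1 := hZQ _ j x hx
    have h2 := hZQ σ (j + l) x (Q_shift hpl hx)
    rw [ev_add] at h2
    have h5 := dist_triangle_right (TM.ev f j (TM.ev f l (Z σ)))
      (TM.ev f j (Z fun k => σ (k + 1))) x
    linarith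

end Pool.Agent.Lib.MP610fe3.FT
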