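import Pool.Agent.Lib.MP_610fe3_an.FT.Spec
import Pool.Agent.Lib.MP_610fe3_an.TC.Lim

/-!
# The factor theorem, module LIMA: limits of continua on which `h` is almost constant
-/

open Set Filter Function
open scoped Topology

namespace Pool.Agent.Lib.MP610fe3.FT

open TM N3

universe u v

open TC.LimC TD.LimM in
/-- LIMA. -/
theorem specLimA : SpecLimA.{u, v} := by
  classical
  intro X _ _ f S Y _ h E c₁ hS hh hc hK
  choose K hCl hd using fun n : ℕ => hK (1 / ((n : ℝ) + 1)) (by positivity)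
  obtain ⟨F, hF⟩ := Ultrafilter.exists_le (atTop : Filter ℕ)
  have hne : ∀ n, (K n).Nonempty := fun n => (hCl n).conn.nonempty
  have hseq : ∀ y ∈ Lst F K, ∃ p : ℕ → X, (∀ n, p n ∈ K n) ∧ Tendsto p F (𝓝 y) := fun y hy =>
    exists_seq hne (fun n => (hCl n).cpt) hy
  have hsub : ∀ y ∈ Lst F K, y ∈ S := by
    intro y hy
    obtain ⟨p, hp, hpy⟩ := hseq y hy
    exact hS.mem_of_tendsto hpy (Eventually.of_forall fun n => (hCl n).sub (hp n))
  have hlim : ∀ y ∈ Lst F K, ∀ p : ℕ → X, (∀ n, p n ∈ K n) → Tendsto p F (𝓝 y) →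
      Tendsto (fun n => h (p n)) F (𝓝 (h y)) := by
    intro y hy p hp hpy
    have h1 : Tendsto p F (𝓝[S] y) :=
      tendsto_nhdsWithin_iff.2 ⟨hpy, Eventually.of_forall fun n => (hCl n).sub (hp n)⟩
    exact (hh y (hsub y hy)).tendsto.comp h1
  refine ⟨Lst F K, ⟨(isClosed_lst _ _).isCompact, conn_lst F fun n => (hCl n).conn, hsub, ?_, ?_⟩,
    ?_⟩
  · intro x hx y hy
    obtain ⟨p, hp, hpx⟩ := hseq x hx
    obtain ⟨q, hq, hqy⟩ := hseq y hy
    exact mem_lim hpx hqy (Eventually.of_forall fun n => (hCl n).sz _ (hp n) _ (hq n))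
  · choose x hx y hy hxy using fun n => (hCl n).big
    obtain ⟨x₀, hx₀⟩ := exists_ulim F x
    obtain ⟨y₀, hy₀⟩ := exists_ulim F y
    refine ⟨x₀, lim_mem (Eventually.of_forall hx) hx₀, y₀, lim_mem (Eventually.of_forall hy) hy₀,
      ?_⟩
    exact ge_of_tendsto (hx₀.dist hy₀) (Eventually.of_forall hxy)
  · intro x hx y hy
    obtain ⟨p, hp, hpx⟩ := hseq x hx
    obtain ⟨q, hq, hqy⟩ := hseq y hy
    have h1 : Tendsto (fun n => dist (h (p n)) (h (q n))) F (𝓝 (dist (h x) (h y))) :=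
      (hlim x hx p hp hpx).dist (hlim y hy q hq hqy)
    have h2 : Tendsto (fun n : ℕ => 1 / ((n : ℝ) + 1)) F (𝓝 0) :=
      tendsto_one_div_add_atTop_nhds_zero_nat.mono_left hF
    have h3 : dist (h x) (h y) ≤ 0 :=
      le_of_tendsto_of_tendsto h1 h2 (Eventually.of_forall fun n => hd n _ (hp n) _ (hq n))
    exact dist_le_zero.1 h3

end Pool.Agent.Lib.MP610fe3.FT
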