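import Pool.Agent.Lib.MP_610fe3_an.FT.Spec

/-!
# The factor theorem: module LPL (helper72)
-/

open Set Filter Function
open scoped Topology

namespace Pool.Agent.Lib.MP610fe3.FT

open TM N3

universe u v

namespace LplM

variable {X : Type*} [MetricSpace X]

/-- a loop of length `l` at `z` through `y`. -/
def Lp (f : X → X) (A : Set X) (δ : ℝ) (y : X) (l : ℕ) (z : X) : Prop :=
  ∃ s : ℕ → X, s 0 = z ∧ s l = z ∧ (∀ i ≤ l, s i ∈ A) ∧
    (∀ i < l, dist (f (s i)) (s (i + 1)) < δ) ∧ ∃ i, 0 < i ∧ i < l ∧ s i = y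

theorem concat {f : X → X} {A : Set X} {δ : ℝ} {y z : X} {m n : ℕ} (hm : 0 < m) (hn : 0 < n)
    (h1 : ChOn f A δ m z y) (h2 : ChOn f A δ n y z) : Lp f A δ y (m + n) z := by
  obtain ⟨s, s0, sm, sA, sd⟩ := h1
  obtain ⟨t, t0, tn, tA, td⟩ := h2
  refine ⟨fun i => if i ≤ m then s i else t (i - m), ?_, ?_, ?_, ?_, m, hm, by omega, ?_⟩
  · simp [s0]
  · have : ¬ m + n ≤ m := by omega
    simp only [this, if_false]
    rw [show m + n - m = n by omega, tn]
  · intro i hi
    by_cases h : i ≤ m
    · simp only [h, if_true]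
      exact sA i h
    · simp only [h, if_false]
      exact tA _ (by omega)
  · intro i hi
    by_cases h : i < m
    · have e1 : i ≤ m := h.le
      have e2 : i + 1 ≤ m := h
      simp only [e1, e2, if_true]
      exact sd i h
    · by_cases h' : i = m
      · subst h'
        have e1 : ¬ i + 1 ≤ i := by omega
        simp only [le_refl, e1, if_true, if_false]
        rw [show i + 1 - i = 1 by omega, sm, ← t0]
        exact td 0 hn
      · have e1 : ¬ i ≤ m := by omega
        have e2 : ¬ i + 1 ≤ m := by omega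
        simp only [e1, e2, if_false]
        rw [show i + 1 - m = (i - m) + 1 by omega]
        exact td _ (by omega)
  · simp [sm]

theorem repeat_loop {f : X → X} {A : Set X} {δ : ℝ} {y z : X} {l : ℕ} (h : Lp f A δ y l z)
    {k : ℕ} (hk : 0 < k) : Lp f A δ y (l * k) z := by
  obtain ⟨s, s0, sl, sA, sd, i, hi0, hil, si⟩ := h
  have hl : 0 < l := by omega
  refine ⟨fun i => s (i % l), ?_, ?_, ?_, ?_, i, hi0, ?_, ?_⟩
  · simp [s0]
  · simp [s0]
  · intro j _
    exact sA _ (Nat.mod_lt _ hl).le
  · intro j _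
    have h1 : j % l < l := Nat.mod_lt _ hl
    have h2 := sd (j % l) h1
    by_cases h3 : j % l + 1 = l
    · have h4 : (j + 1) % l = 0 := by
        rw [Nat.add_mod]
        rcases Nat.lt_or_ge 1 l with h5 | h5
        · rw [Nat.mod_eq_of_lt h5, h3, Nat.mod_self]
        · have : l = 1 := by omega
          subst this
          simp [Nat.mod_one]
      simp only [h4]
      rw [h3, sl, ← s0] at h2
      exact h2
    · have h4 : (j + 1) % l = j % l + 1 := by
        have h6 : 1 < l := by omega
        rw [Nat.add_mod, Nat.mod_eq_of_lt h6, Nat.mod_eq_of_lt (by omega)]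
      simp only [h4]
      exact h2
  · exact hil.trans_le (Nat.le_mul_of_pos_right _ hk)
  · simp only [Nat.mod_eq_of_lt hil, si]

end LplM

open LplM in
theorem specLpl (hTch : SpecTch.{u}) : SpecLpl.{u} := by
  classical
  intro X _ _ f A y δ hA hfA hT hy hδ
  have hc : IsCompact A := hA.isCompact
  have huc := (CompactSpace.uniformContinuous_of_continuous f.continuous)
  rw [Metric.uniformContinuous_iff] at huc
  obtain ⟨δ₀, hδ₀, huc⟩ := huc (δ / 4) (by positivity)
  have hδ₁ : 0 < min δ₀ (δ / 4) := lt_min hδ₀ (by positivity)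
  obtain ⟨F, hFA, hFin, hcov⟩ := hc.finite_cover_balls hδ₁
  have hloop : ∀ z ∈ A, ∃ l : ℕ, 0 < l ∧ Lp f A (δ / 4) y l z := by
    intro z hz
    obtain ⟨m, hm, h1⟩ := hTch X f A (δ / 4) hfA hT (by positivity) z hz y hy
    obtain ⟨n, hn, h2⟩ := hTch X f A (δ / 4) hfA hT (by positivity) y hy z hz
    exact ⟨m + n, by omega, concat hm hn h1 h2⟩
  choose! L hL0 hL using hloop
  refine ⟨∏ z ∈ hFin.toFinset, L z, Finset.prod_pos fun z hz => hL0 z (hFA (hFin.mem_toFinset.1 hz)),
    fun x hx => ?_⟩
  obtain ⟨z, hzF, hxz⟩ := mem_iUnion₂.1 (hcov hx)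
  have hzA := hFA hzF
  have hprod : L z * ∏ w ∈ hFin.toFinset.erase z, L w = ∏ z ∈ hFin.toFinset, L z :=
    Finset.mul_prod_erase _ _ (hFin.mem_toFinset.2 hzF)
  have hlp : Lp f A (δ / 4) y (∏ z ∈ hFin.toFinset, L z) z := by
    rw [← hprod]
    exact repeat_loop (hL z hzA) (Finset.prod_pos fun w hw =>
      hL0 w (hFA (hFin.mem_toFinset.1 (Finset.mem_of_mem_erase hw))))
  obtain ⟨s, s0, sl, sA, sd, i, hi0, hil, si⟩ := hlp
  set l := ∏ z ∈ hFin.toFinset, L z with hl
  have hdx : dist x z < min δ₀ (δ / 4) := hxz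
  have hclose : ∀ j, dist (if j = 0 ∨ j = l then x else s j) (s j) < min δ₀ (δ / 4) := by
    intro j
    by_cases h : j = 0 ∨ j = l
    · rw [if_pos h]
      have : s j = z := by
        rcases h with rfl | rfl
        · exact s0
        · exact sl
      rw [this]
      exact hdx
    · rw [if_neg h, dist_self]
      exact hδ₁
  refine ⟨fun j => if j = 0 ∨ j = l then x else s j, by simp, by simp, ?_, ?_, i, hil, ?_⟩
  · intro j hj
    by_cases h : j = 0 ∨ j = l
    · simp only [h, if_true]
      exact hx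
    · simp only [h, if_false]
      exact sA j hj
  · intro j hj
    have h1 := huc ((hclose j).trans_le (min_le_left _ _))
    have h2 := (hclose (j + 1)).trans_le (min_le_right _ _)
    have h3 := sd j hj
    have h4 := dist_triangle4 (f (if j = 0 ∨ j = l then x else s j)) (f (s j)) (s (j + 1))
      (if j + 1 = 0 ∨ j + 1 = l then x else s (j + 1))
    rw [dist_comm (s (j + 1))] at h4
    simp only
    linarith
  · have h : ¬ (i = 0 ∨ i = l) := by omega
    simp only [h, if_false]
    exact si

end Pool.Agent.Lib.MP610fe3.FT
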