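import Pool.Agent.Lib.MP_610fe3_an.FT.Spec

/-!
# MP_610fe3_an, FT, module MNR: a minimal class
-/

open Set Filter Function
open scoped Topology

namespace Pool.Agent.Lib.MP610fe3.FT

universe u

open TM N3

namespace MNRM

variable {X : Type u} [MetricSpace X] [CompactSpace X] {f : X ≃ₜ X} {U : Set X}

theorem reach_mem (hT : Trap f U) {x y : X} (hx : x ∈ U) (h : Reach f x y) : y ∈ U := by
  obtain ⟨η, hη, hm⟩ := hT.exists_margin
  obtain ⟨m, s, _, h0, hms, hs⟩ := h η hη
  have key : ∀ i, i ≤ m → s i ∈ U := by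
    intro i
    induction i with
    | zero => intro _; rw [h0]; exact hx
    | succ i ih =>
      intro hi
      refine hm _ (ih (by omega)) _ ?_
      rw [dist_comm]
      exact hs i (by omega)
  rw [← hms]
  exact key m le_rfl

theorem reach_att (hT : Trap f U) {y z : X} (hy : y ∈ Att f U) (hz : z ∈ Om f)
    (h : Reach f y z) : z ∈ Att f U := by
  intro n
  rw [ev_neg_nat]
  have h1 := reach_of_mem_Om (symm_iterate_mem_Om hz n) n
  have h2 : f^[n] (f.symm^[n] z) = z := by
    have h3 : Function.LeftInverse f f.symm := fun w => f.apply_symm_apply w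
    exact h3.iterate n z
  rw [h2] at h1
  exact reach_mem hT (att_sub hy) (h.trans h1)

end MNRM

open MNRM in
theorem specMnr : SpecMnr.{u} := by
  classical
  intro X _ _ f U c hc0 hc hsh hT hne
  obtain ⟨x, hx⟩ := hne
  obtain ⟨y, hy, hxy⟩ := exists_fwdAsymp hc0 hc hsh x
  have hyA : y ∈ Att f U := reach_att hT hx hy (reach_of_fwdAsymp hy hxy)
  obtain ⟨δ, hδ, hR⟩ := exists_reach hc0 hc hsh
  have hK : IsCompact (Om f ∩ Att f U) := ((isClosed_Om f).inter (isClosed_att hT)).isCompact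
  obtain ⟨t, htK, htf, htc⟩ := hK.finite_cover_balls hδ
  set F : Finset X := htf.toFinset with hF
  set N : X → ℕ := fun y => (F.filter (fun q => Reach f y q)).card with hN
  obtain ⟨y₀, hy₀, hmin⟩ := WellFounded.has_min (measure N).wf (Om f ∩ Att f U) ⟨y, hy, hyA⟩
  have h3 : ∀ y' ∈ Om f ∩ Att f U, Reach f y₀ y' → Reach f y' y₀ := by
    intro y' hy' h
    have hsub : F.filter (fun q => Reach f y' q) ⊆ F.filter (fun q => Reach f y₀ q) := by
      intro q hq
      rw [Finset.mem_filter] at hq ⊢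
      exact ⟨hq.1, h.trans hq.2⟩
    have hcard : (F.filter (fun q => Reach f y₀ q)).card ≤ (F.filter (fun q => Reach f y' q)).card :=
      not_lt.1 (hmin y' hy')
    have heq := Finset.eq_of_subset_of_card_le hsub hcard
    have h4 := htc hy₀
    rw [Set.mem_iUnion₂] at h4
    obtain ⟨q, hqt, hq⟩ := h4
    rw [Metric.mem_ball] at hq
    have hqK := htK hqt
    have h5 : q ∈ F.filter (fun q => Reach f y₀ q) := by
      rw [Finset.mem_filter]
      exact ⟨htf.mem_toFinset.2 hqt, hR y₀ hy₀.1 q hqK.1 hq⟩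
    rw [← heq, Finset.mem_filter] at h5
    exact h5.2.trans (hR q hqK.1 y₀ hy₀.1 (by rw [dist_comm]; exact hq))
  refine ⟨y₀, hy₀.2, hy₀.1, fun z hz => ?_⟩
  obtain ⟨y', hy', hzy⟩ := exists_fwdAsymp hc0 hc hsh z
  have h6 : Reach f z y' := reach_of_fwdAsymp hy' hzy
  have h7 : Reach f y₀ y' := hz.trans h6
  exact h6.trans (h3 y' ⟨hy', reach_att hT hy₀.2 hy' h7⟩ h7)

end Pool.Agent.Lib.MP610fe3.FT
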