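import Pool.Agent.Lib.MP_610fe3_an.FT.Spec

/-!
# Factor theorem, module MNT: from chains in `X` to transitivity on the attractor
-/

open Set Filter Function
open scoped Topology

namespace Pool.Agent.Lib.MP610fe3.FT

open TM N3

universe u v

/-- module MNT -/
theorem specMnt : SpecMnt.{u} := by
  intro X _ _ f U c hc0 hc hsh hT hR V W hV hW hVA hWA
  obtain ⟨x, hxV, hxA⟩ := hVA
  obtain ⟨y, hyW, hyA⟩ := hWA
  obtain ⟨r₁, hr₁, hb₁⟩ := Metric.isOpen_iff.1 hV x hxV
  obtain ⟨r₂, hr₂, hb₂⟩ := Metric.isOpen_iff.1 hW y hyW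
  have hε : 0 < min (min (r₁ / 2) (r₂ / 2)) c := lt_min (lt_min (by positivity) (by positivity)) hc0
  obtain ⟨δ, hδ, H⟩ := chainShadow hsh hε
  obtain ⟨m, s, -, hs0, hsm, hsd⟩ := hR x hxA y hyA δ hδ
  obtain ⟨z, hz1, hz2⟩ := H m s hsd
  rw [hs0, mem_Sp_symm] at hz1
  rw [hsm] at hz2
  have hzx : dist z x < r₁ := by
    have h1 := hz1 0
    simp only [Nat.cast_zero, neg_zero, ev_zero] at h1
    have h2 : min (min (r₁ / 2) (r₂ / 2)) c ≤ r₁ / 2 := (min_le_left _ _).trans (min_le_left _ _)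
    linarith
  have hzy : dist (f^[m] z) y < r₂ := by
    have h1 := hz2 0
    simp only [Nat.cast_zero, ev_zero] at h1
    rw [ev_nat] at h1
    have h2 : min (min (r₁ / 2) (r₂ / 2)) c ≤ r₂ / 2 := (min_le_left _ _).trans (min_le_right _ _)
    linarith
  have hzA : z ∈ Att f U := by
    apply att_sat hT hxA
    have h1 : FwdAsymp f.symm z x := by
      apply hc.symm.fwdAsymp
      intro k
      have h2 := hz1 k
      rw [ev_neg_nat, ev_neg_nat] at h2
      exact h2.trans (min_le_right _ _)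
    refine h1.congr fun k => ?_
    rw [ev_neg_nat, ev_neg_nat]
  exact ⟨m, z, ⟨hb₁ (Metric.mem_ball.2 hzx), hzA⟩, hb₂ (Metric.mem_ball.2 hzy)⟩

end Pool.Agent.Lib.MP610fe3.FT
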