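import Pool.Agent.Lib.MP_610fe3_an.FT.Spec
import Pool.Agent.Lib.MP_610fe3_an.TM.Edge

/-!
# The factor theorem, module MNU: a minimal class is an attractor
-/

open Set Filter Function
open scoped Topology

namespace Pool.Agent.Lib.MP610fe3.FT

open TM N3

universe u v

namespace MNUM

variable {X : Type*} [MetricSpace X] {f : X ≃ₜ X}

/-- The set of the ends of `ε`-chains from `x` is a trapping region. -/
theorem trap_chain (f : X ≃ₜ X) (x : X) {ε : ℝ} (hε : 0 < ε) : Trap f {z | Chain f ε x z} := by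
  refine ⟨?_, ?_⟩
  · rw [Metric.isOpen_iff]
    rintro z ⟨m, c, hm, h0, hl, hc⟩
    have h1 : dist (f (c (m - 1))) z < ε := by
      have := hc (m - 1) (by omega)
      rwa [show m - 1 + 1 = m by omega, hl] at this
    refine ⟨ε - dist (f (c (m - 1))) z, by linarith, fun w hw => ?_⟩
    rw [Metric.mem_ball] at hw
    refine ⟨m, fun i => if i = m then w else c i, hm, ?_, by simp, fun i hi => ?_⟩
    · have : ¬ (0 = m) := by omega
      simp [this, h0]
    · have h2 : ¬ (i = m) := by omega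
      simp only [h2, if_false]
      by_cases h3 : i + 1 = m
      · simp only [h3, if_true]
        have h4 : i = m - 1 := by omega
        rw [h4]
        have := dist_triangle (f (c (m - 1))) z w
        rw [dist_comm z w] at this
        linarith
      · simp only [h3, if_false]
        exact hc i hi
  · intro z hz
    obtain ⟨r, hr, hfr⟩ := Metric.continuous_iff.1 f.continuous z ε hε
    obtain ⟨z', hz', hd⟩ := Metric.mem_closure_iff.1 hz r hr
    have h1 : dist (f z') (f z) < ε := hfr z' (by rwa [dist_comm])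
    have h2 : Chain f ε z' (f z) := ⟨1, fun i => if i = 0 then z' else f z, one_pos, by simp,
      by simp, fun i hi => by
        have : i = 0 := by omega
        subst this
        simpa using h1⟩
    exact Chain.trans hz' h2

theorem att_mono {U V : Set X} (h : U ⊆ V) : Att f U ⊆ Att f V := fun _ hx n => h (hx n)

/-- Chains with small steps which start in a trapping region stay there. -/
theorem chain_sub [CompactSpace X] {U : Set X} (hT : Trap f U) :
    ∃ η : ℝ, 0 < η ∧ ∀ ε : ℝ, ε ≤ η → ∀ x ∈ U, {z | Chain f ε x z} ⊆ U := by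
  obtain ⟨η, hη, hm⟩ := hT.exists_margin
  refine ⟨η, hη, fun ε hε x hx z hz => ?_⟩
  obtain ⟨m, s, -, h0, hl, hs⟩ := hz
  have key : ∀ i, i ≤ m → s i ∈ U := by
    intro i
    induction i with
    | zero => intro _; rwa [h0]
    | succ i ih =>
      intro hi
      refine hm _ (ih (by omega)) _ ?_
      rw [dist_comm]
      exact (hs i (by omega)).trans_le hε
  rw [← hl]
  exact key m le_rfl

theorem one_div_small {ε : ℝ} (hε : 0 < ε) : ∃ n₀ : ℕ, ∀ n : ℕ, n₀ ≤ n → 1 / ((n : ℝ) + 1) < ε := by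
  obtain ⟨n₀, hn₀⟩ := exists_nat_one_div_lt hε
  refine ⟨n₀, fun n hn => lt_of_le_of_lt ?_ hn₀⟩
  apply one_div_le_one_div_of_le (by positivity)
  have : (n₀ : ℝ) ≤ n := by exact_mod_cast hn
  linarith

variable [CompactSpace X]

theorem reach_sub_att {c : ℝ} (hc0 : 0 < c) (hc : ExpConst f c) (hsh : Shadowing f) {y₀ : X}
    (hmin : ∀ z, Reach f y₀ z → Reach f z y₀) {ε : ℝ} (hε : 0 < ε) :
    {z | Reach f y₀ z} ⊆ Att f {z | Chain f ε y₀ z} := by
  intro z hz n
  have h1 : Reach f z z := (hmin z hz).trans hz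
  have h2 : z ∈ Om f := mem_closure_of_reach hc0 hc hsh h1
  have h3 := reach_of_mem_Om (symm_iterate_mem_Om h2 n) n
  have h4 : f^[n] (f.symm^[n] z) = z := (Function.RightInverse.iterate f.apply_symm_apply n) z
  rw [h4] at h3
  rw [ev_neg_nat]
  exact (Reach.trans hz h3) ε hε

theorem att_sub_reach {c : ℝ} (hc0 : 0 < c) (hc : ExpConst f c) (hsh : Shadowing f) (y₀ : X) :
    ∃ ε₀ : ℝ, 0 < ε₀ ∧ Att f {z | Chain f ε₀ y₀ z} ⊆ {z | Reach f y₀ z} := by
  by_contra hnot
  push Not at hnot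
  have h1 : ∀ n : ℕ, ∃ z ∈ Att f {z | Chain f (1 / ((n : ℝ) + 1)) y₀ z}, ¬ Reach f y₀ z := by
    intro n
    have h2 := hnot (1 / ((n : ℝ) + 1)) (by positivity)
    rw [Set.not_subset] at h2
    exact h2
  choose z hzA hzR using h1
  have h2 : ∀ n : ℕ, ∃ y ∈ Om f, FwdAsymp f.symm (z n) y := by
    intro n
    obtain ⟨y, hy, hyz⟩ := exists_fwdAsymp hc0 hc.symm (Shadowing_symm hsh) (z n)
    rw [Om_symm] at hy
    exact ⟨y, hy, hyz⟩
  choose y hyO hyz using h2
  have hch : ∀ n : ℕ, Chain f (1 / ((n : ℝ) + 1) + 1 / ((n : ℝ) + 1)) y₀ (y n) := by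
    intro n
    have hpos : (0 : ℝ) < 1 / ((n : ℝ) + 1) := by positivity
    obtain ⟨k, hk⟩ := (Metric.tendsto_atTop.1 (hyz n)) _ hpos
    have h3 := hk (k + 1) (by omega)
    rw [Real.dist_0_eq_abs, abs_of_nonneg dist_nonneg] at h3
    have h4 := hzA n (k + 1)
    rw [ev_neg_nat] at h4
    have h5 := Chain.last h4 h3
    have h6 := chain_iterate (f := f) (add_pos hpos hpos) (f.symm^[k + 1] (y n))
      (Nat.succ_pos k)
    have h7 : f^[k + 1] (f.symm^[k + 1] (y n)) = y n :=
      (Function.RightInverse.iterate f.apply_symm_apply (k + 1)) (y n)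
    rw [h7] at h6
    exact h5.trans h6
  obtain ⟨y', -, ψ, hψ, hlim⟩ := (isCompact_univ (X := X)).tendsto_subseq
    (x := y) (fun _ => mem_univ _)
  have hy'O : y' ∈ Om f := (isClosed_Om f).mem_of_tendsto hlim
    (Eventually.of_forall fun n => hyO (ψ n))
  have hR : Reach f y₀ y' := by
    intro ε hε
    obtain ⟨n₀, hn₀⟩ := one_div_small (show 0 < ε / 3 by positivity)
    obtain ⟨n₁, hn₁⟩ := (Metric.tendsto_atTop.1 hlim) (ε / 3) (by positivity)
    have h3 := hn₁ (max n₀ n₁) (le_max_right _ _)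
    have h4 := hn₀ (ψ (max n₀ n₁)) ((le_max_left _ _).trans (hψ.id_le _))
    exact ((hch (ψ (max n₀ n₁))).last h3).mono (by linarith)
  obtain ⟨δ, hδ, hd⟩ := exists_reach hc0 hc hsh
  obtain ⟨n₁, hn₁⟩ := (Metric.tendsto_atTop.1 hlim) δ hδ
  have h3 := hn₁ n₁ le_rfl
  rw [dist_comm] at h3
  have h4 := hd y' hy'O _ (hyO (ψ n₁)) h3
  have h5 := reach_of_bwdAsymp (hyO (ψ n₁)) (hyz (ψ n₁))
  exact hzR (ψ n₁) ((hR.trans h4).trans h5)

end MNUM

open MNUM in
theorem specMnu : SpecMnu.{u} := by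
  intro X _ _ f U c y₀ hc0 hc hsh hT hyA hyO hmin
  obtain ⟨η, hη, hsub⟩ := chain_sub hT
  obtain ⟨ε₀, hε₀, hA⟩ := att_sub_reach hc0 hc hsh y₀
  have hε : 0 < min ε₀ η := lt_min hε₀ hη
  refine ⟨{z | Chain f (min ε₀ η) y₀ z}, hsub _ (min_le_right _ _) y₀ (att_sub hyA),
    trap_chain f y₀ hε, Subset.antisymm ?_ (reach_sub_att hc0 hc hsh hmin hε)⟩
  exact (att_mono fun z hz => Chain.mono hz (min_le_left _ _)).trans hA

end Pool.Agent.Lib.MP610fe3.FT
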