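import Pool.Agent.Lib.MP_610fe3_an.FT.Spec

/-!
# The factor theorem: module PER (helper68), periodic points in a transitive attractor
-/

open Set Filter Function
open scoped Topology

namespace Pool.Agent.Lib.MP610fe3.FT

open TM N3

universe u v

theorem specPer (hTch : SpecTch.{u}) : SpecPer.{u} := by
  intro X _ _ f U e C a c B hT htr y hy ρ hρ
  obtain ⟨ε₁, hε₁, hn⟩ := exists_near_att hT
  obtain ⟨δ, hδ, hcl⟩ := closing B.c0 B.exp B.shad (lt_min hρ hε₁)
  have hmap : ∀ x ∈ Att f U, f x ∈ Att f U := fun x hx => by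
    have := att_ev hT hx 1
    rwa [ev_one] at this
  obtain ⟨m, hm, s, hs0, hsm, hsA, hsd⟩ := hTch X f (Att f U) δ hmap htr hδ y hy y hy
  obtain ⟨p, hp, hps⟩ := hcl m s hm (hsm.trans hs0.symm) hsd
  have hP : IsPeriodicPt f m p := hp
  refine ⟨p, hn p fun n => ?_, m, hm, hp, ?_⟩
  · have h1 : ev f (-(n : ℤ)) p = f^[(m * n - n) % m] p := by
      have h2 : ev f ((m * n : ℕ) : ℤ) p = p := by
        rw [ev_nat]
        exact hP.mul_const n
      have h3 : n ≤ m * n := Nat.le_mul_of_pos_left n hm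
      calc ev f (-(n : ℤ)) p = ev f (-(n : ℤ)) (ev f ((m * n : ℕ) : ℤ) p) := by rw [h2]
        _ = ev f ((m * n - n : ℕ) : ℤ) p := by
            rw [← ev_add]
            congr 1
            rw [Nat.cast_sub h3]
            ring
        _ = _ := by rw [ev_nat, hP.iterate_mod_apply]
    have h4 : (m * n - n) % m < m := Nat.mod_lt _ hm
    refine ⟨s ((m * n - n) % m), hsA _ h4.le, ?_⟩
    rw [h1]
    exact (hps _ h4).trans_le (min_le_right _ _)
  · have h1 := (hps 0 hm).trans_le (min_le_left _ _)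
    rw [hs0] at h1
    exact h1

end Pool.Agent.Lib.MP610fe3.FT
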