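import Pool.Agent.Lib.MP_610fe3_an.FT.Spec

/-!
# FT, module PSB: inserting one loop through `y` in each of `m` blocks of length `K`
-/

set_option autoImplicit false

open Set Filter Function
open scoped Topology

namespace Pool.Agent.Lib.MP610fe3.FT

open TM N3

universe u v

namespace PsbM

variable {X : Type*} [MetricSpace X]

/-- the point with index `s` of the block `i` -/
noncomputable def pt (f : X ≃ₜ X) (c : X → ℕ → X) (K l : ℕ) (J : ℕ → ℕ) (x : X) (i s : ℕ) : X :=
  if s < J i then f^[i * K + s] x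
  else if s < J i + l then c (f^[i * K + J i] x) (s - J i) else f^[i * K + (s - l)] x

/-- the pseudo orbit -/
noncomputable def P (f : X ≃ₜ X) (c : X → ℕ → X) (K l : ℕ) (J : ℕ → ℕ) (x : X) : ℤ → X
  | Int.ofNat n => pt f c K l J x (n / (K + l)) (n % (K + l))
  | Int.negSucc n => ev f (Int.negSucc n) x

variable {f : X ≃ₜ X} {c : X → ℕ → X} {K l : ℕ} {J : ℕ → ℕ} {x : X} {A : Set X} {δ : ℝ}

lemma pt_zero (hl : 0 < l) (hc0 : ∀ v ∈ A, c v 0 = v) (hA : ∀ n, f^[n] x ∈ A) (i : ℕ) :
    pt f c K l J x i 0 = f^[i * K] x := by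
  unfold pt
  rcases Nat.eq_zero_or_pos (J i) with h | h
  · rw [h]; simp [hl, hc0 _ (hA _)]
  · simp [h]

lemma pt_last (hJ : ∀ i, J i < K) (i : ℕ) :
    pt f c K l J x i (K + l - 1) = f^[i * K + (K - 1)] x := by
  have h := hJ i
  unfold pt
  rw [if_neg (by omega), if_neg (by omega)]
  congr 2
  omega

lemma it_succ (n : ℕ) (x : X) : f (f^[n] x) = f^[n + 1] x := by
  rw [iterate_succ_apply']

lemma pt_step (hδ : 0 < δ) (hl : 0 < l) (hc0 : ∀ v ∈ A, c v 0 = v) (hcl : ∀ v ∈ A, c v l = v)
    (hcs : ∀ v ∈ A, ∀ i < l, dist (f (c v i)) (c v (i + 1)) < δ) (hA : ∀ n, f^[n] x ∈ A)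
    (i s : ℕ) : dist (f (pt f c K l J x i s)) (pt f c K l J x i (s + 1)) < δ := by
  unfold pt
  rcases lt_trichotomy (s + 1) (J i) with h | h | h
  · rw [if_pos (by omega), if_pos h, it_succ, add_assoc, dist_self]
    exact hδ
  · rw [if_pos (by omega), if_neg (by omega), if_pos (by omega), it_succ, ← h]
    have h1 : s + 1 - (s + 1) = 0 := by omega
    rw [h1, hc0 _ (hA _), ← add_assoc, dist_self]
    exact hδ
  · rcases lt_or_ge s (J i + l) with h2 | h2
    · rw [if_neg (by omega), if_pos h2, if_neg (by omega)]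
      rcases lt_or_ge (s + 1) (J i + l) with h3 | h3
      · rw [if_pos h3]
        have h4 : s + 1 - J i = (s - J i) + 1 := by omega
        rw [h4]
        exact hcs _ (hA _) _ (by omega)
      · rw [if_neg (by omega)]
        have h4 : s + 1 - l = J i := by omega
        have h5 := hcs _ (hA (i * K + J i)) (s - J i) (by omega)
        have h6 : s - J i + 1 = l := by omega
        rw [h6, hcl _ (hA _)] at h5
        rw [h4]
        exact h5
    · rw [if_neg (by omega), if_neg (by omega), if_neg (by omega), if_neg (by omega), it_succ]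
      have h4 : i * K + (s - l) + 1 = i * K + (s + 1 - l) := by omega
      rw [h4, dist_self]
      exact hδ

lemma P_step (hδ : 0 < δ) (hl : 0 < l) (hc0 : ∀ v ∈ A, c v 0 = v) (hcl : ∀ v ∈ A, c v l = v)
    (hcs : ∀ v ∈ A, ∀ i < l, dist (f (c v i)) (c v (i + 1)) < δ) (hA : ∀ n, f^[n] x ∈ A)
    (hJ : ∀ i, J i < K) (t : ℤ) :
    dist (f (P f c K l J x t)) (P f c K l J x (t + 1)) < δ := by
  match t with
  | Int.ofNat n =>
    have h1 : (Int.ofNat n : ℤ) + 1 = Int.ofNat (n + 1) := rfl
    rw [h1]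
    simp only [P]
    set q := K + l with hq
    have hq0 : 0 < q := by omega
    have hs : n % q < q := Nat.mod_lt _ hq0
    rcases Nat.lt_or_ge (n % q + 1) q with h2 | h2
    · have h3 : (n + 1) / q = n / q ∧ (n + 1) % q = n % q + 1 := by
        have h4 : n + 1 = q * (n / q) + (n % q + 1) := by
          have := Nat.div_add_mod n q; omega
        constructor
        · rw [h4, Nat.mul_add_div hq0, Nat.div_eq_of_lt h2, add_zero]
        · rw [h4, Nat.mul_add_mod, Nat.mod_eq_of_lt h2]
      rw [h3.1, h3.2]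
      exact pt_step hδ hl hc0 hcl hcs hA _ _
    · have h5 : n % q = q - 1 := by omega
      have h3 : (n + 1) / q = n / q + 1 ∧ (n + 1) % q = 0 := by
        have h4 : n + 1 = q * (n / q + 1) := by
          have := Nat.div_add_mod n q
          rw [Nat.mul_add]; omega
        constructor
        · rw [h4, Nat.mul_div_cancel_left _ hq0]
        · rw [h4, Nat.mul_mod_right]
      have hK : 0 < K := by have := hJ 0; omega
      rw [h3.1, h3.2, h5, hq, pt_last hJ, pt_zero hl hc0 hA, it_succ]
      have h6 : n / (K + l) * K + (K - 1) + 1 = (n / (K + l) + 1) * K := by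
        rw [Nat.add_mul, one_mul]; omega
      rw [← hq, ← hq] at *
      rw [h6, dist_self]
      exact hδ
  | Int.negSucc 0 =>
    have h1 : (Int.negSucc 0 : ℤ) + 1 = Int.ofNat 0 := rfl
    have h2 : f (ev f (Int.negSucc 0) x) = x := by
      rw [← ev_succ, h1]; simp
    rw [h1]
    simp only [P]
    rw [h2, Nat.zero_div, Nat.zero_mod, pt_zero hl hc0 hA]
    simp [hδ]
  | Int.negSucc (n + 1) =>
    have h1 : (Int.negSucc (n + 1) : ℤ) + 1 = Int.negSucc n := rfl
    rw [h1]
    simp only [P]
    rw [← ev_succ, h1, dist_self]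
    exact hδ

lemma P_mem (hAe : ∀ k : ℤ, ev f k x ∈ A) (hcA : ∀ v ∈ A, ∀ i ≤ l, c v i ∈ A) (t : ℤ) :
    P f c K l J x t ∈ A := by
  have hA : ∀ n : ℕ, f^[n] x ∈ A := fun n => by rw [← ev_nat]; exact hAe n
  match t with
  | Int.ofNat n =>
    simp only [P]
    unfold pt
    split_ifs with h1 h2
    · exact hA _
    · exact hcA _ (hA _) _ (by omega)
    · exact hA _
  | Int.negSucc n => exact hAe _

end PsbM

open PsbM in
theorem specPsb (hLpl : SpecLpl.{u}) : SpecPsb.{u} := by
  classical
  intro X _ _ f U y ε hS hT hTr hy hε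
  obtain ⟨δ, hδ, hsh⟩ := shad_att hS hT hε
  have hinv : ∀ x ∈ Att f U, ∀ k : ℤ, ev f k x ∈ Att f U := fun x hx k => att_ev hT hx k
  obtain ⟨l, hl, hloop⟩ := hLpl X f (Att f U) y δ (isClosed_att hT)
    (fun x hx => by have := hinv x hx 1; rwa [ev_one] at this) hTr hy hδ
  choose! c hc0 hcl hcA hcs hcy using hloop
  refine ⟨l, hl, fun K m J₀ hJ₀ x hx => ?_⟩
  rcases Nat.eq_zero_or_pos m with hm | hm
  · subst hm
    exact ⟨x, hx, fun i hi => absurd hi (by omega), fun i hi => absurd hi (by omega),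
      fun i hi => absurd hi (by omega)⟩
  have hK : 0 < K := by have := hJ₀ 0 hm; omega
  set J : ℕ → ℕ := fun i => if i < m then J₀ i else 0 with hJdef
  have hJ : ∀ i, J i < K := fun i => by
    simp only [hJdef]
    split_ifs with h
    · exact hJ₀ i h
    · exact hK
  have hJm : ∀ i < m, J i = J₀ i := fun i hi => by simp only [hJdef, if_pos hi]
  have hA : ∀ n : ℕ, f^[n] x ∈ Att f U := fun n => by rw [← ev_nat]; exact hinv x hx n
  obtain ⟨z, hz, hzd⟩ := hsh (P f c K l J x) (P_mem (hinv x hx) hcA)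
    (P_step hδ hl hc0 hcl hcs hA hJ)
  have key : ∀ i s : ℕ, s < K + l → dist (f^[i * (K + l) + s] z) (pt f c K l J x i s) < ε := by
    intro i s hs
    have h1 := hzd (Int.ofNat (i * (K + l) + s))
    have h2 : ev f (Int.ofNat (i * (K + l) + s)) z = f^[i * (K + l) + s] z := ev_nat _ _
    have h3 : P f c K l J x (Int.ofNat (i * (K + l) + s)) = pt f c K l J x i s := by
      simp only [P]
      have hq0 : 0 < K + l := by omega
      have h4 : i * (K + l) + s = (K + l) * i + s := by rw [mul_comm]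
      rw [h4, Nat.mul_add_div hq0, Nat.div_eq_of_lt hs, add_zero, Nat.mul_add_mod,
        Nat.mod_eq_of_lt hs]
    rwa [h2, h3] at h1
  refine ⟨z, hz, fun i hi => ?_, fun i hi s hs => ?_, fun i hi s hs hsK => ?_⟩
  · obtain ⟨r, hr, hry⟩ := hcy _ (hA (i * K + J i))
    refine ⟨r, hr, ?_⟩
    have h0 := hJ i
    have h1 := key i (J i + r) (by omega)
    have h2 : pt f c K l J x i (J i + r) = y := by
      unfold pt
      rw [if_neg (by omega), if_pos (by omega)]
      have h3 : J i + r - J i = r := by omega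
      rw [h3, hry]
    rw [h2] at h1
    rw [← hJm i hi, add_assoc]
    exact h1
  · have h0 := hJ i
    rw [← hJm i hi] at hs
    have h1 := key i s (by omega)
    have h2 : pt f c K l J x i s = f^[i * K + s] x := by
      unfold pt
      rw [if_pos hs]
    rwa [h2] at h1
  · rw [← hJm i hi] at hs
    have h1 := key i (s + l) (by omega)
    have h2 : pt f c K l J x i (s + l) = f^[i * K + s] x := by
      unfold pt
      rw [if_neg (by omega), if_neg (by omega), Nat.add_sub_cancel]
    rw [h2] at h1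
    rw [add_assoc]
    exact h1

end Pool.Agent.Lib.MP610fe3.FT
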