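import Pool.Agent.Lib.MP_610fe3_an.FT.Spec

/-!
# The factor theorem: continua in the attractor with small oscillation of `h`
-/

open Set Filter Function
open scoped Topology

namespace Pool.Agent.Lib.MP610fe3.FT

open TM N3

universe u v

namespace STPAM

section Grp

variable {G : Type*} [MetricSpace G] [CompactSpace G] [Group G] [IsTopologicalGroup G]

theorem exists_mul {δ : ℝ} (hδ : 0 < δ) :
    ∃ δ₂ : ℝ, 0 < δ₂ ∧ ∀ a b : G, dist (a⁻¹ * b) 1 < δ₂ → dist a b ≤ δ := by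
  have h1 : UniformContinuous fun p : G × G => p.1 * p.2 :=
    CompactSpace.uniformContinuous_of_continuous (continuous_fst.mul continuous_snd)
  rw [Metric.uniformContinuous_iff] at h1
  obtain ⟨δ₂, hδ₂, H⟩ := h1 δ hδ
  refine ⟨δ₂, hδ₂, fun a b hab => ?_⟩
  have h2 := @H (a, 1) (a, a⁻¹ * b) (by
    rw [Prod.dist_eq]
    simp only [dist_self]
    rw [dist_comm] at hab
    exact max_lt hδ₂ hab)
  simp only [mul_one, mul_inv_cancel_left] at h2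
  exact h2.le

theorem exists_inv {δ₂ : ℝ} (hδ : 0 < δ₂) :
    ∃ δ₁ : ℝ, 0 < δ₁ ∧ ∀ a b : G, dist a b < δ₁ → dist (a⁻¹ * b) 1 < δ₂ := by
  have h1 : UniformContinuous fun p : G × G => p.1⁻¹ * p.2 :=
    CompactSpace.uniformContinuous_of_continuous (continuous_fst.inv.mul continuous_snd)
  rw [Metric.uniformContinuous_iff] at h1
  obtain ⟨δ₁, hδ₁, H⟩ := h1 δ₂ hδ
  refine ⟨δ₁, hδ₁, fun a b hab => ?_⟩
  have h2 := @H (a, b) (a, a) (by
    rw [Prod.dist_eq]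
    simp only [dist_self]
    rw [dist_comm] at hab
    exact max_lt hδ₁ hab)
  simp only [inv_mul_cancel] at h2
  exact h2

end Grp

variable {X : Type*} [MetricSpace X] [CompactSpace X] {f : X ≃ₜ X} {U : Set X} {e C a : ℝ}

/-- A point in the local unstable set of a point of the attractor is in the attractor. -/
theorem mem_att (R : Rates f U e C a a a) (hT : Trap f U) {x y : X} (hx : x ∈ Att f U)
    {t : ℝ} (ht : t ≤ e) (hy : y ∈ Sp f.symm t x) : y ∈ Att f U :=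
  att_sat hT hx (R.un_tendsto (Sp_mono ht hy))

end STPAM

open STPAM TC TC.StpC in
theorem specStpA : SpecStpA.{u, v} := by
  classical
  intro X _ _ f U e C a c G _ _ _ _ L h ε E B hT hfr F hε hinv hE hEe
  obtain ⟨e₁, he₁, h0, h0'⟩ := B.reach
  have R := B.rates U
  have he := R.e0
  -- the constants
  obtain ⟨E', hE'0, hE'E, hE'ε⟩ : ∃ E' : ℝ, 0 < E' ∧ E' ≤ E / 2 ∧ E' ≤ ε :=
    ⟨min (E / 2) ε, lt_min (by linarith) hε, min_le_left _ _, min_le_right _ _⟩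
  obtain ⟨δb, hδb, hbr⟩ := R.br E' hE'0
  obtain ⟨εw, hεw, hmain⟩ := EQ.main B.rates he₁ h0 h0' hE'0
  obtain ⟨c₁, hc₁, hc₁w, hc₁b⟩ : ∃ c₁ : ℝ, 0 < c₁ ∧ c₁ ≤ εw ∧ c₁ ≤ δb / 2 :=
    ⟨min εw (δb / 2), lt_min hεw (by linarith), min_le_left _ _, min_le_right _ _⟩
  obtain ⟨η, hη, hηb, hηE⟩ : ∃ η : ℝ, 0 < η ∧ η ≤ δb / 8 ∧ η ≤ E' :=
    ⟨min (δb / 8) E', lt_min (by linarith) hE'0, min_le_left _ _, min_le_right _ _⟩
  refine ⟨c₁, hc₁, fun δ hδ => ?_⟩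
  obtain ⟨δ₂, hδ₂, hmul⟩ := exists_mul (G := G) hδ
  obtain ⟨δ₁, hδ₁, hdiv⟩ := exists_inv (G := G) hδ₂
  obtain ⟨r₀, hr₀, hunif⟩ := F.unif (isClosed_att hT) hδ₁
  obtain ⟨η', hη', hη'E, hη'r⟩ : ∃ η' : ℝ, 0 < η' ∧ η' ≤ E' / 2 ∧ η' ≤ r₀ / 3 :=
    ⟨min (E' / 2) (r₀ / 3), lt_min (by linarith) (by linarith), min_le_left _ _,
      min_le_right _ _⟩
  obtain ⟨r, hr, hplaq⟩ := B.plaq η' hη'
  obtain ⟨m, p, q, ⟨hH1, hH2⟩, hq0, hqm⟩ := hmain U hT hfr η r hη hr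
  obtain ⟨K₀, hKc, hKn, hpK, hqK, hKη⟩ := hplaq (p 0) (q 0) hq0
  have hpA : ∀ i ≤ m, p i ∈ Att f U := fun i hi => (hH1 i hi).1
  have hp : ∀ i < m, p (i + 1) ∈ Sp f η (p i) := fun i hi => (hH2 i hi).1
  have hKpair : ∀ x ∈ K₀, ∀ y ∈ K₀, y ∈ Sp f.symm (η' + η') x := fun x hx y hy =>
    Sp_trans (Sp_comm (hKη x hx)) (hKη y hy)
  have hsz : ∀ x ∈ K₀, ∀ y ∈ K₀, y ∈ Sp f.symm E' x := fun x hx y hy =>
    Sp_mono (by linarith) (hKpair x hx y hy)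
  have hKA : ∀ x ∈ K₀, x ∈ Att f U := fun x hx =>
    mem_att R hT (hpA 0 (Nat.zero_le m)) (t := η') (by linarith) (hKη x hx)
  have hbr' : ∀ x y, dist x y < c₁ + 2 * η → ∃ z, z ∈ Sp f E' x ∧ z ∈ Sp f.symm E' y :=
    fun x y hxy => hbr x y (by linarith)
  -- the first index where the image of `K₀` is large
  have hex : ∃ i, i ≤ m ∧ ∃ q' : ℕ → X, q' 0 ∈ K₀ ∧ Lift f E' E' i p q' ∧
      c₁ ≤ dist (q' i) (p i) :=
    ⟨m, le_rfl, q, hqK, ⟨fun i hi => (hH1 i hi).2.2, fun i hi => Sp_mono hηE (hH2 i hi).2⟩,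
      hc₁w.trans hqm.le⟩
  obtain ⟨him, q₁, hq₁0, hq₁, hd⟩ := Nat.find_spec hex
  have hmin := fun {j : ℕ} (hj : j < Nat.find hex) => Nat.find_min hex hj
  generalize Nat.find hex = i at him hq₁ hd hmin
  have hG : ∀ j < i, ∀ q' : ℕ → X, q' 0 ∈ K₀ → Lift f E' E' j p q' →
      dist (q' j) (p j) < c₁ := by
    intro j hj q' h1 h2
    by_contra h3
    exact hmin hj ⟨hj.le.trans him, q', h1, h2, not_lt.1 h3⟩
  have hB := exists_lift (K := K₀) hbr' hsz hpK (fun j hj => hp j (hj.trans_le him)) hG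
  have hB' : ∀ y, ∃ q' : ℕ → X, y ∈ K₀ → q' 0 = y ∧ Lift f E' E' i p q' := by
    intro y
    by_cases hy : y ∈ K₀
    · obtain ⟨q', hq'⟩ := hB y hy
      exact ⟨q', fun _ => hq'⟩
    · exact ⟨fun _ => y, fun h => absurd h hy⟩
  choose Q hQ using hB'
  have h4E : 4 * E' ≤ e := by linarith
  have hcont : ContinuousOn (fun y => Q y i) K₀ :=
    contOn_lift R h4E h4E (fun y hy => (hQ y hy).1) fun y hy => (hQ y hy).2
  have hQA : ∀ y ∈ K₀, ∀ j ≤ i, Q y j ∈ Att f U := fun y hy j hj =>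
    mem_att R hT (hpA j (hj.trans him)) (t := E') (by linarith) ((hQ y hy).2.1 j hj)
  -- invariance of the differences
  have key : ∀ y ∈ K₀, ∀ j ≤ i, (h (p j))⁻¹ * h (Q y j) = (h (p 0))⁻¹ * h y := by
    intro y hy j
    induction j with
    | zero =>
      intro _
      rw [(hQ y hy).1]
    | succ j ih =>
      intro hj
      rw [← ih (by omega)]
      exact (hinv (p j) (hpA j (by omega)) (Q y j) (hQA y hy j (by omega)) (p (j + 1))
        (hpA (j + 1) (by omega)) (Q y (j + 1)) (hQA y hy (j + 1) hj)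
        (Sp_mono hE'ε ((hQ y hy).2.1 j (by omega))) (Sp_mono hE'ε ((hQ y hy).2.1 (j + 1) hj))
        (Sp_mono (hηE.trans hE'ε) (hp j (by omega)))
        (Sp_mono hE'ε ((hQ y hy).2.2 j (by omega)))).symm
  refine ⟨(fun y => Q y i) '' K₀, ⟨hKc.image_of_continuousOn hcont, hKn.image _ hcont,
    ?_, ?_, ?_⟩, ?_⟩
  · rintro _ ⟨y, hy, rfl⟩
    exact hQA y hy i le_rfl
  · rintro _ ⟨x, hx, rfl⟩ _ ⟨y, hy, rfl⟩
    refine Sp_mono (ε := E' + E') (by linarith) ?_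
    exact Sp_trans (Sp_comm ((hQ x hx).2.1 i le_rfl)) ((hQ y hy).2.1 i le_rfl)
  · refine ⟨Q (q₁ 0) i, ⟨q₁ 0, hq₁0, rfl⟩, Q (p 0) i, ⟨p 0, hpK, rfl⟩, ?_⟩
    rw [lift_unique R h4E h4E (hQ _ hq₁0).2 hq₁ (hQ _ hq₁0).1 i le_rfl,
      lift_self R h4E h4E (by linarith : 4 * η ≤ e) (fun j hj => hp j (hj.trans_le him))
        (hQ _ hpK).2 (hQ _ hpK).1 i le_rfl]
    exact hd
  · rintro _ ⟨x, hx, rfl⟩ _ ⟨y, hy, rfl⟩
    refine hmul _ _ ?_
    have e1 : (h (Q x i))⁻¹ * h (Q y i) = (h x)⁻¹ * h y := by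
      have h1 := key x hx i le_rfl
      have h2 := key y hy i le_rfl
      have h3 : ((h (p i))⁻¹ * h (Q x i))⁻¹ * ((h (p i))⁻¹ * h (Q y i)) =
          ((h (p 0))⁻¹ * h x)⁻¹ * ((h (p 0))⁻¹ * h y) := by rw [h1, h2]
      simpa [mul_assoc] using h3
    show dist ((h (Q x i))⁻¹ * h (Q y i)) 1 < δ₂
    rw [e1]
    refine hdiv _ _ (hunif _ (hKA x hx) _ (hKA y hy) ?_)
    have h5 : dist y x ≤ η' + η' := Sp_dist (hKpair x hx y hy)
    rw [dist_comm]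
    linarith

end Pool.Agent.Lib.MP610fe3.FT
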