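import Pool.Agent.Lib.MP_610fe3_an.FT.Spec

/-!
# Module TCH: chains inside a transitive invariant set
-/

open Set Filter Function
open scoped Topology

namespace Pool.Agent.Lib.MP610fe3.FT

universe u

theorem specTch : SpecTch.{u} := by
  intro X _ f A δ hA hT hδ x hx y hy
  obtain ⟨n, z, ⟨hzV, hzA⟩, hzW⟩ := hT (Metric.ball (f x) (δ / 2)) (Metric.ball y (δ / 2))
    Metric.isOpen_ball Metric.isOpen_ball ⟨f x, Metric.mem_ball_self (half_pos hδ), hA x hx⟩
    ⟨y, Metric.mem_ball_self (half_pos hδ), hy⟩
  rw [Metric.mem_ball] at hzV hzW
  have hit : ∀ i : ℕ, f^[i] z ∈ A := by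
    intro i
    induction i with
    | zero => exact hzA
    | succ i ih =>
      rw [iterate_succ_apply']
      exact hA _ ih
  refine ⟨n + 1, Nat.succ_pos n, fun i => if i = 0 then x else if i = n + 1 then y
    else f^[i - 1] z, ?_, ?_, ?_, ?_⟩
  · simp
  · simp
  · intro i _
    show (if i = 0 then x else if i = n + 1 then y else f^[i - 1] z) ∈ A
    split_ifs
    · exact hx
    · exact hy
    · exact hit _
  · intro i hi
    show dist (f (if i = 0 then x else if i = n + 1 then y else f^[i - 1] z))
      (if i + 1 = 0 then x else if i + 1 = n + 1 then y else f^[i + 1 - 1] z) < δ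
    rw [if_neg (Nat.succ_ne_zero i)]
    by_cases h0 : i = 0
    · rw [if_pos h0]
      by_cases h1 : i + 1 = n + 1
      · rw [if_pos h1]
        have h2 : n = 0 := by omega
        subst h2
        have h3 : dist z y < δ / 2 := hzW
        have h4 := dist_triangle (f x) z y
        rw [dist_comm (f x) z] at h4
        linarith
      · rw [if_neg h1, h0]
        change dist (f x) z < δ
        rw [dist_comm]
        linarith
    · rw [if_neg h0, if_neg (by omega : i ≠ n + 1)]
      have h5 : f (f^[i - 1] z) = f^[i] z := by
        rw [← iterate_succ_apply' f (i - 1) z]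
        congr 1
        omega
      rw [h5]
      by_cases h1 : i + 1 = n + 1
      · rw [if_pos h1]
        have h2 : i = n := by omega
        subst h2
        linarith
      · rw [if_neg h1, Nat.add_sub_cancel, dist_self]
        exact hδ

end Pool.Agent.Lib.MP610fe3.FT
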