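import Pool.Agent.Lib.MP_610fe3_an.FT.Final
import Pool.Agent.Lib.MP_610fe3_an.FT.Cor
import Pool.Agent.Lib.MP_610fe3_an.FT.Gex
import Pool.Agent.Lib.MP_610fe3_an.FT.Hol
import Pool.Agent.Lib.MP_610fe3_an.FT.StpA
import Pool.Agent.Lib.MP_610fe3_an.FT.LimA
import Pool.Agent.Lib.MP_610fe3_an.FT.Chs
import Pool.Agent.Lib.MP_610fe3_an.FT.Dia
import Pool.Agent.Lib.MP_610fe3_an.FT.Tch
import Pool.Agent.Lib.MP_610fe3_an.FT.Per
import Pool.Agent.Lib.MP_610fe3_an.FT.Swi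
import Pool.Agent.Lib.MP_610fe3_an.FT.Hrs
import Pool.Agent.Lib.MP_610fe3_an.FT.Dns
import Pool.Agent.Lib.MP_610fe3_an.FT.Mnr
import Pool.Agent.Lib.MP_610fe3_an.FT.Mnu
import Pool.Agent.Lib.MP_610fe3_an.FT.Mnt
import Pool.Agent.Lib.MP_610fe3_an.FT.Enl
import Pool.Agent.Lib.MP_610fe3_an.FT.Enu
import Pool.Agent.Lib.MP_610fe3_an.FT.Csa
import Pool.Agent.Lib.MP_610fe3_an.FT.Lpl
import Pool.Agent.Lib.MP_610fe3_an.FT.Psb
import Pool.Agent.Lib.MP_610fe3_an.FT.Csb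
import Pool.Agent.Lib.MP_610fe3_an.FT.Dic
import Pool.Agent.Lib.MP_610fe3_an.FT.Gap

/-!
# The factor theorem: all modules
-/

open Set Filter Function Bundle
open scoped Manifold ContDiff Topology Uniformity

namespace Pool.Agent.Lib.MP610fe3.FT

universe v w

theorem absAll : SpecAbs.{v, w} :=
  specAbs specGex specHol specStpA specLimA (specDia specChs) (specHrs (specPer specTch) specSwi)
    (specDns specTch) (specGap specEnl specEnu (specDic (specCsa specSwi)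
      (specCsb (specPsb (specLpl specTch)))))

theorem minAll : SpecMin.{v} := specMin specMnr specMnu specMnt

variable {V : Type*} [NormedAddCommGroup V] [NormedSpace ℝ V] [FiniteDimensional ℝ V]
  {M : Type v} [UniformSpace M] [CompactSpace M] [T2Space M] [ConnectedSpace M]
  [ChartedSpace V M] [IsManifold 𝓘(ℝ, V) ∞ M]
  [RiemannianBundle (fun x : M => TangentSpace 𝓘(ℝ, V) x)]
  [IsContinuousRiemannianBundle V (fun x : M => TangentSpace 𝓘(ℝ, V) x)]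

/-- **The factor theorem.** -/
theorem main (f : M ≃ₘ^1⟮𝓘(ℝ, V), 𝓘(ℝ, V)⟯ M) (hf : Gen.IsAnosov f) :
    (TopTransitive f ∨ ∃ U : Set M, IsOpen U ∧ U.Nonempty ∧ U ≠ univ ∧ f '' closure U ⊆ U ∧
      TransOn f {x | ∀ n : ℕ, (⇑f.symm)^[n] x ∈ U}) ∧
    ∀ U : Set M, IsOpen U → U.Nonempty → U ≠ univ → f '' closure U ⊆ U →
      TransOn f {x | ∀ n : ℕ, (⇑f.symm)^[n] x ∈ U} →
      ∀ (G : Type w) [MetricSpace G] [CompactSpace G] [Group G] [IsTopologicalGroup G]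
        (L : G ≃* G) (h : M → G), GroupFactor f {x | ∀ n : ℕ, (⇑f.symm)^[n] x ∈ U} L h →
        Collapses f.symm {x | ∀ n : ℕ, (⇑f.symm)^[n] x ∈ U} h ∧
        Horseshoe f {x | ∀ n : ℕ, (⇑f.symm)^[n] x ∈ U} L h ∧
        Dynamics.coverEntropy L (h '' {x | ∀ n : ℕ, (⇑f.symm)^[n] x ∈ U}) <
          Dynamics.coverEntropy f {x | ∀ n : ℕ, (⇑f.symm)^[n] x ∈ U} :=
  final_of absAll minAll f hf

end Pool.Agent.Lib.MP610fe3.FT
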