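import Pool.Agent.Lib.MP_610fe3_an.FT.Defs
import Pool.Agent.Lib.MP_610fe3_an.H6E.Charts

/-!
# The factor theorem: the standing hypotheses hold for Anosov diffeomorphisms
-/

open Set Filter Function
open scoped Topology

namespace Pool.Agent.Lib.MP610fe3.FT

open TM N3

universe u v

variable {M : Type v} {W : Type u} [MetricSpace M] [CompactSpace M] [NormedAddCommGroup W]
  [InnerProductSpace ℝ W] [FiniteDimensional ℝ W] {E : Emb M W} {f : M ≃ₜ M}

/-- Close points of an unstable plaque are contained in a small continuum. -/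
theorem plaq [ConnectedSpace M] (s : Split E f) (hs : s.Hyperbolic) {η : ℝ} (hη : 0 < η) :
    ∃ r : ℝ, 0 < r ∧ ∀ x : M, ∀ y ∈ Sp f.symm r x, ∃ K : Set M,
      IsCompact K ∧ IsConnected K ∧ x ∈ K ∧ y ∈ K ∧ ∀ z ∈ K, z ∈ Sp f.symm η x := by
  obtain ⟨du, hdu⟩ := Cf.exists_rank s.swap hs.swap
  obtain ⟨ρ, Λ, φ, hφ⟩ := H6.exists_uplaq s.swap hs.swap hdu
  obtain ⟨r₁, hr₁, hr₁ρ, hmem⟩ := hφ.mem η hη
  obtain ⟨r, hr, honto⟩ := hφ.onto r₁ hr₁
  refine ⟨r, hr, fun x y hy => ⟨φ x '' Metric.closedBall 0 r₁, ?_, ?_, ?_, ?_, ?_⟩⟩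
  · exact (isCompact_closedBall _ _).image_of_continuousOn
      ((hφ.continuousOn x).mono (Metric.closedBall_subset_closedBall hr₁ρ))
  · refine IsConnected.image ?_ _
      ((hφ.continuousOn x).mono (Metric.closedBall_subset_closedBall hr₁ρ))
    exact (convex_closedBall _ _).isConnected ⟨0, Metric.mem_closedBall_self hr₁.le⟩
  · exact ⟨0, Metric.mem_closedBall_self hr₁.le, hφ.zero x⟩
  · rw [Sp_eq_Wl] at hy
    exact honto x y hy
  · rintro _ ⟨b, hb, rfl⟩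
    rw [Sp_eq_Wl]
    exact hmem x b hb

/-- The standing hypotheses. -/
theorem exists_base [ConnectedSpace M] (s : Split E f) (hs : s.Hyperbolic) :
    ∃ e C a c : ℝ, Base f e C a c := by
  obtain ⟨e, C, a, e₁, he₁, R, h0, h0'⟩ := TD.exists_base s hs
  obtain ⟨c, hc0, hc⟩ : ∃ c, 0 < c ∧ ExpConst f c := s.expansive hs
  exact ⟨e, C, a, c, R, hc0, hc, s.shadowing hs, ⟨e₁, he₁, h0, h0'⟩, fun η hη => plaq s hs hη⟩

end Pool.Agent.Lib.MP610fe3.FT
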