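import Pool.Agent.Lib.MP_610fe3_an.FT.Abs
import Pool.Agent.Lib.MP_610fe3_an.FT.Plq
import Pool.Agent.Lib.MP_610fe3_an.H6E.Mfd

/-!
# The factor theorem: Anosov diffeomorphisms
-/

open Set Filter Function Bundle
open scoped Manifold ContDiff Topology Uniformity

namespace Pool.Agent.Lib.MP610fe3.FT

open TM N3

universe u v w

/-- The restriction of `f` to `A` has the expansive automorphism `L` of the group `G` as a factor;
`h` is the semiconjugacy. -/
structure GroupFactor {M : Type*} [TopologicalSpace M] (f : M → M) (A : Set M) {G : Type*} [Group G]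
    [TopologicalSpace G] (L : G ≃* G) (h : M → G) : Prop where
  cont_L : Continuous L
  expansive : ∃ W ∈ 𝓝 (1 : G), ∀ u : G, (∀ n : ℕ, L^[n] u ∈ W ∧ L.symm^[n] u ∈ W) → u = 1
  cont : ContinuousOn h A
  eq : ∀ x ∈ A, h (f x) = L (h x)

/-- Every unstable plaque of `A` contains a nontrivial continuum on which `h` is constant; `g` is the
inverse of `f`. -/
def Collapses {M : Type*} [UniformSpace M] (g : M → M) (A : Set M) {Y : Type*} (h : M → Y) : Prop :=
  ∀ x ∈ A, ∀ V ∈ 𝓤 M, ∃ K : Set M, IsCompact K ∧ IsConnected K ∧ K.Nontrivial ∧ K ⊆ A ∧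
    (∀ y ∈ K, ∀ n : ℕ, (g^[n] y, g^[n] x) ∈ V) ∧
    (∀ W ∈ 𝓤 M, ∀ᶠ n : ℕ in atTop, ∀ y ∈ K, (g^[n] y, g^[n] x) ∈ W) ∧
    ∀ y ∈ K, ∀ z ∈ K, h y = h z

/-- A fibre of `h` over a periodic point of `L` contains an embedded full 2-shift. -/
def Horseshoe {M : Type*} [TopologicalSpace M] (f : M → M) (A : Set M) {Y : Type*} (L : Y → Y)
    (h : M → Y) : Prop :=
  ∃ (l : ℕ) (t : Y) (Z : (ℤ → Bool) → M), 0 < l ∧ L^[l] t = t ∧ Continuous Z ∧ Injective Z ∧
    ∀ σ, Z σ ∈ A ∧ h (Z σ) = t ∧ f^[l] (Z σ) = Z (fun k => σ (k + 1))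

section Metric

variable {X : Type u} [MetricSpace X] [CompactSpace X] {f : X ≃ₜ X} {U : Set X}

/-- The attractor of a nonempty trapping region is not empty. -/
theorem att_nonempty (hT : Trap f U) (hne : U.Nonempty) : (Att f U).Nonempty := by
  obtain ⟨x, hx⟩ := hne
  obtain ⟨y, -, ψ, hψ, hlim⟩ := (isCompact_univ (X := X)).tendsto_subseq
    (x := fun n : ℕ => ev f n x) (fun _ => mem_univ _)
  refine ⟨y, fun n => ?_⟩
  have h1 : ev f (-((n + 1 : ℕ) : ℤ)) y ∈ closure U := by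
    refine mem_closure_of_tendsto (((continuous_ev (-((n + 1 : ℕ) : ℤ))).tendsto y).comp hlim) ?_
    filter_upwards [eventually_ge_atTop (n + 1)] with k hk
    have h2 : n + 1 ≤ ψ k := hk.trans (hψ.id_le k)
    have h3 := hT.fwd hx (ψ k - (n + 1))
    simp only [comp_apply]
    rwa [← ev_add, show -((n + 1 : ℕ) : ℤ) + (ψ k : ℤ) = ((ψ k - (n + 1) : ℕ) : ℤ) by omega]
  have h2 := hT.maps _ h1
  rwa [← ev_succ, show -((n + 1 : ℕ) : ℤ) + 1 = -(n : ℤ) by push_cast; ring] at h2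

theorem att_eq (f : X ≃ₜ X) (U : Set X) : Att f U = {x | ∀ n : ℕ, f.symm^[n] x ∈ U} := by
  ext x
  simp only [Att, mem_ofPred_eq, ev_neg_nat]

/-- From the abstract theorem to the uniform form. -/
theorem uniform_form (hAbs : SpecAbs.{u, v}) {e C a c : ℝ} (B : Base f e C a c) (hT : Trap f U)
    (hfr : (frontier U).Nonempty) (hTr : TransOn f (Att f U)) {G : Type v} [MetricSpace G]
    [CompactSpace G] [Group G] [IsTopologicalGroup G] {L : G ≃* G} {h : X → G}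
    (hF : GroupFactor f (Att f U) L h) :
    Collapses f.symm (Att f U) h ∧ Horseshoe f (Att f U) L h ∧
      Dynamics.coverEntropy L (h '' (Att f U)) < Dynamics.coverEntropy f (Att f U) := by
  obtain ⟨hL, ⟨W, hW, hexp⟩, hcont, heq⟩ := hF
  set L₀ : G ≃ₜ G := Continuous.homeoOfEquivCompactToT2 (f := L.toEquiv) hL with hL₀
  have e1 : ⇑L₀ = ⇑L := rfl
  have e2 : ⇑L₀.symm = ⇑L.symm := rfl
  obtain ⟨c₀, hc₀, hball⟩ := Metric.mem_nhds_iff.1 hW
  have hexp' : ∀ u : G, (∀ n : ℤ, dist (ev L₀ n u) 1 ≤ c₀ / 2) → u = 1 := by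
    intro u hu
    refine hexp u fun n => ⟨hball ?_, hball ?_⟩
    · rw [Metric.mem_ball, ← e1, ← ev_nat]
      exact (hu n).trans_lt (by linarith)
    · rw [Metric.mem_ball, ← e2, ← ev_neg_nat]
      exact (hu (-n)).trans_lt (by linarith)
  obtain ⟨h1, h2, h3⟩ := hAbs X f U e C a c G L₀ (c₀ / 2) h B hT hfr hTr
    (fun a b => map_mul L a b) (by positivity) hexp' ⟨hcont, heq⟩
  refine ⟨fun x hx V hV => ?_, h2, h3⟩
  obtain ⟨ε, hε, hV'⟩ := Metric.mem_uniformity_dist.1 hV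
  have R := B.rates U
  have he := R.e0
  have hC := R.C1
  have ha := R.a0
  obtain ⟨K, hK1, hK2, hK3, hK4, hK5, hK6⟩ := h1 x hx (min (ε / 2) e) (by positivity)
  refine ⟨K, hK1, hK2, hK3, hK4, fun y hy n => hV' ?_, fun W' hW' => ?_, hK6⟩
  · have h4 := mem_Sp_symm.1 (hK5 y hy) n
    rw [ev_neg_nat, ev_neg_nat] at h4
    exact lt_of_le_of_lt (h4.trans (min_le_left _ _)) (half_lt_self hε)
  · obtain ⟨ε', hε', hW''⟩ := Metric.mem_uniformity_dist.1 hW'
    have h5 : Tendsto (fun n : ℕ => C * Real.exp (-(a * n)) * e) atTop (𝓝 0) := by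
      have h6 : Tendsto (fun n : ℕ => a * (n : ℝ)) atTop atTop :=
        Tendsto.const_mul_atTop ha tendsto_natCast_atTop_atTop
      have h7 := ((Real.tendsto_exp_neg_atTop_nhds_zero.comp h6).const_mul C).mul_const e
      simpa using h7
    filter_upwards [(tendsto_order.1 h5).2 ε' hε'] with n hn y hy
    refine hW'' ?_
    have h4 := R.un x y (Sp_mono (min_le_right _ _) (hK5 y hy)) n
    rw [ev_neg_nat, ev_neg_nat] at h4
    have h8 : dist y x ≤ e := (Sp_dist (hK5 y hy)).trans (min_le_right _ _)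
    refine lt_of_le_of_lt (h4.trans ?_) hn
    gcongr

/-- A homeomorphism which is not chain transitive has a transitive attractor. -/
theorem exists_transitive [ConnectedSpace X] (hMin : SpecMin.{u}) {c : ℝ} (hc0 : 0 < c)
    (hc : ExpConst f c) (hsh : Shadowing f) :
    TopTransitive f ∨ ∃ U : Set X, IsOpen U ∧ U.Nonempty ∧ U ≠ univ ∧ f '' closure U ⊆ U ∧
      TransOn f {x | ∀ n : ℕ, f.symm^[n] x ∈ U} := by
  by_cases hct : ChainTransitive f
  · exact Or.inl (topTransitive_of_shadowing hsh hct)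
  · obtain ⟨U, hU, hne, huniv⟩ := Cf.H1.exists_trap (f := f) hct
    have hT : Trap f U := ⟨hU.1, hU.2⟩
    obtain ⟨U', hU', hne', hT', hTr⟩ := hMin X f U c hc0 hc hsh hT (att_nonempty hT hne)
    refine Or.inr ⟨U', hT'.isOpen, hne', ?_, ?_, ?_⟩
    · intro h
      refine huniv (eq_univ_of_univ_subset ?_)
      rw [← h]
      exact hU'
    · rintro _ ⟨x, hx, rfl⟩
      exact hT'.maps x hx
    · rw [← att_eq]
      exact hTr

end Metric

section Manifold

variable {V : Type*} [NormedAddCommGroup V] [NormedSpace ℝ V] [FiniteDimensional ℝ V] {N : ℕ}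
  {M : Type v} [MetricSpace M] [CompactSpace M] [ConnectedSpace M]
  [ChartedSpace V M] [IsManifold 𝓘(ℝ, V) ∞ M]
  [RiemannianBundle (fun x : M => TangentSpace 𝓘(ℝ, V) x)]
  [IsContinuousRiemannianBundle V (fun x : M => TangentSpace 𝓘(ℝ, V) x)]

/-- The manifold version for the metric of an embedding. -/
theorem mfd (hAbs : SpecAbs.{v, w}) (hMin : SpecMin.{v}) (e : M → EuclideanSpace ℝ (Fin N))
    (hiso : Isometry e) (he : ContMDiff 𝓘(ℝ, V) (𝓡 N) ∞ e)
    (hinj : ∀ x, Injective (mfderiv 𝓘(ℝ, V) (𝓡 N) e x))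
    (f : M ≃ₘ^1⟮𝓘(ℝ, V), 𝓘(ℝ, V)⟯ M)
    (Es Eu : ∀ x : M, Submodule ℝ (TangentSpace 𝓘(ℝ, V) x))
    (hA : Gen.IsAnosovSplitting f Es Eu) :
    (TopTransitive f ∨ ∃ U : Set M, IsOpen U ∧ U.Nonempty ∧ U ≠ univ ∧ f '' closure U ⊆ U ∧
      TransOn f {x | ∀ n : ℕ, (⇑f.symm)^[n] x ∈ U}) ∧
    ∀ U : Set M, IsOpen U → U.Nonempty → U ≠ univ → f '' closure U ⊆ U →
      TransOn f {x | ∀ n : ℕ, (⇑f.symm)^[n] x ∈ U} →
      ∀ (G : Type w) [MetricSpace G] [CompactSpace G] [Group G] [IsTopologicalGroup G]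
        (L : G ≃* G) (h : M → G), GroupFactor f {x | ∀ n : ℕ, (⇑f.symm)^[n] x ∈ U} L h →
        Collapses f.symm {x | ∀ n : ℕ, (⇑f.symm)^[n] x ∈ U} h ∧
        Horseshoe f {x | ∀ n : ℕ, (⇑f.symm)^[n] x ∈ U} L h ∧
        Dynamics.coverEntropy L (h '' {x | ∀ n : ℕ, (⇑f.symm)^[n] x ∈ U}) <
          Dynamics.coverEntropy f {x | ∀ n : ℕ, (⇑f.symm)^[n] x ∈ U} := by
  obtain ⟨E, hE, hEP, hr⟩ := Gen.exists_emb e hiso he hinj
  subst hE
  obtain ⟨s, hsH, hsS, hsU⟩ := Gen.exists_split E he hinj hr f Es Eu hA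
  obtain ⟨e, C, a, c, B⟩ := exists_base s hsH
  refine ⟨exists_transitive hMin B.c0 B.exp B.shad, fun U hU hne huniv htrap hTr G _ _ _ _ L h hF =>
    ?_⟩
  have hT : Trap f.toHomeomorph U := ⟨hU, fun x hx => htrap ⟨x, hx, rfl⟩⟩
  have hAtt : {x | ∀ n : ℕ, (⇑f.symm)^[n] x ∈ U} = Att f.toHomeomorph U :=
    (att_eq f.toHomeomorph U).symm
  rw [hAtt] at hTr hF ⊢
  exact uniform_form hAbs B hT (H6.frontier_nonempty_of_trap hne huniv) hTr hF

end Manifold

end Pool.Agent.Lib.MP610fe3.FT
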