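import Pool.Agent.Lib.MP_610fe3_an.FT.Defs

/-!
# The factor theorem: statements of the modules, with complete proofs

**Theorem.** Let `f` be an Anosov diffeomorphism of a closed connected manifold, `U` a proper
attracting region, `A` its attractor, `f|A` transitive. Let `G` be a compact metrizable group, `L`
an expansive automorphism of `G` and `h : A -> G` continuous, `h f = L h`. Then

1. every unstable plaque of `A` contains a nontrivial continuum on which `h` is constant;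
2. there are a periodic point `t` of `L`, of period `l`, and an embedding `Z` of the full 2-shift in
   the fibre of `h` over `t`, `f^l Z = Z shift`;
3. `h_top (L | h A) < h_top (f | A)`.

If `f` is not transitive there is such a `U`.

Notation (TM/Plaque, N3/Chain): `ev f n x = f^n x` (`n` an integer); `Sp f ε x` is the set of `y`
with `dist (f^n y) (f^n x) ≤ ε` for all `n ≥ 0` (local stable set), `Sp f.symm ε x` the local
unstable set; `Att f U` is the attractor; `R.br`: bracket; `R.un, R.st, R.un_tendsto, R.st_tendsto`: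
contraction; `EQ.uni R`: `y ∈ Sp f e x`, `y ∈ Sp f.symm e x` imply `y = x`; `att_sat`: points
asymptotic in the past to a point of `Att f U` are in `Att f U`; `att_ev`: invariance.

Every module proves `theorem specNAME (dependencies) : SpecNAME`.  Universes: write
`theorem specNAME : SpecNAME.{u, v}`.
-/

open Set Filter Function
open scoped Topology

namespace Pool.Agent.Lib.MP610fe3.FT

open TM N3

universe u v

/-! ### Part 1: factors which are groups -/

/-- MODULE GEX. An automorphism which is expansive at `1` is an expansive homeomorphism.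

Proof. `(u, v) ↦ u⁻¹ * v` is uniformly continuous on the compact space `G × G` and equal to `1` on
the diagonal, so there is `c' > 0` such that `dist u v ≤ c'` implies `dist (u⁻¹ * v) 1 ≤ c`. As
`ev L n (u⁻¹ * v) = (ev L n u)⁻¹ * ev L n v` (first show it for `L` and `L.symm`, then for natural
numbers `n` by induction) we get `u⁻¹ * v = 1`. -/
def SpecGex : Prop := ∀ (G : Type v) [MetricSpace G] [CompactSpace G] [Group G]
  [IsTopologicalGroup G] (L : G ≃ₜ G) (c : ℝ), (∀ a b, L (a * b) = L a * L b) → 0 < c →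
  (∀ u : G, (∀ n : ℤ, dist (ev L n u) 1 ≤ c) → u = 1) → ∃ c' : ℝ, 0 < c' ∧ ExpConst L c'

/-- MODULE HOL. Invariance of the difference `(h p)⁻¹ * h q` under stable holonomy.

Proof. `Φ a b a' b' = (a⁻¹ * b) * (a'⁻¹ * b')⁻¹` is uniformly continuous on `G^4`, `Φ a b a b = 1`
and `Φ a a b b = 1`, so there is `δ > 0` such that `dist (Φ a b a' b') 1 ≤ c` if
(`dist a a' < δ` and `dist b b' < δ`) or (`dist a b < δ` and `dist a' b' < δ`). Let `ε > 0` be such
that `dist (h x) (h y) < δ` for `x, y ∈ A`, `dist x y ≤ ε` (`Fac.unif`; half of the `ε` there). Put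
`u = Φ (h p) (h q) (h p') (h q')`. By multiplicativity `ev L n u` is `Φ` of the four points
`ev L n (h p) = h (ev f n p)`, ... (`Fac.ev`). For `n ≥ 0` the points `ev f n p`, `ev f n p'` are at
distance at most `ε` and the same for `q, q'`; for `n ≤ 0` the points `ev f n p`, `ev f n q` are at
distance at most `ε` and the same for `p', q'` (`mem_Sp_symm`). So `dist (ev L n u) 1 ≤ c` for all
`n` and `u = 1`. -/
def SpecHol : Prop := ∀ (X : Type u) [MetricSpace X] [CompactSpace X] (f : X ≃ₜ X) (A : Set X)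
  (G : Type v) [MetricSpace G] [CompactSpace G] [Group G] [IsTopologicalGroup G] (L : G ≃ₜ G)
  (h : X → G) (c : ℝ), IsClosed A → (∀ x ∈ A, ∀ k : ℤ, ev f k x ∈ A) →
  (∀ a b, L (a * b) = L a * L b) → 0 < c → (∀ u : G, (∀ n : ℤ, dist (ev L n u) 1 ≤ c) → u = 1) →
  Fac f A L h → ∃ ε : ℝ, 0 < ε ∧ ∀ p ∈ A, ∀ q ∈ A, ∀ p' ∈ A, ∀ q' ∈ A,
    q ∈ Sp f.symm ε p → q' ∈ Sp f.symm ε p' → p' ∈ Sp f ε p → q' ∈ Sp f ε q →
    (h p)⁻¹ * h q = (h p')⁻¹ * h q'

/-- MODULE STPA. Continua of a definite size in unstable plaques of the attractor, on which `h`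
oscillates as little as one wants.

Proof. Read `TC/Stp.lean`: this is the proof of `specStp` there, for a chain inside `Att f U`. Let
`E' = min (E / 2) ε`, `δb` from `R.br E'` (the bracket of points at distance `< δb` is in
`Sp f E' x ∩ Sp f.symm E' y`), `εw` from `EQ.main B.rates he₁ h0 h0' (e₂ := E')` (`B.reach`),
`c₁ = min εw (δb / 2)`, `η = min (δb / 8) E'`. Given `δ`: there is `δ₂ > 0` such that
`dist (a⁻¹ * b) 1 < δ₂` implies `dist a b ≤ δ` (uniform continuity of `(a, u) ↦ a * u` on `G × G`)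
and `δ₁ > 0` such that `dist a b < δ₁` implies `dist (a⁻¹ * b) 1 < δ₂`, and `r₀ > 0` such that
`dist (h x) (h y) < δ₁` for `x, y ∈ Att f U`, `dist x y < r₀` (`Fac.unif`). Let
`η' = min (E' / 2) (r₀ / 3)` and `r` from `B.plaq η'`. `EQ.main` for `U`, `η`, `r` gives
`m, p, q : EQ.Hol f (Att f U) η E' m p q`, `q 0 ∈ Sp f.symm r (p 0)`, `εw < dist (q m) (p m)`; let
`K₀` be the continuum of `B.plaq` for `p 0, q 0`; it is contained in `Att f U` (`att_sat`,
`R.un_tendsto`), its points are pairwise in `Sp f.symm (2 η')`. `q` is a lift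
`TC.Lift f E' E' m p q`. Let `i ≤ m` be the first index such that some lift
`TC.Lift f E' E' i p q'` with `q' 0 ∈ K₀` has `c₁ ≤ dist (q' i) (p i)` (exists: `q` and `m`). By
`TC.StpC.exists_lift` (with `c := c₁`, `h := η`, `h' := E := E'`; `c₁ + 2 η < δb`) all points `y` of
`K₀` have lifts `Q y` up to `i`, the map `y ↦ Q y i` is continuous on `K₀` (`contOn_lift`), and
`K = (fun y => Q y i) '' K₀` is a continuum in `Att f U` (`att_sat`: `Q y i ∈ Sp f.symm E' (p i)`),
pairwise in `Sp f.symm (2 E')`, contains `p i` (`lift_self`) and a point at distance `≥ c₁` from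
`p i` (`lift_unique`). By the hypothesis on `ε`, for `j ≤ i`:
`(h (p j))⁻¹ * h (Q y j) = (h (p 0))⁻¹ * h y` (induction on `j`; `E', η ≤ ε`; all points are in
`Att f U`). So `(h (Q y i))⁻¹ * h (Q y' i) = (h y)⁻¹ * h y'` for `y, y' ∈ K₀`, and
`dist y y' < r₀`. -/
def SpecStpA : Prop := ∀ (X : Type u) [MetricSpace X] [CompactSpace X] (f : X ≃ₜ X) (U : Set X)
  (e C a c : ℝ) (G : Type v) [MetricSpace G] [CompactSpace G] [Group G] [IsTopologicalGroup G]
  (L : G ≃ₜ G) (h : X → G) (ε E : ℝ), Base f e C a c → Trap f U → (frontier U).Nonempty →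
  Fac f (Att f U) L h → 0 < ε →
  (∀ p ∈ Att f U, ∀ q ∈ Att f U, ∀ p' ∈ Att f U, ∀ q' ∈ Att f U,
    q ∈ Sp f.symm ε p → q' ∈ Sp f.symm ε p' → p' ∈ Sp f ε p → q' ∈ Sp f ε q →
    (h p)⁻¹ * h q = (h p')⁻¹ * h q') →
  0 < E → 8 * E ≤ e →
  ∃ c₁ : ℝ, 0 < c₁ ∧ ∀ δ : ℝ, 0 < δ → ∃ K : Set X, TC.Cl f (Att f U) c₁ E K ∧
    ∀ x ∈ K, ∀ y ∈ K, dist (h x) (h y) ≤ δ

/-- MODULE LIMA. Limits of continua.

Proof. As the first part of `TC.specLim` (`TC/Lim.lean`): choose `K n` for `δ = 1 / (n + 1)`, an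
ultrafilter `F ≤ atTop`, `K = TD.LimM.Lst F K`; connected by `TC.LimC.conn_lst`, closed by
`TD.LimM.isClosed_lst`; points of `K` are limits of points of the `K n` (`TC.LimC.exists_seq`), so
it is contained in `S`, pairwise in `Sp f.symm E` (`TC.LimC.mem_lim`), and `h` is constant on `K`
by continuity on `S`; the pairs at distance `≥ c₁` have a limit (`TC.LimC.exists_ulim`,
`TD.LimM.lim_mem`). -/
def SpecLimA : Prop := ∀ (X : Type u) [MetricSpace X] [CompactSpace X] (f : X ≃ₜ X) (S : Set X)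
  (Y : Type v) [MetricSpace Y] (h : X → Y) (E c₁ : ℝ), IsClosed S → ContinuousOn h S → 0 < c₁ →
  (∀ δ : ℝ, 0 < δ → ∃ K : Set X, TC.Cl f S c₁ E K ∧ ∀ x ∈ K, ∀ y ∈ K, dist (h x) (h y) ≤ δ) →
  ∃ K : Set X, TC.Cl f S c₁ E K ∧ ∀ x ∈ K, ∀ y ∈ K, h x = h y

/-! ### Part 2: collapsed continua give diamonds -/

/-- MODULE CHS. Points of a connected set are joined by chains of bounded length.

Proof. Cover `X` by `Q` balls `B 0, ..., B (Q - 1)` of radius `δ / 2`. Let `S` be preconnected. The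
set of the points of `S` joined to `x` by a `δ`-chain in `S` is open and closed in `S`, so it is
`S`. Take a chain from `x` to `y` of minimal length `k`. If `k ≥ 2 Q + 2`, two of the points
`s 0, s 2, s 4, ..., s (2 Q)` are in the same ball, so at distance `< δ`, and the chain can be
shortened. So `2 * Q + 2` works. -/
def SpecChs : Prop := ∀ (X : Type u) [MetricSpace X] [CompactSpace X] (δ : ℝ), 0 < δ →
  ∃ Q : ℕ, ∀ S : Set X, IsPreconnected S → ∀ x ∈ S, ∀ y ∈ S, ∃ k ≤ Q, ∃ s : ℕ → X,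
    s 0 = x ∧ s k = y ∧ (∀ i ≤ k, s i ∈ S) ∧ ∀ i < k, dist (s i) (s (i + 1)) < δ

/-- MODULE DIA (uses CHS). A continuum in a local unstable set on which `h` is constant gives a
diamond.

Proof. Let `ε₃ = min (e / 2) (1 / 2 of the constant of Fac.unif for c')`, so that
`dist (h x) (h y) ≤ c'` for `x, y ∈ Att f U`, `dist x y ≤ ε₃`; `δ` from `R.br ε₃`; `Q` from CHS for
`δ`; `K n = ev f n '' K` (connected, contained in `Att f U`). Claim: there are `n : ℕ` and
`y, z ∈ K n` with `dist y z < δ` and `y ∉ Sp f.symm ε₃ z`. If not, take `k₁ ≠ k₂` in `K` (`big`) and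
any `n`; CHS gives a chain `s` in `K n` from `ev f n k₁` to `ev f n k₂` of at most `Q` steps, each
step satisfies `s (i + 1) ∈ Sp f.symm ε₃ (s i)`, so by `R.un`
`dist (ev f (-n) (s (i + 1))) (ev f (-n) (s i)) ≤ C * exp (-(a n)) * ε₃`, and
`dist k₁ k₂ ≤ Q * C * exp (-(a n)) * ε₃` for all `n`, a contradiction. Given the claim, `R.br` gives
`w ∈ Sp f ε₃ y`, `w ∈ Sp f.symm ε₃ z`. `w ≠ y` because `y ∉ Sp f.symm ε₃ z`. `w ∈ Att f U`
(`att_sat`). `h y = h z` (both are `ev g n` of the value of `h` on `K`). `h w = h y` by `exp_ev`: for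
`n ≥ 0` the points `ev f n w`, `ev f n y` are at distance at most `ε₃`, for `n ≤ 0` the points
`ev f n w`, `ev f n z`, and `h (ev f n z) = ev g n (h z) = ev g n (h y)`. `w`, `y` are asymptotic in
the future (`R.st_tendsto`), `w`, `z` in the past (`R.un_tendsto`), `z`, `y` in the past because
`z = ev f n k`, `y = ev f n k'` with `k' ∈ Sp f.symm E k`, `E ≤ e`. -/
def SpecDia : Prop := ∀ (X : Type u) [MetricSpace X] [CompactSpace X] (f : X ≃ₜ X) (U : Set X)
  (e C a c : ℝ) (Y : Type v) [MetricSpace Y] (g : Y ≃ₜ Y) (c' : ℝ) (h : X → Y) (E c₁ : ℝ)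
  (K : Set X), Base f e C a c → Trap f U → 0 < c' → ExpConst g c' → Fac f (Att f U) g h → E ≤ e →
  0 < c₁ → TC.Cl f (Att f U) c₁ E K → (∀ x ∈ K, ∀ y ∈ K, h x = h y) →
  ∃ y w : X, Diam f (Att f U) h y w

/-! ### Part 3: transitivity, switching, the horseshoe -/

/-- MODULE TCH. Chains inside a transitive invariant set.

Proof. Apply `TransOn` to the balls of radius `δ / 2` about `f x` and `y`: `z ∈ A`,
`dist z (f x) < δ / 2`, `dist (f^[n] z) y < δ / 2`. The chain is `x, z, f z, ..., f^[n - 1] z, y`, of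
length `n + 1` (for `n = 0`: `x, y`). -/
def SpecTch : Prop := ∀ (X : Type u) [MetricSpace X] (f : X → X) (A : Set X) (δ : ℝ),
  (∀ x ∈ A, f x ∈ A) → TransOn f A → 0 < δ → ∀ x ∈ A, ∀ y ∈ A, ∃ m : ℕ, 0 < m ∧ ChOn f A δ m x y

/-- MODULE PER (uses TCH). Periodic points in a transitive attractor.

Proof. `ε := min ρ ε₁`, `ε₁` from `exists_near_att`; `closing B.c0 B.exp B.shad ε` gives `δ`; TCH
gives a `δ`-chain in `Att f U` from `y` to `y` of length `m > 0`; `closing` gives `p`, `f^[m] p = p`,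
`dist (f^[i] p) (s i) < ε` for `i < m`. All points `ev f k p` are of the form `f^[i] p`, `i < m`, so
`p ∈ Att f U`. -/
def SpecPer : Prop := ∀ (X : Type u) [MetricSpace X] [CompactSpace X] (f : X ≃ₜ X) (U : Set X)
  (e C a c : ℝ), Base f e C a c → Trap f U → TransOn f (Att f U) → ∀ y ∈ Att f U, ∀ ρ : ℝ,
  0 < ρ → ∃ p ∈ Att f U, ∃ m : ℕ, 0 < m ∧ f^[m] p = p ∧ dist p y < ρ

/-- MODULE SWI. Switching: along an orbit which passes close to `y` at the times `s ∈ σ` one can
follow the orbit of `w` instead, without changing the image under `h` by more than `ε`.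

Proof. `ε₁`: `dist (h x) (h x') < ε / 2` for `x, x' ∈ Att f U`, `dist x x' < ε₁`. `ε₂ := min ε ε₁`,
`δ` from `shad_att` for `ε₂`. `N ≥ 1` such that `dist (ev f j y) (ev f j w) < δ / 2` for all integers
`j` with `N - 1 ≤ |j|` (`TM.fwd_iff`, the two asymptotics). `ρ > 0` such that `dist x y < ρ` implies
`dist (ev f j x) (ev f j y) < min (δ / 2) ε₁` for all `|j| ≤ N` (`unif_cont`, or continuity at `y` of
finitely many maps). The pseudo orbit: `P t = ev f (t - s) w` if there is `s ∈ σ` with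
`|t - s| < N` (this `s` is unique because `σ` is `2 N`-separated), `P t = ev f t x` otherwise. It is
in `Att f U`. `dist (f (P t)) (P (t + 1)) < δ`: it is `0` except when `t` is not in a window and
`t + 1` is, `t = s - N` (then `f (P t) = ev f (s - N + 1) x = ev f (-N + 1) (ev f s x)`, close to
`ev f (-N + 1) y`, close to `ev f (-N + 1) w = P (t + 1)`), or `t = s + N - 1` is in the window of
`s` and `t + 1` in no window (`f (P t) = ev f N w`, close to `ev f N y`, close to
`ev f N (ev f s x) = P (t + 1)`); `t`, `t + 1` cannot be in the windows of two different `s, s'`, as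
then `|s - s'| ≤ 2 N - 1`. Let `z` be the shadow. The first two statements are clear. Third: if `t` is
in no window, `dist (ev f t z) (ev f t x) < ε₂ ≤ ε₁`. If `|t - s| < N`:
`h (P t) = ev g (t - s) (h w) = ev g (t - s) (h y) = h (ev f (t - s) y)` and
`dist (ev f (t - s) y) (ev f t x) < ε₁`, `dist (ev f t z) (P t) < ε₁`. -/
def SpecSwi : Prop := ∀ (X : Type u) [MetricSpace X] [CompactSpace X] (f : X ≃ₜ X) (U : Set X)
  (Y : Type v) [MetricSpace Y] (g : Y ≃ₜ Y) (h : X → Y) (y w : X) (ε : ℝ),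
  Shadowing f → Trap f U → Fac f (Att f U) g h → Diam f (Att f U) h y w → 0 < ε →
  ∃ N : ℕ, 0 < N ∧ ∃ ρ : ℝ, 0 < ρ ∧ ∀ x ∈ Att f U, ∀ σ : Set ℤ,
    (∀ s ∈ σ, dist (ev f s x) y < ρ) → (∀ s ∈ σ, ∀ t ∈ σ, s < t → s + 2 * N ≤ t) →
    ∃ z ∈ Att f U, (∀ s ∈ σ, ∀ t : ℤ, |t - s| < N → dist (ev f t z) (ev f (t - s) w) < ε) ∧
      (∀ t : ℤ, (∀ s ∈ σ, (N : ℤ) ≤ |t - s|) → dist (ev f t z) (ev f t x) < ε) ∧
      ∀ t : ℤ, dist (h (ev f t z)) (h (ev f t x)) < ε

/-- MODULE HRS (uses PER, SWI). A diamond in a transitive attractor gives a horseshoe in a fibre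
over a periodic point.

Proof. `κ = dist y w`, `ε = min (κ / 4) (min (c / 2) c')`, `N, ρ` from SWI. `p, m` from PER for
`min ρ (κ / 4)`. `l = 2 * N * m`, so `f^[l] p = p` and `ev f (k * l) p = p` for all integers `k`. For
`σ : ℤ → Bool` let `Z σ` be the point `z` of SWI for `x = p` and the set
`{s | ∃ k : ℤ, s = k * l ∧ σ k = true}` (`2 N`-separated as `l ≥ 2 N`). Let `t = h p`, then
`g^[l] t = t`.
(a) `h (Z σ) = t` by `exp_ev` (third statement of SWI; `Fac.ev`).
(b) Equivariance: with `σ' k = σ (k + 1)` the points `ev f (j + l) (Z σ)` and `ev f j (Z σ')` are both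
at distance `< ε` from the same point, for every integer `j` (this point is `ev f (j - k l) w` if
`|j - k l| < N`, `σ' k = true`, and `ev f j p = ev f (j + l) p` if there is no such `k`), so their
distance is `≤ c` and `exp_ev` gives `ev f l (Z σ) = Z σ'`.
(c) Injective: if `σ k = true`, `σ' k = false`, at the time `k l` the orbit of `Z σ` is at distance
`< ε` from `w` and the orbit of `Z σ'` at distance `< ε` from `p` (all other marked times are at
distance `≥ l ≥ N`), `dist p y < κ / 4`; `κ / 4 + 2 ε < κ`.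
(d) Continuous: `tendsto_iff_ultrafilter` (as `TC.StpC.contOn_lift`): let `g → σ` be an ultrafilter
on sequences, `Z → z` along it (compactness). For each integer `j` the point `P σ j` of (b) depends
only on `σ k` for the at most one `k` with `|j - k l| < N`, so it is eventually constant along the
ultrafilter and `dist (ev f j z) (P σ j) ≤ ε`, `dist (ev f j (Z σ)) (P σ j) < ε`, so `z = Z σ` by
`exp_ev` (`2 ε ≤ c`). It may be simplest to define
`P σ j = if (∃ k, |j - k l| < N ∧ σ k = true) then ev f (j - k l) w else ev f j p` first and to derive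
`dist (ev f j (Z σ)) (P σ j) < ε` for all `j` from SWI. -/
def SpecHrs : Prop := ∀ (X : Type u) [MetricSpace X] [CompactSpace X] (f : X ≃ₜ X) (U : Set X)
  (e C a c : ℝ) (Y : Type v) [MetricSpace Y] (g : Y ≃ₜ Y) (c' : ℝ) (h : X → Y) (y w : X),
  Base f e C a c → Trap f U → TransOn f (Att f U) → 0 < c' → ExpConst g c' →
  Fac f (Att f U) g h → Diam f (Att f U) h y w →
  ∃ (l : ℕ) (t : Y) (Z : (ℤ → Bool) → X), 0 < l ∧ g^[l] t = t ∧ Continuous Z ∧ Injective Z ∧
    ∀ σ, Z σ ∈ Att f U ∧ h (Z σ) = t ∧ f^[l] (Z σ) = Z (fun k => σ (k + 1))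

/-- MODULE DNS (uses TCH). In a transitive attractor collapsed continua are in every unstable plaque.

Proof. (i) Small `ε₃ ≤ e / 8`, `ε₃ ≤ ` the constant of `Fac.unif` for `c' / 2`, halved (so
`dist (h x) (h x') < c' / 2` if `dist x x' ≤ ε₃`, `x, x' ∈ Att f U`); `δ` from `R.br ε₃`; replace `K`
by `K₀ = ev f (-j) '' K` with `j` so large that `C * exp (-(a j)) * E < min (δ / 4) ε₃` (`R.un`): a
nontrivial continuum in `Att f U`, pairwise in `Sp f.symm (min (δ / 4) ε₃)`, on which `h` is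
constant. Fix `k₀ ∈ K₀`.
(ii) Let `v ∈ Att f U`, `dist v k₀ < δ / 4`. For `k ∈ K₀`, `dist k v < δ`, so there is
`b k ∈ Sp f ε₃ k ∩ Sp f.symm ε₃ v`, unique by `EQ.uni` and continuous in `k` (ultrafilters, as
`TC.StpC.contOn_lift`; `isClosed_rel`). `K₁ = b '' K₀` is a continuum in `Att f U` and in
`Sp f.symm ε₃ v`; it is nontrivial because `b k = b k'` implies `k' ∈ Sp f (2 ε₃) k`, `k = k'` by
`EQ.uni`. `h (b k) = h (b k')` by `exp_ev`: for `n ≥ 0`, `h (ev f n (b k))` is at distance `< c' / 2`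
from `h (ev f n k) = h (ev f n k')`; for `n ≤ 0` it is at distance `< c' / 2` from `h (ev f n v)`.
(iii) Let `x ∈ Att f U`, `ε > 0`. `δ'` from `shad_att` for `min ε₃ (δ / 4)`. Let `n₀` be such that
`2 * C * exp (-(a n₀)) * ε₃ ≤ ε`. TCH: a `δ'`-chain `s` of length `m` in `Att f U` from `ev f n₀ x` to
`k₀`. `P t = ev f t x` for `t ≤ n₀`, `s (t - n₀)` for `n₀ ≤ t ≤ n₀ + m`, `ev f (t - n₀ - m) k₀` for
`t ≥ n₀ + m`. The shadow `z ∈ Att f U`: `ev f n₀ z ∈ Sp f.symm ε₃ (ev f n₀ x)`, so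
`z ∈ Sp f.symm (C exp (-(a n₀)) ε₃) x` (as `EQ.contr`), and `v = ev f (n₀ + m) z` satisfies
`dist v k₀ < δ / 4`. `K' = ev f (-(n₀ + m)) '' K₁` is contained in
`Sp f.symm (C exp (-(a (n₀ + m))) ε₃) z`, so in `Sp f.symm ε x`. -/
def SpecDns : Prop := ∀ (X : Type u) [MetricSpace X] [CompactSpace X] (f : X ≃ₜ X) (U : Set X)
  (e C a c : ℝ) (Y : Type v) [MetricSpace Y] (g : Y ≃ₜ Y) (c' : ℝ) (h : X → Y) (E c₁ : ℝ)
  (K : Set X), Base f e C a c → Trap f U → TransOn f (Att f U) → 0 < c' → ExpConst g c' →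
  Fac f (Att f U) g h → E ≤ e → 0 < c₁ → TC.Cl f (Att f U) c₁ E K →
  (∀ x ∈ K, ∀ y ∈ K, h x = h y) → ∀ x ∈ Att f U, ∀ ε : ℝ, 0 < ε →
  ∃ K' : Set X, IsCompact K' ∧ IsConnected K' ∧ K'.Nontrivial ∧ K' ⊆ Att f U ∧
    (∀ y ∈ K', y ∈ Sp f.symm ε x) ∧ ∀ y ∈ K', ∀ z ∈ K', h y = h z

/-! ### Part 4: transitive attractors exist -/

/-- MODULE MNR. A minimal class (`Reach`, `Om`, `exists_reach`, `exists_fwdAsymp`: TopA, TopB).

Proof. (i) `Att f U` contains a point of `Om f`: let `x ∈ Att f U`, `y ∈ Om f` with `FwdAsymp f x y`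
(`exists_fwdAsymp`). For every `k : ℕ`, `f.symm^[k] y ∈ U`: for `n` large `f^[n] y ∈ U` (close to
`f^[n] x`, in the compact set `Att f U`), `Reach f (f^[n + k] (f.symm^[k] y)) (f.symm^[k] y)`
(`reach_of_mem_Om`), that is `Reach f (f^[n] y) (f.symm^[k] y)`, and a chain with small steps which
starts in `U` ends in `U` (`hT.exists_margin`; induction along the chain).
(ii) In the same way: `y ∈ Att f U`, `z ∈ Om f`, `Reach f y z` imply `z ∈ Att f U`.
(iii) Let `δ` be the constant of `exists_reach` and `F` a finite subset of `Om f ∩ Att f U` such that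
every point of `Om f ∩ Att f U` is at distance `< δ` from a point of `F`. Choose
`y₀ ∈ Om f ∩ Att f U` such that the number of `q ∈ F` with `Reach f y₀ q` is minimal. If
`y' ∈ Om f ∩ Att f U`, `Reach f y₀ y'`, then the set of `y'` is contained in the set of `y₀`, so the
two sets are equal; the point `q ∈ F` close to `y₀` satisfies `Reach f y₀ q`, so `Reach f y' q`, and
`Reach f q y₀`; so `Reach f y' y₀`.
(iv) Let `Reach f y₀ z`. Take `y' ∈ Om f`, `FwdAsymp f z y'`; `Reach f z y'` (`reach_of_fwdAsymp`), so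
`Reach f y₀ y'`, `y' ∈ Att f U` by (ii), `Reach f y' y₀` by (iii) and `Reach f z y₀`. -/
def SpecMnr : Prop := ∀ (X : Type u) [MetricSpace X] [CompactSpace X] (f : X ≃ₜ X) (U : Set X)
  (c : ℝ), 0 < c → ExpConst f c → Shadowing f → Trap f U → (Att f U).Nonempty →
  ∃ y₀ ∈ Att f U, y₀ ∈ Om f ∧ ∀ z, Reach f y₀ z → Reach f z y₀

/-- MODULE MNU. A minimal class is an attractor.

Proof. `Q = {z | Reach f y₀ z}`. For `ε > 0` let `W ε = {z | Chain f ε y₀ z}`, `Trap f (W ε)` (copy
the proof from `exists_trap` in Cf/H1Trap.lean; do not import OpenFactor). For small `ε`, `W ε ⊆ U` (`hT.exists_margin`, `y₀ ∈ U`). Claim: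
`Att f (W ε) = Q` for small `ε`.
`Q ⊆ Att f (W ε)`, all `ε`: let `z ∈ Q`. Then `Reach f z z`, so `z ∈ Om f`
(`mem_closure_of_reach`), `f.symm^[k] z ∈ Om f`, `Reach f z (f.symm^[k] z)` (`reach_of_mem_Om`), so
`f.symm^[k] z ∈ Q ⊆ W ε`.
`Att f (W ε) ⊆ Q` for small `ε`: if not, for every `n` there is `z n ∈ Att f (W (1 / (n + 1)))`, not in
`Q`. Let `y n ∈ Om f` be asymptotic to `z n` in the past (`exists_fwdAsymp` for `f.symm`, `Om_symm`).
For `k` large, `f.symm^[k] (y n)` is at distance `< 1 / (n + 1)` from `f.symm^[k] (z n) ∈ W (1 / (n + 1))`,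
so `Chain f (2 / (n + 1)) y₀ (f.symm^[k] (y n))` (`Chain.last`), and then a chain to `y n`. Let `y n`
tend to `y'` along a subsequence: `Reach f y₀ y'` (`Chain.last` again), `y' ∈ Om f` (closed). For `n`
large `dist (y n) y' < ` the constant of `exists_reach`, so `Reach f y' (y n)`, `Reach f (y n) (z n)`
(`reach_of_bwdAsymp`), `z n ∈ Q`, a contradiction. -/
def SpecMnu : Prop := ∀ (X : Type u) [MetricSpace X] [CompactSpace X] (f : X ≃ₜ X) (U : Set X)
  (c : ℝ) (y₀ : X), 0 < c → ExpConst f c → Shadowing f → Trap f U → y₀ ∈ Att f U → y₀ ∈ Om f →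
  (∀ z, Reach f y₀ z → Reach f z y₀) →
  ∃ U' : Set X, U' ⊆ U ∧ Trap f U' ∧ Att f U' = {z | Reach f y₀ z}

/-- MODULE MNT. From chains in `X` to transitivity on the attractor.

Proof. Let `x ∈ V ∩ Att f U`, `y ∈ W ∩ Att f U`, balls of radius `ε ≤ c` about `x`, `y` in `V`, `W`;
`δ` from `shad_ev` for `ε`; a chain `s` of length `m` from `x` to `y` with steps `< δ` (`Reach`);
extend it by the orbit of `x` in the past and of `y` in the future (`extendChain`). The shadow `z`:
`dist z x < ε`, `dist (f^[m] z) y < ε`. For `t ≤ 0`, `dist (ev f t z) (ev f t x) < ε ≤ c`, so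
`FwdAsymp f.symm z x` (`ExpConst.fwdAsymp` for `f.symm`) and `z ∈ Att f U` (`att_sat`). -/
def SpecMnt : Prop := ∀ (X : Type u) [MetricSpace X] [CompactSpace X] (f : X ≃ₜ X) (U : Set X)
  (c : ℝ), 0 < c → ExpConst f c → Shadowing f → Trap f U →
  (∀ x ∈ Att f U, ∀ y ∈ Att f U, Reach f x y) → TransOn f (Att f U)

/-! ### Part 5: entropy -/

/-- MODULE ENL. Lower bound for the entropy.

Proof. Let `V = {p : X × X | dist p.1 p.2 < ε / 2}`. A set `S` with `Sep f n ε S` is an
`IsDynNetIn f A V n S`: if a point `z` is in the balls of `x, y ∈ S`, then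
`dist (f^[t] x) (f^[t] y) < ε` for `t < n` and `x = y`. So `exp (n H) ≤ netMaxcard f A V n` for
infinitely many `n`, `H ≤ netEntropyEntourage f A V` (an `expGrowthSup`: a limsup of
`log (..) / n`) `≤ coverEntropy f A` (`coverEntropy_eq_iSup_netEntropyEntourage`). -/
def SpecEnl : Prop := ∀ (X : Type u) [MetricSpace X] (f : X → X) (A : Set X) (ε H : ℝ), 0 < ε →
  (∃ᶠ n : ℕ in atTop, ∃ S : Finset X, ↑S ⊆ A ∧ Sep f n ε S ∧ Real.exp (n * H) ≤ S.card) →
  (H : EReal) ≤ Dynamics.coverEntropy f A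

/-- MODULE ENU. The entropy of an expansive homeomorphism is realized by separated sets at a fixed
scale, and it is finite.

Proof. `ε = c`. (i) Let `H < coverEntropy g B`. By `coverEntropy_eq_iSup_netEntropyEntourage` there are
an entourage `V` and `H' > H` with `H' < netEntropyEntourage g B V`, so for infinitely many `n` there
is a finite `S` with `IsDynNetIn g B V n S`, `exp (n H') ≤ card S`. Let `ε' > 0` with
`dist u v < ε' → (u, v) ∈ V`. Uniform expansivity (compactness of `Y × Y`, `ExpConst`): there is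
`k : ℕ` such that if `dist (ev g j u) (ev g j v) < c` for all `|j| ≤ k` then `dist u v < ε'`. Two
points `u ≠ v` of `S`: there is `t < n` with `(g^[t] u, g^[t] v) ∉ V` (otherwise `v` is in the balls of
`u` and of `v`), so there is `|j| ≤ k` with `dist (ev g (t + j) u) (ev g (t + j) v) ≥ c`. So
`S' = ev g (-k) '' S ⊆ B` satisfies `Sep g (n + 2 k + 1) c S'`, and
`exp (n H') ≥ exp ((n + 2 k + 1) H)` for large `n`. (For `n ↦ n + 2 k + 1`, `∃ᶠ`:
`Filter.frequently_atTop`.)
(ii) Finite: cover `Y` by `Q` balls of radius `c / 2`; the itinerary of length `n` is injective on a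
set `S` with `Sep g n c S`, so `card S ≤ Q ^ n`. If the entropy is `⊤`, (i) with
`H = log (Q + 1)` gives sets with `card S ≥ (Q + 1) ^ n`, `n > 0`, a contradiction. -/
def SpecEnu : Prop := ∀ (Y : Type v) [MetricSpace Y] [CompactSpace Y] (g : Y ≃ₜ Y) (c : ℝ),
  0 < c → ExpConst g c → ∃ ε : ℝ, 0 < ε ∧ ∀ B : Set Y, (∀ u ∈ B, g.symm u ∈ B) →
  Dynamics.coverEntropy g B < ⊤ ∧ ∀ H : ℝ, (H : EReal) < Dynamics.coverEntropy g B →
    ∃ᶠ n : ℕ in atTop, ∃ S : Finset Y, ↑S ⊆ B ∧ Sep g n ε S ∧ Real.exp (n * H) ≤ S.card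

/-- MODULE CSA (uses SWI). Many passages close to `y`: every passage doubles the number of orbits.

Proof. `κ = dist y w`. `ε₁ > 0`: `dist (h x) (h x') < εB / 4` if `x, x' ∈ Att f U`,
`dist x x' < ε₁`. `N, ρ'` from SWI for `min (κ / 8) (εB / 4)`, `ρ = min ρ' (κ / 8)`,
`εA = min (κ / 4) ε₁`. For `x ∈ S` choose `T x` as in the hypothesis and for a subset `σ` of `T x` let
`Z x σ` be the point of SWI (for `σ` as a set of integers). Claim: if `Z x σ` and `Z x' σ'` are at
distance `< εA` at all times `t < n` then `x = x'` and `σ = σ'`.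
`x = x'`: for `t < n`, `dist (h (f^[t] x)) (h (f^[t] x')) ≤` (three terms, each `< εB / 4`) `< εB`.
`σ = σ'`: if `s ∈ σ`, `s ∉ σ'`, then `s < n`; at the time `s` the orbit of `Z x σ` is at distance
`< κ / 8` from `w` and the orbit of `Z x σ'` at distance `< κ / 8` from `ev f s x` (the points of `σ'`
are at distance `≥ 2 N ≥ N` from `s`, as both are in `T x`), which is at distance `< κ / 8` from
`y`; `κ / 8 + κ / 8 + κ / 8 + κ / 4 < κ`.
So `(x, σ) ↦ Z x σ` is injective on the finite set of pairs (`Finset.sigma`, `powerset`), whose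
cardinality is `∑ x ∈ S, 2 ^ card (T x) ≥ card S * 2 ^ k`, and its image is separated. -/
def SpecCsa : Prop := ∀ (X : Type u) [MetricSpace X] [CompactSpace X] (f : X ≃ₜ X) (U : Set X)
  (Y : Type v) [MetricSpace Y] (g : Y ≃ₜ Y) (h : X → Y) (y w : X) (εB : ℝ),
  Shadowing f → Trap f U → Fac f (Att f U) g h → Diam f (Att f U) h y w → 0 < εB →
  ∃ N : ℕ, 0 < N ∧ ∃ ρ : ℝ, 0 < ρ ∧ ∃ εA : ℝ, 0 < εA ∧ ∀ (n k : ℕ) (S : Finset X),
    ↑S ⊆ Att f U →
    (∀ x ∈ S, ∀ x' ∈ S, (∀ t < n, dist (h (f^[t] x)) (h (f^[t] x')) < εB) → x = x') →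
    (∀ x ∈ S, ∃ T : Finset ℕ, k ≤ T.card ∧ (∀ t ∈ T, t < n ∧ dist (f^[t] x) y < ρ) ∧
      ∀ s ∈ T, ∀ t ∈ T, s < t → s + 2 * N ≤ t) →
    ∃ S' : Finset X, ↑S' ⊆ Att f U ∧ Sep f n εA S' ∧ S.card * 2 ^ k ≤ S'.card

/-- MODULE LPL (uses TCH). Loops of a common length through `y` at all points of `A`.

Proof. `δ₁ ≤ δ / 4` with `dist (f x) (f x') < δ / 4` for `dist x x' < δ₁`. Finitely many points
`x 1, ..., x r` of `A` such that every point of `A` is at distance `< δ₁` from one of them. For each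
`j` TCH gives a `δ / 4`-chain in `A` from `x j` to `y` and one from `y` to `x j`; together a loop
`s j` of length `l j` at `x j` with `s j i = y` for some `0 < i < l j`. `l = ∏ l j`. For `x ∈ A` take
`j` with `dist x (x j) < δ₁`; the loop `s j` run `l / l j` times (index modulo `l j`), with its first
and last points replaced by `x`. -/
def SpecLpl : Prop := ∀ (X : Type u) [MetricSpace X] [CompactSpace X] (f : X ≃ₜ X) (A : Set X)
  (y : X) (δ : ℝ), IsClosed A → (∀ x ∈ A, f x ∈ A) → TransOn f A → y ∈ A → 0 < δ →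
  ∃ l : ℕ, 0 < l ∧ ∀ x ∈ A, ∃ s : ℕ → X, s 0 = x ∧ s l = x ∧ (∀ i ≤ l, s i ∈ A) ∧
    (∀ i < l, dist (f (s i)) (s (i + 1)) < δ) ∧ ∃ i < l, s i = y

/-- MODULE PSB (uses LPL). Inserting one loop through `y` in each of `m` blocks of length `K`.

Proof. `δ` from `shad_att` for `ε`, `l` from LPL for `δ` (`A = Att f U`); for `v ∈ Att f U` let
`c v : ℕ → X` be the loop at `v`. The pseudo orbit on `0 ≤ T ≤ m (K + l)`: for
`T = i (K + l) + s`, `0 ≤ s < K + l`: `P T = f^[i K + s] x` if `s < J i`;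
`P T = c (f^[i K + J i] x) (s - J i)` if `J i ≤ s < J i + l`; `P T = f^[i K + s - l] x` if
`J i + l ≤ s`; for `T ≥ m (K + l)`: `P T = f^[T - m l] x`; for `T < 0`: `P T = ev f T x`. All steps are
`0` except inside the loops (note `s = K + l - 1 ≥ J i + l`, so the last point of a block is
`f^[(i + 1) K - 1] x`; a loop starts with `c v 0 = v` and ends with `c v l = v`). Shadow it. -/
def SpecPsb : Prop := ∀ (X : Type u) [MetricSpace X] [CompactSpace X] (f : X ≃ₜ X) (U : Set X)
  (y : X) (ε : ℝ), Shadowing f → Trap f U → TransOn f (Att f U) → y ∈ Att f U → 0 < ε →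
  ∃ l : ℕ, 0 < l ∧ ∀ (K m : ℕ) (J : ℕ → ℕ), (∀ i < m, J i < K) → ∀ x ∈ Att f U,
    ∃ z ∈ Att f U, (∀ i < m, ∃ r < l, dist (f^[i * (K + l) + J i + r] z) y < ε) ∧
    (∀ i < m, ∀ s < J i, dist (f^[i * (K + l) + s] z) (f^[i * K + s] x) < ε) ∧
    (∀ i < m, ∀ s, J i ≤ s → s < K →
      dist (f^[i * (K + l) + s + l] z) (f^[i * K + s] x) < ε)

/-- MODULE CSB (uses PSB). Few passages close to `y`: insertions.

Proof. `ε₁ > 0`: `dist (h x) (h x') < εB / 4` if `x, x' ∈ Att f U`, `dist x x' ≤ ε₁`.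
`ε = min (ρ / 4) ε₁`, `εA = min (ρ / 4) (ε₁ / 2)`, `l` from PSB for `ε`. For `x ∈ S` let `I x` be the
set of blocks of the hypothesis. For `J : Fin m → Fin K` with `J i = 0` for `i ∉ I x` let `Z x J` be
the point of PSB. The number of these pairs `(x, J)` is `∑ x ∈ S, K ^ card (I x) ≥ card S * K ^ m'`
(`Fintype.piFinset`). Let `S'` be a maximal subset of the finite set of all `Z x J` with
`Sep f (m (K + l)) εA S'`; for every pair `(x, J)` choose `ζ ∈ S'` with
`dist (f^[t] ζ) (f^[t] (Z x J)) < εA` for all `t < m (K + l)` (maximality). For `i < m` let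
`τ i ζ` be the first `s` with `dist (f^[i (K + l) + s] ζ) y < ρ / 2`. If `i ∈ I x`: at the time of PSB
(first statement), `s = J i + r`, the distance is `< ε + εA ≤ ρ / 2`, so `τ i ζ ≤ J i + r`; for
`s < J i` the distance is `> ρ - ε - εA ≥ ρ / 2`, because `ρ ≤ dist (f^[i K + s] x) y`; so
`J i ≤ τ i ζ < J i + l`. The map `(x, J) ↦ (ζ, I x, (τ i ζ - J i for i ∈ I x, 0 otherwise))` is
injective: from the image one recovers `J`, and if `(x, J)`, `(x', J)` have the same `ζ` then for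
every `t = i K + s < m K` there is one time `T < m (K + l)` (`T = i (K + l) + s` or
`i (K + l) + s + l`) with `dist (f^[T] (Z x J)) (f^[t] x) < ε`, the same for `x'`, and
`dist (f^[T] (Z x J)) (f^[T] (Z x' J)) < 2 εA ≤ ε₁`, so `dist (h (f^[t] x)) (h (f^[t] x')) < εB`, for
all `t`, `x = x'`. So the number of pairs is at most `card S' * 2 ^ m * l ^ m`. (It may be simpler
to bound the number of `(x, J)` with given `ζ`.) -/
def SpecCsb : Prop := ∀ (X : Type u) [MetricSpace X] [CompactSpace X] (f : X ≃ₜ X) (U : Set X)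
  (Y : Type v) [MetricSpace Y] (g : Y ≃ₜ Y) (h : X → Y) (y : X) (ρ εB : ℝ),
  Shadowing f → Trap f U → TransOn f (Att f U) → Fac f (Att f U) g h → y ∈ Att f U → 0 < ρ →
  0 < εB → ∃ l : ℕ, 0 < l ∧ ∃ εA : ℝ, 0 < εA ∧ ∀ (K m m' : ℕ) (S : Finset X), 0 < K →
    ↑S ⊆ Att f U →
    (∀ x ∈ S, ∀ x' ∈ S, (∀ t < m * K, dist (h (f^[t] x)) (h (f^[t] x')) < εB) → x = x') →
    (∀ x ∈ S, ∃ I : Finset ℕ, m' ≤ I.card ∧ (∀ i ∈ I, i < m) ∧
      ∀ i ∈ I, ∀ s < K, ρ ≤ dist (f^[i * K + s] x) y) →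
    ∃ S' : Finset X, ↑S' ⊆ Att f U ∧ Sep f (m * (K + l)) εA S' ∧
      S.card * K ^ m' ≤ S'.card * (2 * l) ^ m

/-- MODULE DIC (uses CSA, CSB). The dichotomy.

Proof. `N, ρ, εA₁` from CSA for `εB`, `l, εA₂` from CSB for `ρ`, `εB`; `εA = min εA₁ εA₂`,
`K₀ = 2 * N + 1`. Lift `T` to a finite set `S ⊆ Att f U` with `h` injective on `S`, `h '' S = T`
(`Fac.ev`: `h (f^[t] x) = g^[t] (h x)`). For `x ∈ S` let `V x` be the set of the `i < m` such that
`dist (f^[i K + s] x) y < ρ` for some `s < K`. `S₁ = {x ∈ S | m / 2 ≤ card (V x)}`, `S₂` the others.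
If `card S ≤ 2 card S₁`: for `x ∈ S₁` one of the two parity classes of `V x` has at least `m / 4`
elements; choose one passage time in each of these blocks: consecutive ones are at distance
`> K ≥ 2 N`. CSA with `n = m K`, `k = m / 4`. Otherwise `card S ≤ 2 card S₂`, and for `x ∈ S₂` the
complement of `V x` in `range m` has at least `m / 2` elements: CSB with `m' = m / 2`.
(`Sep` is monotone: `Sep f n εA₁ S'` implies `Sep f n εA S'`.) -/
def SpecDic : Prop := ∀ (X : Type u) [MetricSpace X] [CompactSpace X] (f : X ≃ₜ X) (U : Set X)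
  (Y : Type v) [MetricSpace Y] (g : Y ≃ₜ Y) (h : X → Y) (y w : X) (εB : ℝ),
  Shadowing f → Trap f U → TransOn f (Att f U) → Fac f (Att f U) g h →
  Diam f (Att f U) h y w → 0 < εB →
  ∃ l K₀ : ℕ, 0 < l ∧ ∃ εA : ℝ, 0 < εA ∧ ∀ (K m : ℕ) (T : Finset Y), K₀ ≤ K → 0 < K →
    ↑T ⊆ h '' (Att f U) → Sep g (m * K) εB T → ∃ S' : Finset X, ↑S' ⊆ Att f U ∧
      ((Sep f (m * K) εA S' ∧ T.card * 2 ^ (m / 4) ≤ 2 * S'.card) ∨
        (Sep f (m * (K + l)) εA S' ∧ T.card * K ^ (m / 2) ≤ 2 * S'.card * (2 * l) ^ m))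

/-- MODULE GAP (uses ENL, ENU, DIC). The entropy gap.

Proof. `A = Att f U`, `B = h '' A`, `B` is invariant under `g`, `g.symm`. `HB = coverEntropy g B`,
`HA = coverEntropy f A`. `HB < ⊤` (ENU for `g`). Suppose `HA ≤ HB`. `A` is not empty, `HB ≥ 0`,
`HA ≥ 0` (`coverEntropy_nonneg`), so both are real numbers. `εB` from ENU; `l, K₀, εA` from DIC.
Choose `K ≥ K₀` with `log K / 2 > log (2 l) + l HB + 3` and then `0 < η ≤ 1`, `η` small:
`(3 K + l + 3) η ≤ min (log 2 / 8) 1`. By ENU with `H = HB - η`, for infinitely many `n` there is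
`T ⊆ B`, `Sep g n εB T`, `exp (n (HB - η)) ≤ card T`. For `m = n / K + 1` (natural division),
`n ≤ m K ≤ n + K`, `Sep g (m K) εB T` (monotone), so `card T ≥ exp (m K (HB - η) - K HB)` (note
`n (HB - η) ≥ n HB - n η ≥ (m K - K) HB - m K η`). DIC gives `S'`.
If the first alternative occurs for infinitely many of these `m` (`m → ∞` with `n`):
`card S' ≥ exp (m K (HB - η) - K HB) * 2 ^ (m / 4) / 2 ≥ exp (m K (HA + η))` for large `m`, because
`m K HB - m K η + (m / 4 - 1) log 2 - K HB - log 2 ≥ m K HA + m K η` for large `m`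
(`HA ≤ HB`, `2 K η < log 2 / 4`). ENL: `HA + η ≤ coverEntropy f A = HA`, a contradiction.
Otherwise the second one occurs for infinitely many `m`:
`card S' ≥ exp (m K (HB - η) - K HB) * K ^ (m / 2) / (2 (2 l) ^ m) ≥ exp (m (K + l) (HA + η))` for
large `m`, as `(m / 2 - 1) log K - m log (2 l) - log 2 - K HB - m K η ≥ m l HB + m (K + l) η` for
large `m`. Same contradiction. -/
def SpecGap : Prop := ∀ (X : Type u) [MetricSpace X] [CompactSpace X] (f : X ≃ₜ X) (U : Set X)
  (Y : Type v) [MetricSpace Y] [CompactSpace Y] (g : Y ≃ₜ Y) (c' : ℝ) (h : X → Y) (y w : X),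
  Shadowing f → Trap f U → TransOn f (Att f U) → 0 < c' → ExpConst g c' →
  Fac f (Att f U) g h → Diam f (Att f U) h y w →
  Dynamics.coverEntropy g (h '' (Att f U)) < Dynamics.coverEntropy f (Att f U)

end Pool.Agent.Lib.MP610fe3.FT
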