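import Pool.Agent.Lib.MP_610fe3_an.FT.Spec
import Pool.Agent.Lib.MP_610fe3_an.TM.Chn

/-!
# The factor theorem, module SWI: switching between the two orbits of a diamond
-/

open Set Filter Function
open scoped Topology

namespace Pool.Agent.Lib.MP610fe3.FT

open TM N3

universe u v

namespace SWIM

variable {X : Type*} [MetricSpace X]

open Classical in
/-- The pseudo orbit: the orbit of `w` in the windows of `σ`, the orbit of `x` elsewhere. -/
noncomputable def Pso (f : X ≃ₜ X) (N : ℕ) (σ : Set ℤ) (x w : X) (t : ℤ) : X :=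
  if h : ∃ s ∈ σ, |t - s| < (N : ℤ) then ev f (t - h.choose) w else ev f t x

variable {f : X ≃ₜ X} {N : ℕ} {σ : Set ℤ} {x w y : X}

theorem pso_in (hsep : ∀ s ∈ σ, ∀ t ∈ σ, s < t → s + 2 * N ≤ t) {s t : ℤ} (hs : s ∈ σ)
    (hst : |t - s| < (N : ℤ)) : Pso f N σ x w t = ev f (t - s) w := by
  have h : ∃ s ∈ σ, |t - s| < (N : ℤ) := ⟨s, hs, hst⟩
  have h1 := h.choose_spec
  have h2 : h.choose = s := by
    have h3 := abs_lt.1 h1.2
    have h4 := abs_lt.1 hst
    rcases lt_trichotomy h.choose s with h5 | h5 | h5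
    · have := hsep _ h1.1 _ hs h5
      omega
    · exact h5
    · have := hsep _ hs _ h1.1 h5
      omega
  rw [Pso, dif_pos h, h2]

theorem pso_out {t : ℤ} (ht : ∀ s ∈ σ, (N : ℤ) ≤ |t - s|) : Pso f N σ x w t = ev f t x := by
  rw [Pso, dif_neg]
  rintro ⟨s, hs, h⟩
  exact absurd (ht s hs) (not_le.2 h)

theorem step {δ : ℝ} (hδ : 0 < δ) (hN : 0 < N)
    (hsep : ∀ s ∈ σ, ∀ t ∈ σ, s < t → s + 2 * N ≤ t)
    (hx : ∀ s ∈ σ, ∀ j : ℤ, |j| ≤ (N : ℤ) → dist (ev f j (ev f s x)) (ev f j y) < δ / 2)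
    (hyw : ∀ j : ℤ, (N : ℤ) - 1 ≤ |j| → dist (ev f j y) (ev f j w) < δ / 2) (t : ℤ) :
    dist (f (Pso f N σ x w t)) (Pso f N σ x w (t + 1)) < δ := by
  by_cases h1 : ∃ s ∈ σ, |t - s| < (N : ℤ)
  · obtain ⟨s, hs, hst⟩ := h1
    have h3 := abs_lt.1 hst
    by_cases h2 : ∃ s ∈ σ, |t + 1 - s| < (N : ℤ)
    · obtain ⟨s', hs', hst'⟩ := h2
      have h4 := abs_lt.1 hst'
      have h5 : s' = s := by
        rcases lt_trichotomy s' s with h5 | h5 | h5
        · have := hsep _ hs' _ hs h5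
          omega
        · exact h5
        · have := hsep _ hs _ hs' h5
          omega
      subst h5
      rw [pso_in hsep hs hst, pso_in hsep hs hst', ← ev_succ,
        show t - s' + 1 = t + 1 - s' by ring, dist_self]
      exact hδ
    · push Not at h2
      have h4 := h2 s hs
      have h6 : t - s = (N : ℤ) - 1 := by
        rcases le_abs.1 h4 with h5 | h5 <;> omega
      rw [pso_in hsep hs hst, pso_out h2, ← ev_succ]
      have h7 : t - s + 1 = (N : ℤ) := by omega
      have h8 : ev f (t + 1) x = ev f (N : ℤ) (ev f s x) := by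
        rw [← ev_add]
        congr 1
        omega
      rw [h7, h8]
      have a1 := hyw N (by rw [abs_of_nonneg (by positivity)]; omega)
      have a2 := hx s hs N (by rw [abs_of_nonneg (by positivity)])
      have a3 := dist_triangle_left (ev f (N : ℤ) w) (ev f (N : ℤ) (ev f s x)) (ev f (N : ℤ) y)
      rw [dist_comm (ev f (N : ℤ) y) (ev f (N : ℤ) (ev f s x))] at a3
      linarith
  · push Not at h1
    by_cases h2 : ∃ s ∈ σ, |t + 1 - s| < (N : ℤ)
    · obtain ⟨s, hs, hst⟩ := h2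
      have h3 := abs_lt.1 hst
      have h4 := h1 s hs
      have h6 : t - s = -(N : ℤ) := by
        rcases le_abs.1 h4 with h5 | h5 <;> omega
      rw [pso_in hsep hs hst, pso_out h1, ← ev_succ]
      have h7 : t + 1 - s = -(N : ℤ) + 1 := by omega
      have h8 : ev f (t + 1) x = ev f (-(N : ℤ) + 1) (ev f s x) := by
        rw [← ev_add]
        congr 1
        omega
      rw [h7, h8]
      have h9 : |(-(N : ℤ) + 1)| = (N : ℤ) - 1 := by
        rw [abs_of_nonpos (by omega)]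
        omega
      have a1 := hyw (-(N : ℤ) + 1) (by rw [h9])
      have a2 := hx s hs (-(N : ℤ) + 1) (by rw [h9]; omega)
      have a3 := dist_triangle (ev f (-(N : ℤ) + 1) (ev f s x)) (ev f (-(N : ℤ) + 1) y)
        (ev f (-(N : ℤ) + 1) w)
      linarith
    · push Not at h2
      rw [pso_out h1, pso_out h2, ← ev_succ, dist_self]
      exact hδ

/-- Two points asymptotic in both directions are uniformly close at large times. -/
theorem exists_N (h1 : FwdAsymp f y w) (h2 : FwdAsymp f.symm y w) {δ : ℝ} (hδ : 0 < δ) :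
    ∃ N : ℕ, 0 < N ∧ ∀ j : ℤ, (N : ℤ) - 1 ≤ |j| → dist (ev f j y) (ev f j w) < δ := by
  obtain ⟨N₁, hN₁⟩ := fwd_iff.1 h1 δ hδ
  obtain ⟨N₂, hN₂⟩ := fwd_iff.1 h2 δ hδ
  refine ⟨max N₁ N₂ + 1, Nat.succ_pos _, fun j hj => ?_⟩
  have hm1 : N₁ ≤ max N₁ N₂ := le_max_left _ _
  have hm2 : N₂ ≤ max N₁ N₂ := le_max_right _ _
  push_cast at hj
  rcases Int.eq_nat_or_neg j with ⟨n, rfl | rfl⟩
  · rw [abs_of_nonneg (by positivity)] at hj
    exact hN₁ n (by omega)
  · rw [abs_neg, abs_of_nonneg (by positivity)] at hj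
    have := hN₂ n (by omega)
    rwa [ev_symm, ev_symm] at this

end SWIM

open SWIM in
theorem specSwi : SpecSwi.{u, v} := by
  intro X _ _ f U Y _ g h y w ε hsh hT F D hε
  have hinv : ∀ x ∈ Att f U, ∀ k : ℤ, ev f k x ∈ Att f U := fun x hx k => att_ev hT hx k
  obtain ⟨ε₁, hε₁, hu⟩ := F.unif (isClosed_att hT) (show 0 < ε / 2 by positivity)
  obtain ⟨δ, hδ, hS⟩ := shad_att hsh hT (lt_min hε hε₁)
  obtain ⟨N, hN, hyw⟩ := exists_N D.fwd D.bwd (show 0 < δ / 2 by positivity)
  obtain ⟨ρ, hρ, hr⟩ := unif_cont f N (show 0 < min (δ / 2) ε₁ from lt_min (by positivity) hε₁)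
  refine ⟨N, hN, ρ, hρ, fun x hx σ hσ hsep => ?_⟩
  have hnear : ∀ s ∈ σ, ∀ j : ℤ, |j| ≤ (N : ℤ) →
      dist (ev f j (ev f s x)) (ev f j y) < min (δ / 2) ε₁ := by
    intro s hs j hj
    have hj' := abs_le.1 hj
    exact hr _ _ (hσ s hs) j hj'.1 hj'.2
  have hPA : ∀ t, Pso f N σ x w t ∈ Att f U := by
    intro t
    unfold Pso
    split_ifs with ht
    · exact hinv _ D.w_mem _
    · exact hinv _ hx _
  obtain ⟨z, hzA, hz⟩ := hS (Pso f N σ x w) hPA (step hδ hN hsep
    (fun s hs j hj => (hnear s hs j hj).trans_le (min_le_left _ _)) hyw)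
  refine ⟨z, hzA, fun s hs t hst => ?_, fun t ht => ?_, fun t => ?_⟩
  · have := (hz t).trans_le (min_le_left _ _)
    rwa [pso_in hsep hs hst] at this
  · have := (hz t).trans_le (min_le_left _ _)
    rwa [pso_out ht] at this
  · have hzt := (hz t).trans_le (min_le_right _ _)
    have a1 := hu _ (hinv _ hzA t) _ (hPA t) hzt
    by_cases ht : ∃ s ∈ σ, |t - s| < (N : ℤ)
    · obtain ⟨s, hs, hst⟩ := ht
      rw [pso_in hsep hs hst] at a1
      have h1 : h (ev f (t - s) w) = h (ev f (t - s) y) := by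
        rw [F.ev hinv D.w_mem, F.ev hinv D.y_mem, D.eq]
      rw [h1] at a1
      have h2 := (hnear s hs (t - s) hst.le).trans_le (min_le_right _ _)
      rw [← ev_add, sub_add_cancel] at h2
      have a2 := hu _ (hinv _ hx t) _ (hinv _ D.y_mem (t - s)) h2
      have a3 := dist_triangle_right (h (ev f t z)) (h (ev f t x)) (h (ev f (t - s) y))
      linarith
    · push Not at ht
      rw [pso_out ht] at a1
      linarith

end Pool.Agent.Lib.MP610fe3.FT
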